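import Pool.Agent.PFO.Perm

/-!
# The polynomials `D_d(x + s, 1) - s`
-/

set_option autoImplicit false

open Finset Polynomial

namespace Pool.Agent.PFO

/-- `a` is a square modulo a prime `q ≡ -1 (mod 4 a)` -/
theorem leg_one {a q : ℕ} [Fact q.Prime] (ha : 0 < a) (h : 4 * a ∣ q + 1) :
    legendreSym q a = 1 := by
  obtain ⟨t, ht⟩ := h
  have hmul : 4 * a * t = 4 * (a * t) := by ring
  rw [hmul] at ht
  have ht0 : 0 < t := by
    rcases Nat.eq_zero_or_pos t with h | h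
    · rw [h, mul_zero, mul_zero] at ht; omega
    · exact h
  have hat : 0 < a * t := Nat.mul_pos ha ht0
  have hodd : q % 2 = 1 := by omega
  rw [jacobiSym.legendreSym.to_jacobiSym]
  have h2 : jacobiSym a q = jacobiSym a (q % (4 * (a : ℤ).natAbs)) :=
    jacobiSym.mod_right a (Nat.odd_iff.2 hodd)
  rw [Int.natAbs_natCast] at h2
  have h3 : q % (4 * a) = 4 * a - 1 := by
    have h4 : q = (4 * a - 1) + 4 * a * (t - 1) := by
      obtain ⟨w, hw⟩ : ∃ w, t = w + 1 := ⟨t - 1, by omega⟩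
      subst hw
      rw [Nat.add_sub_cancel]
      have h6 : 4 * (a * (w + 1)) = 4 * a * w + 4 * a := by ring
      omega
    rw [h4, Nat.add_mul_mod_self_left, Nat.mod_eq_of_lt (by omega)]
  rw [h2, h3]
  have hc : (4 * a - 1).Coprime 2 := by
    rw [Nat.coprime_two_right, Nat.odd_iff]
    omega
  have h5 : jacobiSym (((4 * a : ℕ)) : ℤ) (4 * a - 1) = 1 := by
    rw [jacobiSym.mod_left]
    have h6 : (((4 * a : ℕ)) : ℤ) % ((4 * a - 1 : ℕ) : ℤ) = 1 % ((4 * a - 1 : ℕ) : ℤ) := by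
      have h7 : (((4 * a : ℕ)) : ℤ) = ((4 * a - 1 : ℕ) : ℤ) + 1 := by
        have : 4 * a = (4 * a - 1) + 1 := by omega
        exact_mod_cast this
      rw [h7, Int.add_comm, Int.add_emod_right]
    rw [h6, ← jacobiSym.mod_left, jacobiSym.one_left]
  have h8 : ((4 * a : ℕ) : ℤ) = (2 : ℤ) ^ 2 * (a : ℤ) := by push_cast; ring
  rw [h8, jacobiSym.mul_left, jacobiSym.pow_left] at h5
  have h9 : jacobiSym 2 (4 * a - 1) ^ 2 = 1 := by
    refine jacobiSym.sq_one ?_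
    rw [Int.gcd_comm]
    exact_mod_cast hc
  rw [h9, one_mul] at h5
  exact h5

theorem sq_of_leg {a q : ℕ} [Fact q.Prime] (ha : 0 < a) (h : 4 * a ∣ q + 1) :
    ∃ r : ZMod q, r * r = a := by
  have h1 := leg_one ha h
  have h2 : ((a : ℤ) : ZMod q) ≠ 0 := by
    intro h0
    rw [(legendreSym.eq_zero_iff q (a : ℤ)).2 h0] at h1
    exact zero_ne_one h1
  obtain ⟨r, hr⟩ := (legendreSym.eq_one_iff q h2).1 h1
  refine ⟨r, ?_⟩
  rw [← hr]
  push_cast
  rfl

theorem iter_cheb (s : ℤ) (d n : ℕ) (x : ℤ) :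
    (fun z : ℤ => ((dickson 1 (1 : ℤ) d).comp (X + C s) - C s : ℤ[X]).eval z)^[n] x =
      (dickson 1 (1 : ℤ) (d ^ n)).eval (x + s) - s := by
  induction n with
  | zero => simp
  | succ n ih =>
    rw [Function.iterate_succ_apply', ih]
    simp only [eval_sub, eval_comp, eval_add, eval_X, eval_C]
    rw [sub_add_cancel, pow_succ, mul_comm, dickson_one_one_mul, eval_comp]

theorem cheb_zeroPeriodic (s d : ℕ) (hs : 3 ≤ s) (hd : 0 < d) :
    ZeroPeriodic ((dickson 1 (1 : ℤ) d).comp (X + C (s : ℤ)) - C (s : ℤ)) := by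
  obtain ⟨c, rfl⟩ : ∃ c, s = c + 2 := ⟨s - 2, by omega⟩
  have hc : 0 < c := by omega
  set m := 4 * (c * (c + 4) * d) with hm
  have hmpos : 0 < m := by positivity
  refine ⟨m, m - 1, 2, hmpos, ?_, fun q hq hqm hq2 => ?_⟩
  · have h3 : Nat.Coprime (m - 1) ((m - 1) + 1) := by simp
    rwa [Nat.sub_add_cancel hmpos] at h3
  have : Fact q.Prime := ⟨hq⟩
  have h1 : m ∣ q + 1 := by
    have h2 := hqm.add_right 1
    rw [Nat.sub_add_cancel hmpos] at h2
    exact (Nat.modEq_zero_iff_dvd.1 (h2.trans (Nat.modEq_zero_iff_dvd.2 dvd_rfl)))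
  obtain ⟨α, hα⟩ := sq_of_leg (q := q) (a := c + 4) (by omega)
    ((Nat.mul_dvd_mul_left 4 (Dvd.intro_left c rfl |>.mul_right d)).trans h1)
  obtain ⟨β, hβ⟩ := sq_of_leg (q := q) (a := c) hc
    ((Nat.mul_dvd_mul_left 4 (Dvd.intro (c + 4) rfl |>.mul_right d)).trans h1)
  push_cast at hα
  have h20 : (2 : ZMod q) ≠ 0 := by
    have h3 : ((2 : ℕ) : ZMod q) ≠ 0 := by
      rw [Ne, ZMod.natCast_eq_zero_iff]
      intro h
      have := Nat.le_of_dvd (by omega) h
      omega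
    exact_mod_cast h3
  set w : ZMod q := (α + β) / 2 with hw
  set w' : ZMod q := (α - β) / 2 with hw'
  have hww : w * w' = 1 := by
    rw [hw, hw']
    field_simp
    linear_combination hα - hβ
  have hsum : w ^ 2 + w' ^ 2 = ((c + 2 : ℕ) : ZMod q) := by
    rw [hw, hw']
    field_simp
    push_cast
    linear_combination 2 * hα + 2 * hβ
  have hw0 : w ≠ 0 := fun h => by rw [h, zero_mul] at hww; exact zero_ne_one hww
  have huv : w ^ 2 * w' ^ 2 = 1 := by rw [← mul_pow, hww, one_pow]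
  -- `q = 4 s - 1`
  obtain ⟨t, ht⟩ := h1
  set r := c * (c + 4) * d * t with hr
  have hr0 : 0 < r := by
    rcases Nat.eq_zero_or_pos r with h | h
    · have : m * t = 4 * r := by rw [hm, hr]; ring
      omega
    · exact h
  have hq' : q + 1 = 4 * r := by rw [ht, hm, hr]; ring
  have hhalf : q / 2 = 2 * r - 1 := by omega
  have hpow : (w ^ 2) ^ (q / 2) = 1 := by
    rw [← pow_mul]
    have e : 2 * (q / 2) = q - 1 := by omega
    rw [e]
    exact ZMod.pow_card_sub_one_eq_one hw0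
  have ho : orderOf (w ^ 2) ∣ q / 2 := orderOf_dvd_of_pow_eq_one hpow
  have hcop : d.Coprime (q / 2) := by
    rw [hhalf]
    have h2 : 2 * r - 1 + 1 = d * (2 * (c * (c + 4) * t)) := by
      rw [Nat.sub_add_cancel (by omega), hr]
      ring
    have h3 : (2 * r - 1).Coprime (2 * r - 1 + 1) := by simp
    rw [h2] at h3
    exact (Nat.Coprime.coprime_mul_right_right h3).symm
  have hcop2 : d.Coprime (orderOf (w ^ 2)) := Nat.Coprime.coprime_dvd_right ho hcop
  have hopos : 0 < orderOf (w ^ 2) := Nat.pos_of_dvd_of_pos ho (by omega)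
  refine ⟨(orderOf (w ^ 2)).totient, Nat.totient_pos.2 hopos, ?_⟩
  rw [iter_cheb, zero_add]
  set k := (orderOf (w ^ 2)).totient
  have h2 := Nat.ModEq.pow_totient hcop2
  have h3 : (w ^ 2) ^ (d ^ k) = w ^ 2 := by
    have h4 : (w ^ 2) ^ (d ^ k) = (w ^ 2) ^ 1 := by
      rw [← pow_mod_orderOf (w ^ 2) (d ^ k), ← pow_mod_orderOf (w ^ 2) 1, h2]
    rwa [pow_one] at h4
  have h5 : (w' ^ 2) ^ (d ^ k) = w' ^ 2 := by
    have h6 : (w ^ 2) ^ (d ^ k) * (w' ^ 2) ^ (d ^ k) = 1 := by rw [← mul_pow, huv, one_pow]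
    rw [h3] at h6
    have h7 : w ^ 2 ≠ 0 := pow_ne_zero 2 hw0
    exact mul_left_cancel₀ h7 (h6.trans huv.symm)
  rw [← ZMod.intCast_zmod_eq_zero_iff_dvd]
  have h6 : ((((dickson 1 (1 : ℤ) (d ^ k)).eval (((c + 2 : ℕ) : ℤ)) : ℤ)) : ZMod q) =
      (w ^ 2) ^ (d ^ k) + (w' ^ 2) ^ (d ^ k) := by
    have h7 := Polynomial.eval_intCast_map (Int.castRingHom (ZMod q))
      (dickson 1 (1 : ℤ) (d ^ k)) ((c + 2 : ℕ) : ℤ)
    rw [map_dickson] at h7
    have h8 : (Int.castRingHom (ZMod q)) 1 = w ^ 2 * w' ^ 2 := by rw [huv]; simp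
    have h9 : ((((c + 2 : ℕ) : ℤ)) : ZMod q) = w ^ 2 + w' ^ 2 := by
      rw [hsum]
      push_cast
      ring
    rw [h8, h9, dickson_eval] at h7
    exact h7.symm
  rw [Int.cast_sub, h6, h3, h5, hsum]
  push_cast
  ring

end Pool.Agent.PFO
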