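import Pool.Agent.PFO.Fer2

/-!
# The polynomials `D_d(x - s, 1) + s`
-/

set_option autoImplicit false

open Finset Polynomial

namespace Pool.Agent.PFO

/-- a class modulo the odd part of `a` such that `(a / q) = -1` for all `q ≡ 3 (mod 8)` in it -/
theorem sol_three {a : ℕ} (ha : Squarefree a) (h1 : 1 < a) :
    ∃ m v : ℕ, Odd m ∧ m ∣ a ∧ v.Coprime m ∧
      ∀ q : ℕ, q % 8 = 3 → q ≡ v [MOD m] → jacobiSym a q = -1 := by
  rcases Nat.even_or_odd a with hev | hod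
  · obtain ⟨m, hm⟩ := hev.two_dvd
    have hmo : Odd m := by
      rw [← Nat.not_even_iff_odd]
      intro he
      obtain ⟨t, ht⟩ := he.two_dvd
      have h2 := ha 2 ⟨t, by rw [hm, ht]; ring⟩
      exact absurd (Nat.isUnit_iff.1 h2) (by decide)
    have e : (a : ℤ) = 2 * (m : ℤ) := by rw [hm]; push_cast; ring
    refine ⟨m, m - 1, hmo, ⟨2, by rw [hm]; ring⟩, pred_coprime hmo.pos, fun q hq8 hqm => ?_⟩
    rw [e, jacobiSym.mul_left, jac_two (Or.inl hq8),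
      jac_odd hmo (by omega) (dvd_succ hmo.pos hqm), mul_one]
  · obtain ⟨l, hl, m, hm⟩ := Nat.exists_prime_and_dvd (show a ≠ 1 by omega)
    have : Fact l.Prime := ⟨hl⟩
    have hlo : Odd l := Odd.of_dvd_nat hod ⟨m, hm⟩
    have hmo : Odd m := Odd.of_dvd_nat hod ⟨l, by rw [hm, mul_comm]⟩
    have hml : m.Coprime l := by
      rw [Nat.coprime_comm, Nat.Prime.coprime_iff_not_dvd hl]
      rintro ⟨t, ht⟩
      have h2 := ha l ⟨t, by rw [hm, ht]; ring⟩
      exact hl.ne_one (Nat.isUnit_iff.1 h2)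
    have e : (a : ℤ) = (l : ℤ) * (m : ℤ) := by rw [hm]; push_cast; ring
    obtain ⟨z, hz, hzl⟩ := exists_non hlo
    obtain ⟨w, hw, hwl⟩ : ∃ w : ℕ, w.Coprime l ∧ ∀ q : ℕ, q % 4 = 3 → q ≡ w [MOD l] →
        jacobiSym l q = -1 := by
      have h3 : l % 4 = 1 ∨ l % 4 = 3 := by
        have := Nat.odd_iff.1 hlo
        omega
      rcases h3 with h3 | h3
      · refine ⟨z, hz, fun q hq hql => ?_⟩
        rw [jacobiSym.quadratic_reciprocity_one_mod_four h3 (Nat.odd_iff.2 (by omega)),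
          jac_class hql, hzl]
      · refine ⟨1, Nat.coprime_one_left l, fun q hq hql => ?_⟩
        rw [jacobiSym.quadratic_reciprocity_three_mod_four h3 hq, jac_class hql, Nat.cast_one,
          jacobiSym.one_left]
    obtain ⟨v, hv1, hv2⟩ := Nat.chineseRemainder hml (m - 1) w
    refine ⟨m * l, v, hmo.mul hlo, ⟨1, by rw [hm]; ring⟩, ?_, fun q hq8 hqv => ?_⟩
    · refine Nat.Coprime.mul_right ?_ ?_
      · rw [Nat.Coprime, hv1.gcd_eq]; exact pred_coprime hmo.pos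
      · rw [Nat.Coprime, hv2.gcd_eq]; exact hw
    · have hqm : q ≡ m - 1 [MOD m] := (hqv.of_dvd (dvd_mul_right m l)).trans hv1
      have hql : q ≡ w [MOD l] := (hqv.of_dvd (dvd_mul_left l m)).trans hv2
      rw [e, jacobiSym.mul_left, hwl q (by omega) hql,
        jac_odd hmo (by omega) (dvd_succ hmo.pos hqm), mul_one]

/-- a residue class with two characters equal to `-1` -/
theorem class_two {a b D : ℕ} (ha : Squarefree a) (ha1 : 1 < a) (hb : Squarefree b) (hb1 : 1 < b)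
    (hab : a.gcd b ∣ 4) (hD : Odd D) (hDa : D.Coprime a) (hDb : D.Coprime b) :
    ∃ M e : ℕ, 0 < M ∧ e.Coprime M ∧ ∀ q, q ≡ e [MOD M] → q % 4 = 3 ∧ jacobiSym a q = -1 ∧
      jacobiSym b q = -1 ∧ D ∣ q + 1 := by
  obtain ⟨m, v, hmo, hma, hv, hjv⟩ := sol_three ha ha1
  obtain ⟨l, w, hlo, hlb, hw, hjw⟩ := sol_three hb hb1
  have hml : m.Coprime l := by
    have h1 : m.gcd l ∣ 4 := (Nat.dvd_gcd ((Nat.gcd_dvd_left m l).trans hma)
      ((Nat.gcd_dvd_right m l).trans hlb)).trans hab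
    have h2 : Odd (m.gcd l) := Odd.of_dvd_nat hmo (Nat.gcd_dvd_left m l)
    have h3 : (m.gcd l).Coprime 4 := by
      have : (m.gcd l).Coprime (2 ^ 2) := Nat.Coprime.pow_right 2 ((Nat.coprime_two_right).2 h2)
      exact this
    exact Nat.Coprime.eq_one_of_dvd h3 h1
  obtain ⟨b0, hb0, c1, c2, c3⟩ := crt3 hmo hlo hml 3 v w (by decide) hv hw
  have hD8 : Nat.Coprime 8 D := by
    have h2 : Nat.Coprime (2 ^ 3) D := Nat.Coprime.pow_left 3 ((Nat.coprime_two_left).2 hD)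
    exact h2
  have hcop : Nat.Coprime (8 * (m * l)) D :=
    Nat.Coprime.mul_left hD8 (Nat.Coprime.mul_left
      (Nat.Coprime.coprime_dvd_right hma hDa).symm (Nat.Coprime.coprime_dvd_right hlb hDb).symm)
  obtain ⟨e, he1, he2⟩ := Nat.chineseRemainder hcop b0 (D - 1)
  refine ⟨8 * (m * l) * D, e, by have := hD.pos; have := hmo.pos; have := hlo.pos; positivity, ?_,
    fun q hq => ?_⟩
  · refine Nat.Coprime.mul_right ?_ ?_
    · rw [Nat.Coprime, he1.gcd_eq]; exact hb0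
    · rw [Nat.Coprime, he2.gcd_eq]; exact pred_coprime hD.pos
  · have hq1 : q ≡ b0 [MOD 8 * (m * l)] := (hq.of_dvd (dvd_mul_right _ _)).trans he1
    have hq8 : q % 8 = 3 := (hq1.of_dvd (dvd_mul_right 8 _)).trans c1
    have hqm : q ≡ v [MOD m] :=
      (hq1.of_dvd ((dvd_mul_right m l).trans (dvd_mul_left _ 8))).trans c2
    have hql : q ≡ w [MOD l] :=
      (hq1.of_dvd ((dvd_mul_left l m).trans (dvd_mul_left _ 8))).trans c3
    exact ⟨by omega, hjv q hq8 hqm, hjw q hq8 hql,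
      dvd_succ hD.pos ((hq.of_dvd (dvd_mul_left _ _)).trans he2)⟩

/-- `-c` is a square if `q ≡ 3 (mod 4)` and `(c / q) = -1` -/
theorem neg_sq {q c : ℕ} [Fact q.Prime] (hq : q % 4 = 3) (h : jacobiSym c q = -1) :
    ∃ r : ZMod q, r * r = -(c : ZMod q) := by
  have h1 := pow_of_jac h
  have hq1 := (Fact.out : q.Prime).one_lt
  have hc0 : -(c : ZMod q) ≠ 0 := by
    intro h0
    rw [neg_eq_zero] at h0
    rw [h0, zero_pow (by omega)] at h1
    exact one_ne_zero (neg_eq_zero.1 h1.symm)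
  have h2 : (-(c : ZMod q)) ^ (q / 2) = 1 := by
    rw [neg_pow, h1, (Nat.odd_iff.2 (by omega) : Odd (q / 2)).neg_one_pow]
    ring
  obtain ⟨r, hr⟩ := (ZMod.euler_criterion q hc0).2 h2
  exact ⟨r, hr.symm⟩

/-- if `z + 2` and `z - 2` are squares modulo `q` and `d` is prime to `(q - 1) / 2`, then `0` is
periodic modulo `q` for `D_d(x + z, 1) - z` -/
theorem cheb_core {q : ℕ} [Fact q.Prime] (hq2 : 2 < q) (z : ℤ) {α β : ZMod q}
    (hα : α * α = (z : ZMod q) + 2) (hβ : β * β = (z : ZMod q) - 2) {d : ℕ}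
    (hcop : d.Coprime (q / 2)) :
    ∃ k : ℕ, 0 < k ∧
      (q : ℤ) ∣ (fun x : ℤ => ((dickson 1 (1 : ℤ) d).comp (X + C z) - C z : ℤ[X]).eval x)^[k] 0 := by
  have hq : q.Prime := Fact.out
  have hqo : q % 2 = 1 := by
    rcases hq.eq_two_or_odd with h | h
    · omega
    · exact h
  have h20 : (2 : ZMod q) ≠ 0 := by
    have h3 : ((2 : ℕ) : ZMod q) ≠ 0 := by
      rw [Ne, ZMod.natCast_eq_zero_iff]
      intro h
      have := Nat.le_of_dvd (by omega) h
      omega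
    exact_mod_cast h3
  set w : ZMod q := (α + β) / 2 with hw
  set w' : ZMod q := (α - β) / 2 with hw'
  have hww : w * w' = 1 := by
    rw [hw, hw']
    field_simp
    linear_combination hα - hβ
  have hsum : w ^ 2 + w' ^ 2 = (z : ZMod q) := by
    rw [hw, hw']
    field_simp
    linear_combination 2 * hα + 2 * hβ
  have hw0 : w ≠ 0 := fun h => by rw [h, zero_mul] at hww; exact zero_ne_one hww
  have huv : w ^ 2 * w' ^ 2 = 1 := by rw [← mul_pow, hww, one_pow]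
  have hpow : (w ^ 2) ^ (q / 2) = 1 := by
    rw [← pow_mul]
    have e : 2 * (q / 2) = q - 1 := by omega
    rw [e]
    exact ZMod.pow_card_sub_one_eq_one hw0
  have ho : orderOf (w ^ 2) ∣ q / 2 := orderOf_dvd_of_pow_eq_one hpow
  have hcop2 : d.Coprime (orderOf (w ^ 2)) := Nat.Coprime.coprime_dvd_right ho hcop
  have hopos : 0 < orderOf (w ^ 2) := Nat.pos_of_dvd_of_pos ho (by omega)
  refine ⟨(orderOf (w ^ 2)).totient, Nat.totient_pos.2 hopos, ?_⟩
  rw [iter_cheb, zero_add]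
  set k := (orderOf (w ^ 2)).totient
  have h2 := Nat.ModEq.pow_totient hcop2
  have h3 : (w ^ 2) ^ (d ^ k) = w ^ 2 := by
    have h4 : (w ^ 2) ^ (d ^ k) = (w ^ 2) ^ 1 := by
      rw [← pow_mod_orderOf (w ^ 2) (d ^ k), ← pow_mod_orderOf (w ^ 2) 1, h2]
    rwa [pow_one] at h4
  have h5 : (w' ^ 2) ^ (d ^ k) = w' ^ 2 := by
    have h6 : (w ^ 2) ^ (d ^ k) * (w' ^ 2) ^ (d ^ k) = 1 := by rw [← mul_pow, huv, one_pow]
    rw [h3] at h6
    have h7 : w ^ 2 ≠ 0 := pow_ne_zero 2 hw0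
    exact mul_left_cancel₀ h7 (h6.trans huv.symm)
  rw [← ZMod.intCast_zmod_eq_zero_iff_dvd]
  have h6 : ((((dickson 1 (1 : ℤ) (d ^ k)).eval z : ℤ)) : ZMod q) =
      (w ^ 2) ^ (d ^ k) + (w' ^ 2) ^ (d ^ k) := by
    have h7 := Polynomial.eval_intCast_map (Int.castRingHom (ZMod q))
      (dickson 1 (1 : ℤ) (d ^ k)) z
    rw [map_dickson] at h7
    have h8 : (Int.castRingHom (ZMod q)) 1 = w ^ 2 * w' ^ 2 := by rw [huv]; simp
    rw [h8, ← hsum, dickson_eval] at h7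
    exact h7.symm
  rw [Int.cast_sub, h6, h3, h5, hsum, sub_self]

theorem cheb2_zeroPeriodic (s d : ℕ) (hs : 3 ≤ s) (hd : 0 < d) (hp : ∀ t : ℕ, s + 2 ≠ t ^ 2)
    (hm : ∀ t : ℕ, s ≠ t ^ 2 + 2) (hcd : ∀ p : ℕ, p.Prime → p ∣ d → p ∣ s ^ 2 - 4 → p = 2) :
    ZeroPeriodic ((dickson 1 (1 : ℤ) d).comp (X - C (s : ℤ)) + C (s : ℤ)) := by
  obtain ⟨c, rfl⟩ : ∃ c, s = c + 2 := ⟨s - 2, by omega⟩
  have hc : 0 < c := by omega
  have hs4 : (c + 2) ^ 2 - 4 = c * (c + 4) := by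
    have : (c + 2) ^ 2 = c * (c + 4) + 4 := by ring
    omega
  rw [hs4] at hcd
  obtain ⟨k, D, hDo, hDd⟩ := Nat.exists_eq_two_pow_mul_odd hd.ne'
  have hdp : ∀ p : ℕ, p.Prime → p ∣ d → p = 2 ∨ p ∣ D := by
    intro p hp hpd
    rw [hDd] at hpd
    rcases (Nat.Prime.dvd_mul hp).1 hpd with h | h
    · exact Or.inl ((Nat.prime_dvd_prime_iff_eq hp Nat.prime_two).1 (hp.dvd_of_dvd_pow h))
    · exact Or.inr h
  have hDc : D.Coprime (c * (c + 4)) := by
    refine Nat.coprime_of_dvd fun p hp hpD hpc => ?_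
    have h1 := hcd p hp (hpD.trans ⟨2 ^ k, by rw [hDd]; ring⟩) hpc
    rw [h1] at hpD
    exact (Nat.not_even_iff_odd.2 hDo) (even_iff_two_dvd.2 hpD)
  obtain ⟨a, A, hA, ha⟩ := Nat.sq_mul_squarefree (c + 4)
  obtain ⟨b, B, hB, hb⟩ := Nat.sq_mul_squarefree c
  have hA0 : 0 < A := Nat.pos_of_ne_zero fun h => by rw [h] at hA; simp at hA
  have hB0 : 0 < B := Nat.pos_of_ne_zero fun h => by rw [h] at hB; simp at hB; omega
  have ha0 : 0 < a := Nat.pos_of_ne_zero fun h => by rw [h] at hA; simp at hA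
  have hb0 : 0 < b := Nat.pos_of_ne_zero fun h => by rw [h] at hB; simp at hB; omega
  have ha1 : 1 < a := by
    by_contra hlt
    have : a = 1 := by omega
    exact hp A (by rw [← mul_one (A ^ 2), ← this, hA])
  have hb1 : 1 < b := by
    by_contra hlt
    have : b = 1 := by omega
    exact hm B (by rw [← mul_one (B ^ 2), ← this, hB])
  have hac : a ∣ c + 4 := ⟨A ^ 2, by rw [← hA]; ring⟩
  have hbc : b ∣ c := ⟨B ^ 2, by rw [mul_comm, hB]⟩
  have hab : a.gcd b ∣ 4 := by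
    have h1 : a.gcd b ∣ c + 4 := (Nat.gcd_dvd_left a b).trans hac
    have h2 : a.gcd b ∣ c := (Nat.gcd_dvd_right a b).trans hbc
    exact (Nat.dvd_add_right h2).1 h1
  obtain ⟨M, e, hM, he, hq⟩ := class_two ha ha1 hb hb1 hab hDo
    (Nat.Coprime.coprime_dvd_right (hac.trans (dvd_mul_left _ _)) hDc)
    (Nat.Coprime.coprime_dvd_right (hbc.trans (dvd_mul_right _ _)) hDc)
  refine ⟨M, e, A + B + 2, hM, he, fun q hqp hqm hqb => ?_⟩
  have : Fact q.Prime := ⟨hqp⟩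
  obtain ⟨hq4, hja, hjb, hqD⟩ := hq q hqm
  rw [← jac_sqf hA hA0 (by omega)] at hja
  rw [← jac_sqf hB hB0 (by omega)] at hjb
  obtain ⟨β, hβ⟩ := neg_sq hq4 hja
  obtain ⟨α, hα⟩ := neg_sq hq4 hjb
  have hwo : Odd (q / 2) := Nat.odd_iff.2 (by omega)
  have hcore := cheb_core (q := q) (by omega) (-((c + 2 : ℕ) : ℤ)) (α := α) (β := β)
    (by rw [hα]; push_cast; ring) (by rw [hβ]; push_cast; ring)
    (cop_exp hwo hdp hqD ⟨2, by omega⟩ hqp.pos)
  rwa [map_neg, ← sub_eq_add_neg, sub_neg_eq_add] at hcore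

end Pool.Agent.PFO
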