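import Pool.Agent.PFO.Cheb2

/-!
# The polynomials `D_d(x - s, 1) + s`, the case that `s - 2` is a square
-/

set_option autoImplicit false

open Finset Polynomial

namespace Pool.Agent.PFO

/-- the class of `b` modulo `8 a`, if `(a / b) = -1`, together with the class of `1` modulo `D` -/
theorem class_one {a D b : ℕ} (h1 : 0 < a) (hD : Odd D) (hc : D.Coprime a) (hb : Odd b)
    (hj : jacobiSym a b = -1) :
    ∃ M e : ℕ, 0 < M ∧ e.Coprime M ∧ ∀ q, q ≡ e [MOD M] → q % 8 = b % 8 ∧ jacobiSym a q = -1 ∧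
      q ≡ 1 [MOD D] := by
  have hba : b.Coprime a := by
    by_contra hcon
    have h2 : jacobiSym a b = 0 := by
      refine jacobiSym.eq_zero_iff.2 ⟨hb.pos.ne', ?_⟩
      rw [Int.gcd_natCast_natCast, Nat.gcd_comm]
      exact hcon
    rw [h2] at hj
    exact absurd hj (by decide)
  have hD8 : Nat.Coprime 8 D := by
    have h2 : Nat.Coprime (2 ^ 3) D := Nat.Coprime.pow_left 3 ((Nat.coprime_two_left).2 hD)
    exact h2
  have hb8 : b.Coprime 8 := by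
    have h2 : b.Coprime (2 ^ 3) := Nat.Coprime.pow_right 3 ((Nat.coprime_two_right).2 hb)
    exact h2
  have hcop : Nat.Coprime (8 * a) D := Nat.Coprime.mul_left hD8 hc.symm
  obtain ⟨e, he1, he2⟩ := Nat.chineseRemainder hcop b 1
  refine ⟨8 * a * D, e, by have := hD.pos; positivity, ?_, fun q hq => ?_⟩
  · refine Nat.Coprime.mul_right ?_ ?_
    · rw [Nat.Coprime, he1.gcd_eq]
      exact Nat.Coprime.mul_right hb8 hba
    · rw [Nat.Coprime, he2.gcd_eq]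
      exact Nat.coprime_one_left D
  · have hq1 : q ≡ b [MOD 8 * a] := (hq.of_dvd (dvd_mul_right _ _)).trans he1
    have hq8 : q % 8 = b % 8 := hq1.of_dvd (dvd_mul_right 8 a)
    have hqo : Odd q := by
      have := Nat.odd_iff.1 hb
      exact Nat.odd_iff.2 (by omega)
    refine ⟨hq8, ?_, (hq.of_dvd (dvd_mul_left _ _)).trans he2⟩
    have hq4 : q ≡ b [MOD 4 * a] := hq1.of_dvd ⟨2, by ring⟩
    rw [jacobiSym.mod_right' a hqo, ← hj, jacobiSym.mod_right' a hb]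
    have h5 : q % (4 * a) = b % (4 * a) := hq4
    rw [h5]

/-- the orders are prime to the exponent -/
theorem cop_exp_one {d D w q : ℕ} (hw : Odd w)
    (hd : ∀ p : ℕ, p.Prime → p ∣ d → p = 2 ∨ p ∣ D) (hq : q ≡ 1 [MOD D]) (hwq : w ∣ q + 1)
    (hq0 : 0 < q) : d.Coprime w := by
  refine Nat.Coprime.symm (Nat.coprime_of_dvd fun p hp hpw hpd => ?_)
  have hp2 : p ≠ 2 := by
    rintro rfl
    exact (Nat.not_even_iff_odd.2 hw) (even_iff_two_dvd.2 hpw)
  rcases hd p hp hpd with h | h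
  · exact hp2 h
  · have h1 : p ∣ q + 1 := hpw.trans hwq
    have h2 : p ∣ q - 1 := (Nat.modEq_iff_dvd' (show 1 ≤ q from hq0)).1 (hq.of_dvd h).symm
    have h3 : p ∣ (q + 1) - (q - 1) := Nat.dvd_sub h1 h2
    have h4 : (q + 1) - (q - 1) = 2 := by omega
    rw [h4] at h3
    exact hp2 ((Nat.prime_dvd_prime_iff_eq hp Nat.prime_two).1 h3)

/-- if `z + 2` is a square modulo `q` and `z - 2` is not, and `d` is prime to the odd number
`(q + 1) / 2`, then `0` is periodic modulo `q` for `D_d(x + z, 1) - z` -/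
theorem cheb_core2_aux (K : Type) [Field K] {q : ℕ} [Fact q.Prime] [Algebra (ZMod q) K]
    [IsAlgClosed K] (hq2 : 2 < q) (z : ℤ) {α : ZMod q}
    (hα : α * α = (z : ZMod q) + 2) (hβ : ((z : ZMod q) - 2) ^ (q / 2) = -1) {d : ℕ}
    (hcop : d.Coprime ((q + 1) / 2)) :
    ∃ k : ℕ, 0 < k ∧
      (q : ℤ) ∣ (fun x : ℤ => ((dickson 1 (1 : ℤ) d).comp (X + C z) - C z : ℤ[X]).eval x)^[k] 0 := by
  have hq : q.Prime := Fact.out
  have hqo : q % 2 = 1 := by
    rcases hq.eq_two_or_odd with h | h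
    · omega
    · exact h
  have hK : CharP K q := charP_of_injective_algebraMap (algebraMap (ZMod q) K).injective q
  have h20' : (2 : ZMod q) ≠ 0 := by
    have h3 : ((2 : ℕ) : ZMod q) ≠ 0 := by
      rw [Ne, ZMod.natCast_eq_zero_iff]
      intro h
      have := Nat.le_of_dvd (by omega) h
      omega
    exact_mod_cast h3
  have h20 : (2 : K) ≠ 0 := by
    intro h
    apply h20'
    apply (algebraMap (ZMod q) K).injective
    rw [map_zero, map_ofNat]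
    exact h
  obtain ⟨A, hA⟩ : ∃ A : K, A = algebraMap (ZMod q) K α := ⟨_, rfl⟩
  obtain ⟨Z, hZ⟩ : ∃ Z : K, Z = algebraMap (ZMod q) K (z : ZMod q) := ⟨_, rfl⟩
  have hAA : A * A = Z + 2 := by
    rw [hA, hZ, ← map_mul, hα, map_add, map_ofNat]
  have hAq : A ^ q = A := by rw [hA, ← map_pow, ZMod.pow_card]
  obtain ⟨B, hB⟩ := IsAlgClosed.exists_pow_nat_eq (Z - 2) (n := 2) (by norm_num)
  have hBB : B * B = Z - 2 := by rw [← hB]; ring
  have hBq : B ^ q = -B := by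
    have h1 : (Z - 2) ^ (q / 2) = -1 := by
      have h2 := congrArg (algebraMap (ZMod q) K) hβ
      rw [map_pow, map_sub, ← hZ, map_neg, map_one, map_ofNat] at h2
      exact h2
    have h2 : q = 2 * (q / 2) + 1 := by omega
    calc B ^ q = (B ^ 2) ^ (q / 2) * B := by
          rw [← pow_mul, ← pow_succ, ← h2]
      _ = -B := by rw [hB, h1]; ring
  obtain ⟨w, hw⟩ : ∃ w : K, w = (A + B) / 2 := ⟨_, rfl⟩
  obtain ⟨w', hw'⟩ : ∃ w' : K, w' = (A - B) / 2 := ⟨_, rfl⟩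
  have hww : w * w' = 1 := by
    rw [hw, hw']
    field_simp
    linear_combination hAA - hBB
  have hsum : w ^ 2 + w' ^ 2 = Z := by
    rw [hw, hw']
    field_simp
    linear_combination 2 * hAA + 2 * hBB
  have hwq : w ^ q = w' := by
    have h1 : (2 : K) ^ q = 2 := by
      have h2 : (algebraMap (ZMod q) K) ((2 : ZMod q) ^ q) = algebraMap (ZMod q) K 2 := by
        rw [ZMod.pow_card]
      rw [map_pow, map_ofNat] at h2
      exact h2
    rw [hw, hw', div_pow, h1, add_pow_char, hAq, hBq, sub_eq_add_neg]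
  have huv : w ^ 2 * w' ^ 2 = 1 := by rw [← mul_pow, hww, one_pow]
  have hw0 : w ≠ 0 := fun h => by rw [h, zero_mul] at hww; exact zero_ne_one hww
  have hpow : (w ^ 2) ^ ((q + 1) / 2) = 1 := by
    rw [← pow_mul]
    have e : 2 * ((q + 1) / 2) = q + 1 := by omega
    rw [e, pow_succ, hwq, mul_comm, hww]
  have ho : orderOf (w ^ 2) ∣ (q + 1) / 2 := orderOf_dvd_of_pow_eq_one hpow
  have hcop2 : d.Coprime (orderOf (w ^ 2)) := Nat.Coprime.coprime_dvd_right ho hcop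
  have hopos : 0 < orderOf (w ^ 2) := Nat.pos_of_dvd_of_pos ho (by omega)
  refine ⟨(orderOf (w ^ 2)).totient, Nat.totient_pos.2 hopos, ?_⟩
  rw [iter_cheb, zero_add]
  set k := (orderOf (w ^ 2)).totient
  have h2 := Nat.ModEq.pow_totient hcop2
  have h3 : (w ^ 2) ^ (d ^ k) = w ^ 2 := by
    have h4 : (w ^ 2) ^ (d ^ k) = (w ^ 2) ^ 1 := by
      rw [← pow_mod_orderOf (w ^ 2) (d ^ k), ← pow_mod_orderOf (w ^ 2) 1, h2]
    rwa [pow_one] at h4
  have h5 : (w' ^ 2) ^ (d ^ k) = w' ^ 2 := by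
    have h6 : (w ^ 2) ^ (d ^ k) * (w' ^ 2) ^ (d ^ k) = 1 := by rw [← mul_pow, huv, one_pow]
    rw [h3] at h6
    have h7 : w ^ 2 ≠ 0 := pow_ne_zero 2 hw0
    exact mul_left_cancel₀ h7 (h6.trans huv.symm)
  have hZ' : ((z : ℤ) : K) = Z := by
    rw [hZ]
    simp
  have h6 : ((((dickson 1 (1 : ℤ) (d ^ k)).eval z : ℤ)) : K) =
      (w ^ 2) ^ (d ^ k) + (w' ^ 2) ^ (d ^ k) := by
    have h7 := Polynomial.eval_intCast_map (Int.castRingHom K)
      (dickson 1 (1 : ℤ) (d ^ k)) z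
    rw [map_dickson] at h7
    have h8 : (Int.castRingHom K) 1 = w ^ 2 * w' ^ 2 := by rw [huv]; simp
    rw [h8, hZ', ← hsum, dickson_eval] at h7
    exact h7.symm
  rw [← CharP.intCast_eq_zero_iff K q, Int.cast_sub, h6, h3, h5, hsum, hZ', sub_self]

theorem cheb_core2 {q : ℕ} [Fact q.Prime] (hq2 : 2 < q) (z : ℤ) {α : ZMod q}
    (hα : α * α = (z : ZMod q) + 2) (hβ : ((z : ZMod q) - 2) ^ (q / 2) = -1) {d : ℕ}
    (hcop : d.Coprime ((q + 1) / 2)) :
    ∃ k : ℕ, 0 < k ∧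
      (q : ℤ) ∣ (fun x : ℤ => ((dickson 1 (1 : ℤ) d).comp (X + C z) - C z : ℤ[X]).eval x)^[k] 0 :=
  cheb_core2_aux (AlgebraicClosure (ZMod q)) hq2 z hα hβ hcop

theorem cheb3_zeroPeriodic (s d : ℕ) (hs : 3 ≤ s) (hd : 0 < d) (hp : ∀ t : ℕ, s + 2 ≠ t ^ 2)
    (hcd : ∀ p : ℕ, p.Prime → p ∣ d → p ∣ s ^ 2 - 4 → p = 2) :
    ZeroPeriodic ((dickson 1 (1 : ℤ) d).comp (X - C (s : ℤ)) + C (s : ℤ)) := by
  by_cases hsq : ∃ t : ℕ, s = t ^ 2 + 2
  swap
  · exact cheb2_zeroPeriodic s d hs hd hp (fun t ht => hsq ⟨t, ht⟩) hcd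
  obtain ⟨t, rfl⟩ := hsq
  have ht0 : 0 < t := Nat.pos_of_ne_zero fun h => by rw [h] at hs; omega
  have hs4 : (t ^ 2 + 2) ^ 2 - 4 = t ^ 2 * (t ^ 2 + 4) := by
    have : (t ^ 2 + 2) ^ 2 = t ^ 2 * (t ^ 2 + 4) + 4 := by ring
    omega
  rw [hs4] at hcd
  obtain ⟨k, D, hDo, hDd⟩ := Nat.exists_eq_two_pow_mul_odd hd.ne'
  have hdp : ∀ p : ℕ, p.Prime → p ∣ d → p = 2 ∨ p ∣ D := by
    intro p hp hpd
    rw [hDd] at hpd
    rcases (Nat.Prime.dvd_mul hp).1 hpd with h | h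
    · exact Or.inl ((Nat.prime_dvd_prime_iff_eq hp Nat.prime_two).1 (hp.dvd_of_dvd_pow h))
    · exact Or.inr h
  have hDc : D.Coprime (t ^ 2 * (t ^ 2 + 4)) := by
    refine Nat.coprime_of_dvd fun p hp hpD hpc => ?_
    have h1 := hcd p hp (hpD.trans ⟨2 ^ k, by rw [hDd]; ring⟩) hpc
    rw [h1] at hpD
    exact (Nat.not_even_iff_odd.2 hDo) (even_iff_two_dvd.2 hpD)
  obtain ⟨a, A, hA, ha⟩ := Nat.sq_mul_squarefree (t ^ 2 + 4)
  have hA0 : 0 < A := Nat.pos_of_ne_zero fun h => by rw [h] at hA; simp at hA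
  have ha0 : 0 < a := Nat.pos_of_ne_zero fun h => by rw [h] at hA; simp at hA
  have ha1 : 1 < a := by
    by_contra hlt
    have : a = 1 := by omega
    exact hp A (by rw [← mul_one (A ^ 2), ← this, hA])
  have hac : a ∣ t ^ 2 + 4 := ⟨A ^ 2, by rw [← hA]; ring⟩
  obtain ⟨-, M0, e0, -, -, hq0⟩ := classes ha ha1
  obtain ⟨h08, h0j⟩ := hq0 e0 rfl
  obtain ⟨M, e, hM, he, hq⟩ := class_one ha0 hDo
    (Nat.Coprime.coprime_dvd_right (hac.trans (dvd_mul_left _ _)) hDc)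
    (Nat.odd_iff.2 (by omega)) h0j
  refine ⟨M, e, A + 2, hM, he, fun q hqp hqm hqb => ?_⟩
  have : Fact q.Prime := ⟨hqp⟩
  obtain ⟨hq8, hja, hqD⟩ := hq q hqm
  rw [h08] at hq8
  rw [← jac_sqf hA hA0 (by omega)] at hja
  have hpa := pow_of_jac hja
  obtain ⟨i, hi⟩ := ZMod.exists_sq_eq_neg_one_iff.2 (show q % 4 ≠ 3 by omega)
  have hwo : Odd ((q + 1) / 2) := Nat.odd_iff.2 (by omega)
  have hcore := cheb_core2 (q := q) (by omega) (-((t ^ 2 + 2 : ℕ) : ℤ)) (α := i * (t : ZMod q))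
    (by
      have : i * (t : ZMod q) * (i * (t : ZMod q)) = (i * i) * (t : ZMod q) ^ 2 := by ring
      rw [this, ← hi]
      push_cast
      ring)
    (by
      have h1 : (((-((t ^ 2 + 2 : ℕ) : ℤ) : ℤ)) : ZMod q) - 2 =
          -1 * (((t ^ 2 + 4 : ℕ)) : ZMod q) := by push_cast; ring
      rw [h1, mul_pow, hpa]
      have h2 : Even (q / 2) := Nat.even_iff.2 (by omega)
      rw [h2.neg_one_pow, one_mul])
    (cop_exp_one hwo hdp hqD ⟨2, by omega⟩ hqp.pos)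
  rwa [map_neg, ← sub_eq_add_neg, sub_neg_eq_add] at hcore

end Pool.Agent.PFO
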