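import Pool.Agent.PFO.Cheb3

/-!
# The polynomials `D_d(x - s, 1) + s`, the case that `s + 2` is a square
-/

set_option autoImplicit false

open Finset Polynomial

namespace Pool.Agent.PFO

/-- `0` is periodic modulo `q` if `z = v + 1 / v` with `v` of order prime to `d` -/
theorem cheb_core0 (K : Type) [Field K] {q : ℕ} [CharP K q] (z : ℤ) {v v' : K} (hv : v * v' = 1)
    (hz : v + v' = (z : K)) {d m : ℕ} (hm : 0 < m) (hpow : v ^ m = 1) (hcop : d.Coprime m) :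
    ∃ k : ℕ, 0 < k ∧
      (q : ℤ) ∣ (fun x : ℤ => ((dickson 1 (1 : ℤ) d).comp (X + C z) - C z : ℤ[X]).eval x)^[k] 0 := by
  have hv0 : v ≠ 0 := fun h => by rw [h, zero_mul] at hv; exact zero_ne_one hv
  have ho : orderOf v ∣ m := orderOf_dvd_of_pow_eq_one hpow
  have hcop2 : d.Coprime (orderOf v) := Nat.Coprime.coprime_dvd_right ho hcop
  have hopos : 0 < orderOf v := Nat.pos_of_dvd_of_pos ho hm
  refine ⟨(orderOf v).totient, Nat.totient_pos.2 hopos, ?_⟩
  rw [iter_cheb, zero_add]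
  set k := (orderOf v).totient
  have h2 := Nat.ModEq.pow_totient hcop2
  have h3 : v ^ (d ^ k) = v := by
    have h4 : v ^ (d ^ k) = v ^ 1 := by
      rw [← pow_mod_orderOf v (d ^ k), ← pow_mod_orderOf v 1, h2]
    rwa [pow_one] at h4
  have h5 : v' ^ (d ^ k) = v' := by
    have h6 : v ^ (d ^ k) * v' ^ (d ^ k) = 1 := by rw [← mul_pow, hv, one_pow]
    rw [h3] at h6
    exact mul_left_cancel₀ hv0 (h6.trans hv.symm)
  have h6 : ((((dickson 1 (1 : ℤ) (d ^ k)).eval z : ℤ)) : K) = v ^ (d ^ k) + v' ^ (d ^ k) := by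
    have h7 := Polynomial.eval_intCast_map (Int.castRingHom K)
      (dickson 1 (1 : ℤ) (d ^ k)) z
    rw [map_dickson] at h7
    have h8 : (Int.castRingHom K) 1 = v * v' := by rw [hv]; simp
    rw [h8, ← hz, dickson_eval] at h7
    exact h7.symm
  rw [← CharP.intCast_eq_zero_iff K q, Int.cast_sub, h6, h3, h5, hz, sub_self]

/-- the first case: `(t + 2 / q) = (t - 2 / q) = -1` and `q ≡ 5 (mod 8)` -/
theorem cheb_core3 {q : ℕ} [Fact q.Prime] (hq8 : q % 8 = 5) {t : ZMod q}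
    (h1 : (t + 2) ^ (q / 2) = -1) (h2 : (t - 2) ^ (q / 2) = -1) (z : ℤ)
    (hz : (z : ZMod q) = 2 - t ^ 2) {d : ℕ} (hcop : d.Coprime (q / 4)) :
    ∃ k : ℕ, 0 < k ∧
      (q : ℤ) ∣ (fun x : ℤ => ((dickson 1 (1 : ℤ) d).comp (X + C z) - C z : ℤ[X]).eval x)^[k] 0 := by
  have hq : q.Prime := Fact.out
  have h20 : (2 : ZMod q) ≠ 0 := by
    have h3 : ((2 : ℕ) : ZMod q) ≠ 0 := by
      rw [Ne, ZMod.natCast_eq_zero_iff]
      intro h
      have := Nat.le_of_dvd (by omega) h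
      omega
    exact_mod_cast h3
  have hne : (1 : ZMod q) ≠ 0 := one_ne_zero
  have ht2 : t + 2 ≠ 0 := by
    intro h0
    rw [h0, zero_pow (by omega)] at h1
    exact hne (neg_eq_zero.1 h1.symm)
  have htm : t - 2 ≠ 0 := by
    intro h0
    rw [h0, zero_pow (by omega)] at h2
    exact hne (neg_eq_zero.1 h2.symm)
  obtain ⟨δ, hδ⟩ := (ZMod.euler_criterion q (mul_ne_zero ht2 htm)).2 (by
    rw [mul_pow, h1, h2]; ring)
  obtain ⟨u, hu⟩ : ∃ u : ZMod q, u = (t + δ) / 2 := ⟨_, rfl⟩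
  obtain ⟨u', hu'⟩ : ∃ u' : ZMod q, u' = (t - δ) / 2 := ⟨_, rfl⟩
  have huu : u * u' = 1 := by
    rw [hu, hu']
    field_simp
    linear_combination hδ
  have hsum : u + u' = t := by
    rw [hu, hu']
    field_simp
    ring
  have hu1 : (u + 1) ^ 2 = u * (t + 2) := by
    rw [← hsum]
    linear_combination -huu
  have hu0 : u ≠ 0 := fun h => by rw [h, zero_mul] at huu; exact hne huu.symm
  have hu10 : u + 1 ≠ 0 := by
    intro h0
    rw [h0] at hu1
    rcases mul_eq_zero.1 (hu1.symm.trans (by ring)) with h | h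
    · exact hu0 h
    · exact ht2 h
  have hupow : u ^ (q / 2) = -1 := by
    have h3 : ((u + 1) ^ 2) ^ (q / 2) = 1 := by
      rw [← pow_mul]
      have e : 2 * (q / 2) = q - 1 := by omega
      rw [e]
      exact ZMod.pow_card_sub_one_eq_one hu10
    rw [hu1, mul_pow, h1] at h3
    linear_combination -h3
  have hodd : Odd (q / 4) := Nat.odd_iff.2 (by omega)
  refine cheb_core0 (ZMod q) (q := q) z (v := -u ^ 2) (v' := -u' ^ 2) ?_ ?_ (m := q / 4) (by omega)
    ?_ hcop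
  · have : -u ^ 2 * -u' ^ 2 = (u * u') ^ 2 := by ring
    rw [this, huu, one_pow]
  · rw [hz, ← hsum]
    linear_combination 2 * huu
  · have e : 2 * (q / 4) = q / 2 := by omega
    rw [neg_pow, hodd.neg_one_pow, ← pow_mul, e, hupow]
    ring

/-- the second case: `(t + 2 / q) = -1`, `(t - 2 / q) = 1` and `q ≡ 3 (mod 8)` -/
theorem cheb_core4_aux (K : Type) [Field K] {q : ℕ} [Fact q.Prime] [Algebra (ZMod q) K]
    [IsAlgClosed K] (hq8 : q % 8 = 3) {t : ZMod q}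
    (h1 : (t + 2) ^ (q / 2) = -1) (h2 : (t - 2) ^ (q / 2) = 1) (z : ℤ)
    (hz : (z : ZMod q) = 2 - t ^ 2) {d : ℕ} (hcop : d.Coprime ((q + 1) / 4)) :
    ∃ k : ℕ, 0 < k ∧
      (q : ℤ) ∣ (fun x : ℤ => ((dickson 1 (1 : ℤ) d).comp (X + C z) - C z : ℤ[X]).eval x)^[k] 0 := by
  have hq : q.Prime := Fact.out
  have hK : CharP K q := charP_of_injective_algebraMap (algebraMap (ZMod q) K).injective q
  have h20' : (2 : ZMod q) ≠ 0 := by
    have h3 : ((2 : ℕ) : ZMod q) ≠ 0 := by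
      rw [Ne, ZMod.natCast_eq_zero_iff]
      intro h
      have := Nat.le_of_dvd (by omega) h
      omega
    exact_mod_cast h3
  have h20 : (2 : K) ≠ 0 := by
    intro h
    apply h20'
    apply (algebraMap (ZMod q) K).injective
    rw [map_zero, map_ofNat]
    exact h
  obtain ⟨T, hT⟩ : ∃ T : K, T = algebraMap (ZMod q) K t := ⟨_, rfl⟩
  have hTq : T ^ q = T := by rw [hT, ← map_pow, ZMod.pow_card]
  have h1K : (T + 2) ^ (q / 2) = -1 := by
    have h3 := congrArg (algebraMap (ZMod q) K) h1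
    rw [map_pow, map_add, ← hT, map_neg, map_one, map_ofNat] at h3
    exact h3
  have h2K : (T - 2) ^ (q / 2) = 1 := by
    have h3 := congrArg (algebraMap (ZMod q) K) h2
    rw [map_pow, map_sub, ← hT, map_one, map_ofNat] at h3
    exact h3
  have hne : (1 : K) ≠ 0 := one_ne_zero
  have ht2 : T + 2 ≠ 0 := by
    intro h0
    rw [h0, zero_pow (by omega)] at h1K
    exact hne (neg_eq_zero.1 h1K.symm)
  obtain ⟨δ, hδ⟩ := IsAlgClosed.exists_pow_nat_eq ((T + 2) * (T - 2)) (n := 2) (by norm_num)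
  have hδq : δ ^ q = -δ := by
    have h3 : q = 2 * (q / 2) + 1 := by omega
    calc δ ^ q = (δ ^ 2) ^ (q / 2) * δ := by rw [← pow_mul, ← pow_succ, ← h3]
      _ = -δ := by rw [hδ, mul_pow, h1K, h2K]; ring
  obtain ⟨u, hu⟩ : ∃ u : K, u = (T + δ) / 2 := ⟨_, rfl⟩
  obtain ⟨u', hu'⟩ : ∃ u' : K, u' = (T - δ) / 2 := ⟨_, rfl⟩
  have huu : u * u' = 1 := by
    rw [hu, hu']
    field_simp
    linear_combination -hδ
  have hsum : u + u' = T := by
    rw [hu, hu']
    field_simp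
    ring
  have huq : u ^ q = u' := by
    have h3 : (2 : K) ^ q = 2 := by
      have h4 : (algebraMap (ZMod q) K) ((2 : ZMod q) ^ q) = algebraMap (ZMod q) K 2 := by
        rw [ZMod.pow_card]
      rw [map_pow, map_ofNat] at h4
      exact h4
    rw [hu, hu', div_pow, h3, add_pow_char, hTq, hδq, sub_eq_add_neg]
  have hu1 : (u + 1) ^ 2 = u * (T + 2) := by
    rw [← hsum]
    linear_combination -huu
  have hupow : u ^ ((q + 1) / 2) = -1 := by
    have h3 : ((u + 1) ^ 2) ^ ((q + 1) / 2) = T + 2 := by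
      rw [← pow_mul]
      have e : 2 * ((q + 1) / 2) = q + 1 := by omega
      rw [e, pow_succ, add_pow_char, one_pow, huq, ← hsum]
      linear_combination huu
    have h4 : (T + 2) ^ ((q + 1) / 2) = -(T + 2) := by
      have e : (q + 1) / 2 = q / 2 + 1 := by omega
      rw [e, pow_succ, h1K]
      ring
    rw [hu1, mul_pow, h4] at h3
    have h5 : (u ^ ((q + 1) / 2) + 1) * (T + 2) = 0 := by linear_combination -h3
    rcases mul_eq_zero.1 h5 with h | h
    · exact eq_neg_of_add_eq_zero_left h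
    · exact absurd h ht2
  have hodd : Odd ((q + 1) / 4) := Nat.odd_iff.2 (by omega)
  refine cheb_core0 K (q := q) z (v := -u ^ 2) (v' := -u' ^ 2) ?_ ?_ (m := (q + 1) / 4)
    (by omega) ?_ hcop
  · have : -u ^ 2 * -u' ^ 2 = (u * u') ^ 2 := by ring
    rw [this, huu, one_pow]
  · have hzK : ((z : ℤ) : K) = 2 - T ^ 2 := by
      have h3 := congrArg (algebraMap (ZMod q) K) hz
      rw [map_intCast, map_sub, map_pow, ← hT, map_ofNat] at h3
      exact h3
    rw [hzK, ← hsum]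
    linear_combination 2 * huu
  · have e : 2 * ((q + 1) / 4) = (q + 1) / 2 := by omega
    rw [neg_pow, hodd.neg_one_pow, ← pow_mul, e, hupow]
    ring

theorem cheb_core4 {q : ℕ} [Fact q.Prime] (hq8 : q % 8 = 3) {t : ZMod q}
    (h1 : (t + 2) ^ (q / 2) = -1) (h2 : (t - 2) ^ (q / 2) = 1) (z : ℤ)
    (hz : (z : ZMod q) = 2 - t ^ 2) {d : ℕ} (hcop : d.Coprime ((q + 1) / 4)) :
    ∃ k : ℕ, 0 < k ∧
      (q : ℤ) ∣ (fun x : ℤ => ((dickson 1 (1 : ℤ) d).comp (X + C z) - C z : ℤ[X]).eval x)^[k] 0 :=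
  cheb_core4_aux (AlgebraicClosure (ZMod q)) hq8 h1 h2 z hz hcop

/-- a class modulo the odd part of `a` such that `(a / q) = -1` for all `q ≡ 5 (mod 8)` in it -/
theorem sol_five {a : ℕ} (ha : Squarefree a) (h1 : 1 < a) :
    ∃ m v : ℕ, Odd m ∧ m ∣ a ∧ v.Coprime m ∧
      ∀ q : ℕ, q % 8 = 5 → q ≡ v [MOD m] → jacobiSym a q = -1 := by
  rcases Nat.even_or_odd a with hev | hod
  · obtain ⟨m, hm⟩ := hev.two_dvd
    have hmo : Odd m := by
      rw [← Nat.not_even_iff_odd]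
      intro he
      obtain ⟨t, ht⟩ := he.two_dvd
      have h2 := ha 2 ⟨t, by rw [hm, ht]; ring⟩
      exact absurd (Nat.isUnit_iff.1 h2) (by decide)
    have e : (a : ℤ) = 2 * (m : ℤ) := by rw [hm]; push_cast; ring
    refine ⟨m, 1, hmo, ⟨2, by rw [hm]; ring⟩, Nat.coprime_one_left m, fun q hq8 hqm => ?_⟩
    rw [e, jacobiSym.mul_left, jac_two (Or.inr hq8), jac_one hmo (by omega) hqm, mul_one]
  · obtain ⟨l, hl, m, hm⟩ := Nat.exists_prime_and_dvd (show a ≠ 1 by omega)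
    have : Fact l.Prime := ⟨hl⟩
    have hlo : Odd l := Odd.of_dvd_nat hod ⟨m, hm⟩
    have hmo : Odd m := Odd.of_dvd_nat hod ⟨l, by rw [hm, mul_comm]⟩
    have hml : m.Coprime l := by
      rw [Nat.coprime_comm, Nat.Prime.coprime_iff_not_dvd hl]
      rintro ⟨t, ht⟩
      have h2 := ha l ⟨t, by rw [hm, ht]; ring⟩
      exact hl.ne_one (Nat.isUnit_iff.1 h2)
    have e : (a : ℤ) = (l : ℤ) * (m : ℤ) := by rw [hm]; push_cast; ring
    obtain ⟨z, hz, hzl⟩ := exists_non hlo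
    obtain ⟨v, hv1, hv2⟩ := Nat.chineseRemainder hml 1 z
    refine ⟨m * l, v, hmo.mul hlo, ⟨1, by rw [hm]; ring⟩, ?_, fun q hq8 hqv => ?_⟩
    · refine Nat.Coprime.mul_right ?_ ?_
      · rw [Nat.Coprime, hv1.gcd_eq]; exact Nat.coprime_one_left m
      · rw [Nat.Coprime, hv2.gcd_eq]; exact hz
    · have hqm : q ≡ 1 [MOD m] := (hqv.of_dvd (dvd_mul_right m l)).trans hv1
      have hql : q ≡ z [MOD l] := (hqv.of_dvd (dvd_mul_left l m)).trans hv2
      rw [e, jacobiSym.mul_left, jac_one hmo (by omega) hqm,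
        jacobiSym.quadratic_reciprocity_one_mod_four' hlo (by omega), jac_class hql, hzl, mul_one]

/-- a residue class with two characters equal to `-1` -/
theorem class_two5 {a b D : ℕ} (ha : Squarefree a) (ha1 : 1 < a) (hb : Squarefree b) (hb1 : 1 < b)
    (hab : a.gcd b ∣ 4) (hD : Odd D) (hDa : D.Coprime a) (hDb : D.Coprime b) :
    ∃ M e : ℕ, 0 < M ∧ e.Coprime M ∧ ∀ q, q ≡ e [MOD M] → q % 8 = 5 ∧ jacobiSym a q = -1 ∧
      jacobiSym b q = -1 ∧ D ∣ q + 1 := by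
  obtain ⟨m, v, hmo, hma, hv, hjv⟩ := sol_five ha ha1
  obtain ⟨l, w, hlo, hlb, hw, hjw⟩ := sol_five hb hb1
  have hml : m.Coprime l := by
    have h1 : m.gcd l ∣ 4 := (Nat.dvd_gcd ((Nat.gcd_dvd_left m l).trans hma)
      ((Nat.gcd_dvd_right m l).trans hlb)).trans hab
    have h2 : Odd (m.gcd l) := Odd.of_dvd_nat hmo (Nat.gcd_dvd_left m l)
    have h3 : (m.gcd l).Coprime 4 := by
      have : (m.gcd l).Coprime (2 ^ 2) := Nat.Coprime.pow_right 2 ((Nat.coprime_two_right).2 h2)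
      exact this
    exact Nat.Coprime.eq_one_of_dvd h3 h1
  obtain ⟨b0, hb0, c1, c2, c3⟩ := crt3 hmo hlo hml 5 v w (by decide) hv hw
  have hD8 : Nat.Coprime 8 D := by
    have h2 : Nat.Coprime (2 ^ 3) D := Nat.Coprime.pow_left 3 ((Nat.coprime_two_left).2 hD)
    exact h2
  have hcop : Nat.Coprime (8 * (m * l)) D :=
    Nat.Coprime.mul_left hD8 (Nat.Coprime.mul_left
      (Nat.Coprime.coprime_dvd_right hma hDa).symm (Nat.Coprime.coprime_dvd_right hlb hDb).symm)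
  obtain ⟨e, he1, he2⟩ := Nat.chineseRemainder hcop b0 (D - 1)
  refine ⟨8 * (m * l) * D, e, by have := hD.pos; have := hmo.pos; have := hlo.pos; positivity, ?_,
    fun q hq => ?_⟩
  · refine Nat.Coprime.mul_right ?_ ?_
    · rw [Nat.Coprime, he1.gcd_eq]; exact hb0
    · rw [Nat.Coprime, he2.gcd_eq]; exact pred_coprime hD.pos
  · have hq1 : q ≡ b0 [MOD 8 * (m * l)] := (hq.of_dvd (dvd_mul_right _ _)).trans he1
    have hq8 : q % 8 = 5 := (hq1.of_dvd (dvd_mul_right 8 _)).trans c1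
    have hqm : q ≡ v [MOD m] :=
      (hq1.of_dvd ((dvd_mul_right m l).trans (dvd_mul_left _ 8))).trans c2
    have hql : q ≡ w [MOD l] :=
      (hq1.of_dvd ((dvd_mul_left l m).trans (dvd_mul_left _ 8))).trans c3
    exact ⟨hq8, hjv q hq8 hqm, hjw q hq8 hql,
      dvd_succ hD.pos ((hq.of_dvd (dvd_mul_left _ _)).trans he2)⟩

/-- all `s ≥ 3` which are not of the form `(r ^ 2 - 2) ^ 2 - 2` -/
theorem cheb4_zeroPeriodic (s d : ℕ) (hs : 3 ≤ s) (hd : 0 < d)
    (hr : ∀ r t : ℕ, t + 2 = r ^ 2 → s + 2 ≠ t ^ 2)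
    (hcd : ∀ p : ℕ, p.Prime → p ∣ d → p ∣ s ^ 2 - 4 → p = 2) :
    ZeroPeriodic ((dickson 1 (1 : ℤ) d).comp (X - C (s : ℤ)) + C (s : ℤ)) := by
  by_cases hsq : ∃ t : ℕ, s + 2 = t ^ 2
  swap
  · exact cheb3_zeroPeriodic s d hs hd (fun t ht => hsq ⟨t, ht⟩) hcd
  obtain ⟨t0, ht0⟩ := hsq
  have ht2 : 2 < t0 := by
    by_contra hlt
    have h1 : t0 ^ 2 ≤ 2 ^ 2 := Nat.pow_le_pow_left (by omega) 2
    omega
  obtain ⟨c, rfl⟩ : ∃ c, t0 = c + 2 := ⟨t0 - 2, by omega⟩
  have hc : 0 < c := by omega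
  have hs' : s = (c + 2) ^ 2 - 2 := by omega
  have hs4 : s ^ 2 - 4 = (c + 2) ^ 2 * (c * (c + 4)) := by
    have h1 : (c + 2) ^ 2 = c * (c + 4) + 4 := by ring
    have h2 : s = c * (c + 4) + 2 := by omega
    have h3 : s ^ 2 = (c + 2) ^ 2 * (c * (c + 4)) + 4 := by
      rw [h2]
      ring
    omega
  rw [hs4] at hcd
  obtain ⟨k, D, hDo, hDd⟩ := Nat.exists_eq_two_pow_mul_odd hd.ne'
  have hdp : ∀ p : ℕ, p.Prime → p ∣ d → p = 2 ∨ p ∣ D := by
    intro p hp hpd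
    rw [hDd] at hpd
    rcases (Nat.Prime.dvd_mul hp).1 hpd with h | h
    · exact Or.inl ((Nat.prime_dvd_prime_iff_eq hp Nat.prime_two).1 (hp.dvd_of_dvd_pow h))
    · exact Or.inr h
  have hDc : D.Coprime (c * (c + 4)) := by
    refine Nat.coprime_of_dvd fun p hp hpD hpc => ?_
    have h1 := hcd p hp (hpD.trans ⟨2 ^ k, by rw [hDd]; ring⟩) (hpc.trans (dvd_mul_left _ _))
    rw [h1] at hpD
    exact (Nat.not_even_iff_odd.2 hDo) (even_iff_two_dvd.2 hpD)
  obtain ⟨a, A, hA, ha⟩ := Nat.sq_mul_squarefree (c + 4)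
  obtain ⟨b, B, hB, hb⟩ := Nat.sq_mul_squarefree c
  have hA0 : 0 < A := Nat.pos_of_ne_zero fun h => by rw [h] at hA; simp at hA
  have hB0 : 0 < B := Nat.pos_of_ne_zero fun h => by rw [h] at hB; simp at hB; omega
  have ha0 : 0 < a := Nat.pos_of_ne_zero fun h => by rw [h] at hA; simp at hA
  have hb0 : 0 < b := Nat.pos_of_ne_zero fun h => by rw [h] at hB; simp at hB; omega
  have ha1 : 1 < a := by
    by_contra hlt
    have : a = 1 := by omega
    refine hr A (c + 2) ?_ ht0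
    rw [← mul_one (A ^ 2), ← this, hA]
  have hac : a ∣ c + 4 := ⟨A ^ 2, by rw [← hA]; ring⟩
  have hbc : b ∣ c := ⟨B ^ 2, by rw [mul_comm, hB]⟩
  have hDa : D.Coprime a := Nat.Coprime.coprime_dvd_right (hac.trans (dvd_mul_left _ _)) hDc
  have hDb : D.Coprime b := Nat.Coprime.coprime_dvd_right (hbc.trans (dvd_mul_right _ _)) hDc
  have hzq : ∀ q : ℕ, (((-(s : ℤ) : ℤ)) : ZMod q) = 2 - (((c + 2 : ℕ)) : ZMod q) ^ 2 := by
    intro q
    have h1 : (((s + 2 : ℕ)) : ZMod q) = (((c + 2) ^ 2 : ℕ) : ZMod q) := by rw [ht0]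
    push_cast at h1 ⊢
    linear_combination -h1
  by_cases hb1 : b = 1
  · -- `c` is a square
    obtain ⟨m, v, hmo, hma, hv, hjv⟩ := sol_three ha ha1
    obtain ⟨e0, -, c1, c2, -⟩ := crt3 (l := 1) hmo odd_one (Nat.coprime_one_right m) 3 v 0
      (by decide) hv (by decide)
    have h08 : e0 % 8 = 3 := c1
    have h0j := hjv e0 h08 c2
    obtain ⟨M, e, hM, he, hq⟩ := class_one ha0 hDo hDa (Nat.odd_iff.2 (by omega)) h0j
    refine ⟨M, e, A + B + 2, hM, he, fun q hqp hqm hqb => ?_⟩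
    have : Fact q.Prime := ⟨hqp⟩
    obtain ⟨hq8, hja, hqD⟩ := hq q hqm
    rw [h08] at hq8
    rw [← jac_sqf hA hA0 (by omega)] at hja
    have hpa := pow_of_jac hja
    have hwo : Odd ((q + 1) / 4) := Nat.odd_iff.2 (by omega)
    have hBq : (B : ZMod q) ≠ 0 := by
      rw [Ne, ZMod.natCast_eq_zero_iff]
      intro h
      have := Nat.le_of_dvd hB0 h
      omega
    have hcB : ((c : ℕ) : ZMod q) = (B : ZMod q) ^ 2 := by
      rw [← hB, hb1]
      push_cast
      ring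
    have hcore := cheb_core4 (q := q) hq8 (t := (((c + 2 : ℕ)) : ZMod q))
      (by
        have h1 : (((c + 2 : ℕ)) : ZMod q) + 2 = (((c + 4 : ℕ)) : ZMod q) := by push_cast; ring
        rw [h1, hpa])
      (by
        have h1 : (((c + 2 : ℕ)) : ZMod q) - 2 = ((c : ℕ) : ZMod q) := by push_cast; ring
        rw [h1, hcB, ← pow_mul]
        have e : 2 * (q / 2) = q - 1 := by omega
        rw [e]
        exact ZMod.pow_card_sub_one_eq_one hBq)
      (-(s : ℤ)) (hzq q) (cop_exp_one hwo hdp hqD ⟨4, by omega⟩ hqp.pos)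
    rwa [map_neg, ← sub_eq_add_neg, sub_neg_eq_add] at hcore
  · have hab : a.gcd b ∣ 4 := by
      have h1 : a.gcd b ∣ c + 4 := (Nat.gcd_dvd_left a b).trans hac
      have h2 : a.gcd b ∣ c := (Nat.gcd_dvd_right a b).trans hbc
      exact (Nat.dvd_add_right h2).1 h1
    obtain ⟨M, e, hM, he, hq⟩ := class_two5 ha ha1 hb (by omega) hab hDo hDa hDb
    refine ⟨M, e, A + B + 2, hM, he, fun q hqp hqm hqb => ?_⟩
    have : Fact q.Prime := ⟨hqp⟩
    obtain ⟨hq8, hja, hjb, hqD⟩ := hq q hqm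
    rw [← jac_sqf hA hA0 (by omega)] at hja
    rw [← jac_sqf hB hB0 (by omega)] at hjb
    have hpa := pow_of_jac hja
    have hpb := pow_of_jac hjb
    have hwo : Odd (q / 4) := Nat.odd_iff.2 (by omega)
    have hcore := cheb_core3 (q := q) hq8 (t := (((c + 2 : ℕ)) : ZMod q))
      (by
        have h1 : (((c + 2 : ℕ)) : ZMod q) + 2 = (((c + 4 : ℕ)) : ZMod q) := by push_cast; ring
        rw [h1, hpa])
      (by
        have h1 : (((c + 2 : ℕ)) : ZMod q) - 2 = ((c : ℕ) : ZMod q) := by push_cast; ring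
        rw [h1, hpb])
      (-(s : ℤ)) (hzq q) (cop_exp hwo hdp hqD ⟨4, by omega⟩ hqp.pos)
    rwa [map_neg, ← sub_eq_add_neg, sub_neg_eq_add] at hcore

end Pool.Agent.PFO
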