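import Mathlib

/-!
# Orbits of integer polynomials without primes: tools

`a k = f^k(0)`. If `f` has no linear term then the exact power of a prime `p` in `a k` is the same
for all `k ≥ 1` with `p ∣ a k`; since the `a k` grow fast, every `a k` with `k ≥ 3` has a prime
divisor that divides no earlier `a i`, `i ≥ 1`. These primes and a covering system with least
modulus 3 give the starting points.
-/

set_option autoImplicit false

open Polynomial Finset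

namespace Pool.Agent.PFO

/-- the map of the polynomial -/
abbrev mp (f : ℤ[X]) : ℤ → ℤ := fun x => f.eval x

theorem sub_dvd (f : ℤ[X]) (n : ℕ) (x y : ℤ) : x - y ∣ (mp f)^[n] x - (mp f)^[n] y := by
  induction n with
  | zero => simp
  | succ n ih =>
    rw [Function.iterate_succ_apply', Function.iterate_succ_apply']
    exact ih.trans (Polynomial.sub_dvd_eval_sub _ _ _)

theorem iter_add (f : ℤ[X]) (m n : ℕ) (x : ℤ) :
    (mp f)^[m] ((mp f)^[n] x) = (mp f)^[m + n] x := by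
  rw [Function.iterate_add_apply]

/-- if `q ∣ a r` then `q ∣ a (r j)` -/
theorem dvd_mul_index (f : ℤ[X]) {q : ℤ} {r : ℕ} (h : q ∣ (mp f)^[r] 0) (j : ℕ) :
    q ∣ (mp f)^[r * j] 0 := by
  induction j with
  | zero => simp
  | succ j ih =>
    have h1 := sub_dvd f r ((mp f)^[r * j] 0) 0
    rw [sub_zero, iter_add] at h1
    have h2 := ih.trans h1
    have h3 := dvd_add h2 h
    rw [sub_add_cancel] at h3
    have e : r * (j + 1) = r + r * j := by ring
    rw [e]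
    exact h3

/-- `q ∣ a (s + r j)` iff `q ∣ a s`, if `q ∣ a r` -/
theorem dvd_shift (f : ℤ[X]) {q : ℤ} {r : ℕ} (h : q ∣ (mp f)^[r] 0) (s j : ℕ)
    (h2 : q ∣ (mp f)^[s + r * j] 0) : q ∣ (mp f)^[s] 0 := by
  have h1 := sub_dvd f s ((mp f)^[r * j] 0) 0
  rw [sub_zero, iter_add] at h1
  have h3 := (dvd_mul_index f h j).trans h1
  have h4 := dvd_sub h2 h3
  rwa [sub_sub_cancel] at h4

/-- the least `r ≥ 1` with `q ∣ a r` divides all `k` with `q ∣ a k` -/
theorem period_dvd (f : ℤ[X]) {q : ℤ} {r k : ℕ} (hr : 0 < r) (h : q ∣ (mp f)^[r] 0)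
    (hmin : ∀ i, 0 < i → i < r → ¬ q ∣ (mp f)^[i] 0) (hk : q ∣ (mp f)^[k] 0) : r ∣ k := by
  rw [Nat.dvd_iff_mod_eq_zero]
  by_contra hne
  have h1 : k % r + r * (k / r) = k := Nat.mod_add_div k r
  rw [← h1] at hk
  exact hmin _ (Nat.pos_of_ne_zero hne) (Nat.mod_lt _ hr) (dvd_shift f h _ _ hk)

theorem sq_dvd (f : ℤ[X]) (h1 : f.coeff 1 = 0) (x : ℤ) : x ^ 2 ∣ f.eval x - f.eval 0 := by
  have e : f = f.divX.divX * X ^ 2 + C (f.coeff 0) := by
    conv_lhs => rw [← divX_mul_X_add f, ← divX_mul_X_add f.divX]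
    have : f.divX.coeff 0 = 0 := by rw [coeff_divX]; simpa using h1
    rw [this, map_zero, add_zero]
    ring
  rw [e]
  simp

theorem sq_dvd_iter (f : ℤ[X]) (h1 : f.coeff 1 = 0) {r : ℕ} (hr : 0 < r) (x : ℤ) :
    x ^ 2 ∣ (mp f)^[r] x - (mp f)^[r] 0 := by
  obtain ⟨s, rfl⟩ : ∃ s, r = s + 1 := ⟨r - 1, by omega⟩
  rw [Function.iterate_succ_apply, Function.iterate_succ_apply]
  exact (sq_dvd f h1 x).trans (sub_dvd f s _ _)

/-- rigidity -/
theorem rigid (f : ℤ[X]) (h1 : f.coeff 1 = 0) {r v : ℕ} {p : ℤ} (hr : 0 < r) (hv : 0 < v)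
    (h : p ^ v ∣ (mp f)^[r] 0) (j : ℕ) :
    p ^ (v + 1) ∣ (mp f)^[r * (j + 1)] 0 - (mp f)^[r] 0 := by
  induction j with
  | zero => simp
  | succ j ih =>
    have h2 : p ^ v ∣ (mp f)^[r * (j + 1)] 0 := by
      have h3 := ((pow_dvd_pow p (Nat.le_succ v)).trans ih).add h
      rwa [sub_add_cancel] at h3
    have h3 := sq_dvd_iter f h1 hr ((mp f)^[r * (j + 1)] 0)
    rw [iter_add] at h3
    have e : r * (j + 1 + 1) = r + r * (j + 1) := by ring
    rw [e]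
    refine dvd_trans ?_ h3
    have h4 : p ^ (v * 2) ∣ ((mp f)^[r * (j + 1)] 0) ^ 2 := by
      rw [pow_mul]
      exact pow_dvd_pow_of_dvd h2 2
    exact (pow_dvd_pow p (by omega)).trans h4

/-- a prime power in `a k` occurs already in an earlier term, if the prime does -/
theorem pow_dvd_earlier (f : ℤ[X]) (h1 : f.coeff 1 = 0) {k e : ℕ} {p : ℤ} (hk : 0 < k)
    (he : p ^ e ∣ (mp f)^[k] 0) (hex : ∃ i, 0 < i ∧ i < k ∧ p ∣ (mp f)^[i] 0) :
    ∃ i, 0 < i ∧ i < k ∧ p ^ e ∣ (mp f)^[i] 0 := by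
  classical
  rcases Nat.eq_zero_or_pos e with rfl | hepos
  · obtain ⟨i, hi, hik, -⟩ := hex
    exact ⟨i, hi, hik, by simp⟩
  have hP : ∃ i, 0 < i ∧ p ∣ (mp f)^[i] 0 := by
    obtain ⟨i, hi, -, h⟩ := hex
    exact ⟨i, hi, h⟩
  set r := Nat.find hP with hrdef
  obtain ⟨hr, hpr⟩ := Nat.find_spec hP
  have hrk : r < k := by
    obtain ⟨i, hi, hik, h⟩ := hex
    exact lt_of_le_of_lt (Nat.find_min' hP ⟨hi, h⟩) hik
  have hmin : ∀ i, 0 < i → i < r → ¬ p ∣ (mp f)^[i] 0 := fun i hi hir h =>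
    Nat.find_min hP hir ⟨hi, h⟩
  have hpk : p ∣ (mp f)^[k] 0 := (dvd_pow_self p (by omega)).trans he
  obtain ⟨j, hj⟩ := period_dvd f hr hpr hmin hpk
  refine ⟨r, hr, hrk, ?_⟩
  by_contra hcon
  have hjpos : 0 < j := by
    rcases Nat.eq_zero_or_pos j with rfl | h
    · omega
    · exact h
  obtain ⟨j', rfl⟩ : ∃ j', j = j' + 1 := ⟨j - 1, by omega⟩
  -- the largest exponent
  have hex2 : ∃ v, ¬ p ^ v ∣ (mp f)^[r] 0 := ⟨e, hcon⟩
  set w := Nat.find hex2 with hw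
  have hw1 : ¬ p ^ w ∣ (mp f)^[r] 0 := Nat.find_spec hex2
  have hwe : w ≤ e := Nat.find_min' hex2 hcon
  have hw2 : 2 ≤ w := by
    by_contra hlt
    have : w = 0 ∨ w = 1 := by omega
    rcases this with h | h
    · rw [h] at hw1; simp at hw1
    · rw [h, pow_one] at hw1; exact hw1 hpr
  obtain ⟨v, hv⟩ : ∃ v, w = v + 1 := ⟨w - 1, by omega⟩
  have hv1 : p ^ v ∣ (mp f)^[r] 0 := by
    by_contra h
    exact Nat.find_min hex2 (by omega) h
  have h5 := rigid f h1 hr (by omega) hv1 j'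
  rw [← hj] at h5
  have h6 : p ^ (v + 1) ∣ (mp f)^[k] 0 := (pow_dvd_pow p (by omega)).trans he
  have h7 := dvd_sub h6 h5
  rw [sub_sub_cancel, ← hv] at h7
  exact hw1 h7

/-- if all primes of `a k` occur earlier then `a k` divides the product of the earlier terms -/
theorem dvd_prod (f : ℤ[X]) (h1 : f.coeff 1 = 0) {k : ℕ} (hk : 0 < k)
    (hall : ∀ p : ℕ, p.Prime → (p : ℤ) ∣ (mp f)^[k] 0 →
      ∃ i, 0 < i ∧ i < k ∧ (p : ℤ) ∣ (mp f)^[i] 0) :
    ((mp f)^[k] 0).natAbs ∣ ∏ i ∈ Ico 1 k, ((mp f)^[i] 0).natAbs := by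
  rw [Nat.dvd_iff_prime_pow_dvd_dvd]
  intro p e hp hpe
  rcases Nat.eq_zero_or_pos e with rfl | hepos
  · simp
  have h2 : ((p : ℤ)) ^ e ∣ (mp f)^[k] 0 := by
    rw [← Int.natAbs_dvd_natAbs, Int.natAbs_pow, Int.natAbs_natCast]
    exact hpe
  have h3 : (p : ℤ) ∣ (mp f)^[k] 0 := (dvd_pow_self _ (by omega)).trans h2
  obtain ⟨i, hi, hik, h4⟩ := pow_dvd_earlier f h1 hk h2 (hall p hp h3)
  have h5 : p ^ e ∣ ((mp f)^[i] 0).natAbs := by
    rw [← Int.natAbs_dvd_natAbs, Int.natAbs_pow, Int.natAbs_natCast] at h4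
    exact h4
  exact h5.trans (Finset.dvd_prod_of_mem _ (by simp; omega))

end Pool.Agent.PFO
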