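import Pool.Agent.PFO.Div
import Pool.Agent.PFO.Core

/-!
# Orbits of permutations of `ZMod M`: averaging over the starting point
-/

set_option autoImplicit false

open Finset Polynomial

namespace Pool.Agent.PFO

/-- residues `y` modulo `M` coprime to a divisor `a` of `M` -/
theorem card_coprime_le {M a : ℕ} [NeZero M] (ha : 0 < a) :
    (univ.filter fun y : ZMod M => a.Coprime y.val).card ≤ a.totient * (M / a + 1) := by
  classical
  have h1 : (univ.filter fun y : ZMod M => a.Coprime y.val).card ≤
      ((Ico 0 (0 + M)).filter (a.Coprime)).card := by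
    refine Finset.card_le_card_of_injOn (fun y => y.val) (fun y hy => ?_) fun y _ z _ h =>
      ZMod.val_injective M h
    have hy2 := (Finset.mem_filter.1 (Finset.mem_coe.1 hy)).2
    have := ZMod.val_lt y
    exact Finset.mem_coe.2 (Finset.mem_filter.2 ⟨Finset.mem_Ico.2 ⟨Nat.zero_le _,
      show y.val < 0 + M by omega⟩, hy2⟩)
  exact h1.trans (Nat.Ico_filter_coprime_le 0 M ha.ne')

theorem card_iter_le {M a : ℕ} [NeZero M] (ha : 0 < a) {g : ZMod M → ZMod M}
    (hg : Function.Injective g) (n : ℕ) :
    (univ.filter fun x : ZMod M => a.Coprime (g^[n] x).val).card ≤ a.totient * (M / a + 1) := by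
  classical
  refine le_trans ?_ (card_coprime_le (M := M) ha)
  refine Finset.card_le_card_of_injOn (fun x => g^[n] x) (fun x hx => ?_) fun x _ y _ h =>
    hg.iterate n h
  have hx2 := (Finset.mem_filter.1 (Finset.mem_coe.1 hx)).2
  exact Finset.mem_coe.2 (Finset.mem_filter.2 ⟨Finset.mem_univ _, hx2⟩)

/-- an injective self map of a finite type has a period -/
theorem exists_period {M : ℕ} [NeZero M] {g : ZMod M → ZMod M} (hg : Function.Injective g) :
    ∃ L : ℕ, 0 < L ∧ ∀ x n, g^[n + L] x = g^[n] x := by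
  classical
  let e : Equiv.Perm (ZMod M) := Equiv.ofBijective g (Finite.injective_iff_bijective.1 hg)
  refine ⟨Fintype.card (Equiv.Perm (ZMod M)), Fintype.card_pos, fun x n => ?_⟩
  rw [Function.iterate_add_apply]
  have h1 : g^[Fintype.card (Equiv.Perm (ZMod M))] x = x := by
    have h2 : e ^ Fintype.card (Equiv.Perm (ZMod M)) = 1 := pow_card_eq_one
    have h3 : (⇑e)^[Fintype.card (Equiv.Perm (ZMod M))] x = x := by
      rw [Equiv.Perm.iterate_eq_pow, h2]
      rfl
    exact h3
  rw [h1]

/-- counting a periodic set of times -/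
theorem card_periodic (p : ℕ → Prop) [DecidablePred p] {L : ℕ} (hp : ∀ n, p (n + L) ↔ p n)
    (t : ℕ) : ((range (L * t)).filter p).card = t * ((range L).filter p).card := by
  induction t with
  | zero => simp
  | succ t ih =>
    have e : L * (t + 1) = L * t + L := by ring
    rw [e, Finset.range_eq_Ico, ← Finset.Ico_union_Ico_eq_Ico (Nat.zero_le (L * t))
      (Nat.le_add_right _ L), Finset.filter_union, Finset.card_union_of_disjoint
      (Finset.disjoint_filter_filter (Finset.Ico_disjoint_Ico_consecutive _ _ _)),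
      ← Finset.range_eq_Ico, ih]
    have h2 : ((Ico (L * t) (L * t + L)).filter p).card = ((range L).filter p).card := by
      have hper : ∀ n, p (n + L * t) ↔ p n := by
        intro n
        clear ih e
        induction t with
        | zero => simp
        | succ t ih =>
          have e2 : n + L * (t + 1) = (n + L * t) + L := by ring
          rw [e2, hp, ih]
      refine (Finset.card_bij (fun n _ => n + L * t) (fun n hn => ?_) (fun _ _ _ _ h => by omega)
        fun n hn => ?_).symm
      · obtain ⟨h3, h4⟩ := Finset.mem_filter.1 hn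
        have := Finset.mem_range.1 h3
        exact Finset.mem_filter.2 ⟨Finset.mem_Ico.2 ⟨by omega, by omega⟩, (hper n).2 h4⟩
      · obtain ⟨h3, h4⟩ := Finset.mem_filter.1 hn
        have h5 := Finset.mem_Ico.1 h3
        refine ⟨n - L * t, Finset.mem_filter.2 ⟨Finset.mem_range.2 (by omega), ?_⟩, by omega⟩
        rw [← hper, Nat.sub_add_cancel h5.1]
        exact h4
    rw [h2]
    ring

/-- double counting: if for each time `n` at most `η M` of the points are bad then for most
points at most `ε N` of the times `n < N` are bad -/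
theorem average {M : ℕ} [NeZero M] (bad : ZMod M → ℕ → Prop) {L : ℕ} (hL : 0 < L)
    (hper : ∀ x n, bad x (n + L) ↔ bad x n) {ε : ℝ} (hε : 0 < ε)
    (hbad : ∀ n, ((Set.ncard {x | bad x n} : ℕ) : ℝ) ≤ ε ^ 2 / 2 * M) :
    ∃ R : Finset (ZMod M), (1 - ε) * M ≤ (R.card : ℝ) ∧ ∀ x ∈ R, ∀ N : ℕ, L ≤ N →
      ((Set.ncard {n | n < N ∧ bad x n} : ℕ) : ℝ) ≤ ε * N := by
  classical
  have hM : (0 : ℝ) < M := by exact_mod_cast Nat.pos_of_ne_zero (NeZero.ne M)
  have hLr : (0 : ℝ) < L := by exact_mod_cast hL
  set B : ZMod M → ℕ := fun x => ((range L).filter fun n => bad x n).card with hB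
  set R : Finset (ZMod M) := univ.filter fun x => (B x : ℝ) ≤ ε / 2 * L with hR
  have hsum : ∑ x : ZMod M, (B x : ℝ) ≤ L * (ε ^ 2 / 2 * M) := by
    have h1 : ∑ x : ZMod M, (B x : ℝ) =
        ∑ n ∈ range L, ((univ.filter fun x : ZMod M => bad x n).card : ℝ) := by
      simp only [hB, Finset.card_filter, Nat.cast_sum]
      rw [Finset.sum_comm]
    rw [h1]
    calc ∑ n ∈ range L, ((univ.filter fun x : ZMod M => bad x n).card : ℝ)
        ≤ ∑ _n ∈ range L, ε ^ 2 / 2 * M := by
          refine Finset.sum_le_sum fun n _ => ?_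
          have h2 := hbad n
          rw [Set.ncard_eq_toFinset_card'] at h2
          have h3 : Set.toFinset {x | bad x n} = univ.filter fun x : ZMod M => bad x n := by
            ext x
            simp
          rw [h3] at h2
          exact h2
      _ = L * (ε ^ 2 / 2 * M) := by rw [Finset.sum_const, Finset.card_range, nsmul_eq_mul]
  refine ⟨R, ?_, fun x hx N hN => ?_⟩
  · have h1 : ((univ.filter fun x => ¬ (B x : ℝ) ≤ ε / 2 * L).card : ℝ) * (ε / 2 * L) ≤
        ∑ x : ZMod M, (B x : ℝ) := by
      calc ((univ.filter fun x => ¬ (B x : ℝ) ≤ ε / 2 * L).card : ℝ) * (ε / 2 * L)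
          = ∑ _x ∈ univ.filter (fun x => ¬ (B x : ℝ) ≤ ε / 2 * L), (ε / 2 * L) := by
            rw [Finset.sum_const, nsmul_eq_mul]
        _ ≤ ∑ x ∈ univ.filter (fun x => ¬ (B x : ℝ) ≤ ε / 2 * L), (B x : ℝ) := by
            refine Finset.sum_le_sum fun x hx => ?_
            exact (not_le.1 (Finset.mem_filter.1 hx).2).le
        _ ≤ ∑ x : ZMod M, (B x : ℝ) :=
            Finset.sum_le_sum_of_subset_of_nonneg (Finset.filter_subset _ _)
              fun _ _ _ => by positivity
    have h2 := Finset.card_filter_add_card_filter_not (s := (univ : Finset (ZMod M)))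
      (fun x => (B x : ℝ) ≤ ε / 2 * L)
    rw [Finset.card_univ, ZMod.card] at h2
    have h3 : (R.card : ℝ) + ((univ.filter fun x => ¬ (B x : ℝ) ≤ ε / 2 * L).card : ℝ) = M := by
      exact_mod_cast h2
    have h4 : ((univ.filter fun x => ¬ (B x : ℝ) ≤ ε / 2 * L).card : ℝ) * (ε / 2 * L) ≤
        (ε * M) * (ε / 2 * L) := by
      refine h1.trans (hsum.trans (le_of_eq ?_))
      ring
    have h5 := le_of_mul_le_mul_right h4 (by positivity)
    linarith
  · have hx2 : (B x : ℝ) ≤ ε / 2 * L := (Finset.mem_filter.1 hx).2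
    set t := N / L + 1 with ht
    have hNt : N ≤ L * t := (Nat.lt_mul_div_succ N hL).le
    have h1 : Set.ncard {n | n < N ∧ bad x n} ≤ t * B x := by
      have h2 := card_periodic (fun n => bad x n) (hper x) t
      rw [← h2]
      have h3 : {n | n < N ∧ bad x n} ⊆ ((range (L * t)).filter fun n => bad x n : Finset ℕ) := by
        rintro n ⟨hn, hb⟩
        exact Finset.mem_coe.2 (Finset.mem_filter.2 ⟨Finset.mem_range.2 (by omega), hb⟩)
      have h4 := Set.ncard_le_ncard h3 (Finset.finite_toSet _)
      rwa [Set.ncard_coe_finset] at h4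
    have h2 : ((Set.ncard {n | n < N ∧ bad x n} : ℕ) : ℝ) ≤ t * (B x : ℝ) := by exact_mod_cast h1
    have h3 : (t : ℝ) * L ≤ N + L := by
      have h4 : N / L * L ≤ N := Nat.div_mul_le_self N L
      have h5 : t * L ≤ N + L := by
        rw [ht, add_mul, one_mul]
        omega
      exact_mod_cast h5
    have h4 : (L : ℝ) ≤ N := by exact_mod_cast hN
    have h5 : (0 : ℝ) ≤ t := by positivity
    calc ((Set.ncard {n | n < N ∧ bad x n} : ℕ) : ℝ) ≤ t * (B x : ℝ) := h2
      _ ≤ t * (ε / 2 * L) := mul_le_mul_of_nonneg_left hx2 h5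
      _ = ε / 2 * (t * L) := by ring
      _ ≤ ε / 2 * (N + L) := mul_le_mul_of_nonneg_left h3 (by positivity)
      _ ≤ ε * N := by nlinarith

end Pool.Agent.PFO
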