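import Pool.Agent.PFO.Grow

/-!
# Orbits of integer polynomials without primes: the covering system and the starting points
-/

set_option autoImplicit false

open Polynomial Finset

namespace Pool.Agent.PFO

/-- the moduli of a covering system with least modulus 3 (Erdos) -/
def mods : Finset ℕ := {3, 4, 5, 6, 8, 10, 12, 15, 20, 24, 30, 40, 60, 120}

/-- the residues -/
def res (m : ℕ) : ℕ :=
  if m = 3 then 0 else if m = 4 then 0 else if m = 5 then 0 else if m = 6 then 1 else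
  if m = 8 then 6 else if m = 10 then 3 else if m = 12 then 5 else if m = 15 then 11 else
  if m = 20 then 7 else if m = 24 then 10 else if m = 30 then 2 else if m = 40 then 34 else
  if m = 60 then 59 else 98

set_option maxRecDepth 20000 in
theorem cover_aux : ∀ n < 120, ∃ m ∈ mods, n % m = res m := by decide

theorem dvd_mods : ∀ m ∈ mods, m ∣ 120 := by decide

theorem mods_ge : ∀ m ∈ mods, 3 ≤ m := by decide

theorem res_lt : ∀ m ∈ mods, res m < m := by decide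

theorem cover (n : ℕ) : ∃ m ∈ mods, n % m = res m := by
  obtain ⟨m, hm, h⟩ := cover_aux (n % 120) (Nat.mod_lt _ (by decide))
  exact ⟨m, hm, by rwa [Nat.mod_mod_of_dvd _ (dvd_mods m hm)] at h⟩

/-- an arithmetic progression of starting points all of whose orbits consist of multiples of
primes from a finite set -/
theorem covered (f : ℤ[X]) (h1 : f.coeff 1 = 0) (h0 : (f.eval 0).natAbs = 1)
    (hinj : Function.Injective fun n => (mp f)^[n] (0 : ℤ)) :
    ∃ (M : ℕ) (a : ℤ), 0 < M ∧ ∀ x : ℤ, (M : ℤ) ∣ x - a → ∀ n : ℕ,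
      ∃ p : ℕ, p.Prime ∧ p ≤ M ∧ (p : ℤ) ∣ (mp f)^[n] x := by
  classical
  have hq := fun k : ℕ => fun hk : 3 ≤ k => primitive f h1 h0 hinj k hk
  choose! q hqp hqd hqn using hq
  have hcop : Set.Pairwise (mods : Set ℕ) (Function.onFun Nat.Coprime q) := by
    have key : ∀ i ∈ mods, ∀ j ∈ mods, i < j → q i ≠ q j := by
      intro i hi j hj hij h
      have h3 := hqn j (mods_ge j hj) i (by have := mods_ge i hi; omega) hij
      rw [← h] at h3
      exact h3 (hqd i (mods_ge i hi))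
    intro i hi j hj hij
    have hi' := Finset.mem_coe.1 hi
    have hj' := Finset.mem_coe.1 hj
    refine (Nat.coprime_primes (hqp i (mods_ge i hi')) (hqp j (mods_ge j hj'))).2 ?_
    rcases Nat.lt_or_ge i j with h | h
    · exact key i hi' j hj' h
    · exact (key j hj' i hi' (lt_of_le_of_ne h (Ne.symm hij))).symm
  have hne : ∀ i ∈ mods, q i ≠ 0 := fun i hi => (hqp i (mods_ge i hi)).ne_zero
  -- the residue of the starting point modulo `q m`
  let b : ℕ → ℕ := fun m => (((mp f)^[m - res m] (0 : ℤ)) % (q m : ℤ)).toNat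
  obtain ⟨c, hc⟩ := Nat.chineseRemainderOfFinset b q mods hne hcop
  refine ⟨∏ m ∈ mods, q m, c, Finset.prod_pos fun m hm => (hqp m (mods_ge m hm)).pos, ?_⟩
  intro x hx n
  obtain ⟨m, hm, hn⟩ := cover n
  have hm3 := mods_ge m hm
  have hdvd : q m ∣ ∏ m ∈ mods, q m := Finset.dvd_prod_of_mem _ hm
  refine ⟨q m, hqp m hm3, Nat.le_of_dvd (Finset.prod_pos fun m hm =>
    (hqp m (mods_ge m hm)).pos) hdvd, ?_⟩
  have h2 : (q m : ℤ) ∣ x - c := (Int.natCast_dvd_natCast.2 hdvd).trans hx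
  have h3 : (q m : ℤ) ∣ (c : ℤ) - (mp f)^[m - res m] (0 : ℤ) := by
    have h4 := (Nat.modEq_iff_dvd.1 (hc m hm))
    have hpos : (0 : ℤ) < q m := by exact_mod_cast (hqp m hm3).pos
    have h5 : ((b m : ℕ) : ℤ) = ((mp f)^[m - res m] (0 : ℤ)) % (q m : ℤ) :=
      Int.toNat_of_nonneg (Int.emod_nonneg _ hpos.ne')
    rw [h5] at h4
    have h6 : (q m : ℤ) ∣ (mp f)^[m - res m] (0 : ℤ) - ((mp f)^[m - res m] (0 : ℤ)) % (q m : ℤ) :=
      Int.dvd_self_sub_emod
    have h7 := dvd_add h4 h6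
    have h8 := (dvd_neg (α := ℤ)).2 h7
    have e : -(((mp f)^[m - res m] (0 : ℤ)) % (q m : ℤ) - (c : ℤ) +
        ((mp f)^[m - res m] (0 : ℤ) - ((mp f)^[m - res m] (0 : ℤ)) % (q m : ℤ))) =
        (c : ℤ) - (mp f)^[m - res m] (0 : ℤ) := by ring
    rwa [e] at h8
  have h4 : (q m : ℤ) ∣ x - (mp f)^[m - res m] (0 : ℤ) := by
    have := dvd_add h2 h3
    rwa [sub_add_sub_cancel] at this
  have h5 := h4.trans (sub_dvd f n x ((mp f)^[m - res m] (0 : ℤ)))
  rw [iter_add] at h5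
  have h6 : n + (m - res m) = m * (n / m + 1) := by
    have h7 := Nat.mod_add_div n m
    have h8 := res_lt m hm
    rw [hn] at h7
    have e : m * (n / m + 1) = m * (n / m) + m := by ring
    omega
  rw [h6] at h5
  have h7 := dvd_mul_index f (hqd m hm3) (n / m + 1)
  have h8 := dvd_add h5 h7
  rwa [sub_add_cancel] at h8

/-- the same if `f(0)` is not `1` or `-1` -/
theorem covered' (f : ℤ[X]) (h0 : (f.eval 0).natAbs ≠ 1) :
    ∃ (M : ℕ) (a : ℤ), 0 < M ∧ ∀ x : ℤ, (M : ℤ) ∣ x - a → ∀ n : ℕ,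
      ∃ p : ℕ, p.Prime ∧ p ≤ M ∧ (p : ℤ) ∣ (mp f)^[n] x := by
  obtain ⟨p, hp, hd⟩ := Nat.exists_prime_and_dvd h0
  refine ⟨p, 0, hp.pos, fun x hx n => ⟨p, hp, le_rfl, ?_⟩⟩
  have h1 : (p : ℤ) ∣ (mp f)^[1] 0 := by
    rw [Function.iterate_one]
    exact Int.natCast_dvd.2 hd
  have h2 := dvd_mul_index f h1 n
  rw [one_mul] at h2
  have h3 := dvd_add (hx.trans (sub_dvd f n x 0)) h2
  rwa [sub_add_cancel] at h3

theorem main (f : ℤ[X]) (hd : 2 ≤ f.natDegree)
    (h : (f.eval 0).natAbs ≠ 1 ∨ f.coeff 1 = 0 ∧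
      Function.Injective fun n => (fun x : ℤ => f.eval x)^[n] 0) :
    ∃ (M : ℕ) (a : ℤ), 0 < M ∧ ∀ x : ℤ, (M : ℤ) ∣ x - a → (M : ℤ) ≤ |x| →
      (Function.Injective fun n => (fun x : ℤ => f.eval x)^[n] x) ∧
      ∀ n : ℕ, 1 < |(fun x : ℤ => f.eval x)^[n] x| ∧ ¬ Prime ((fun x : ℤ => f.eval x)^[n] x) := by
  have key : ∃ (M : ℕ) (a : ℤ), 0 < M ∧ ∀ x : ℤ, (M : ℤ) ∣ x - a → ∀ n : ℕ,
      ∃ p : ℕ, p.Prime ∧ p ≤ M ∧ (p : ℤ) ∣ (mp f)^[n] x := by
    by_cases h0 : (f.eval 0).natAbs = 1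
    · rcases h with h | ⟨h1, hinj⟩
      · exact absurd h0 h
      · exact covered f h1 h0 hinj
    · exact covered' f h0
  obtain ⟨M, a, hM, hc⟩ := key
  obtain ⟨R, hR⟩ := escape f hd
  refine ⟨M * (R.natAbs + 2), a, by positivity, fun x hx hxM => ?_⟩
  have hR' : R ≤ |x| := by
    have h1 : R ≤ R.natAbs := Int.le_natAbs
    have h2 : ((R.natAbs : ℤ)) ≤ (M : ℤ) * (R.natAbs + 2) := by
      have : (1 : ℤ) ≤ M := by exact_mod_cast hM
      nlinarith [Int.natCast_nonneg R.natAbs]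
    push_cast at hxM
    push_cast at h1 h2
    linarith
  have hxM2 : (M : ℤ) + 1 ≤ |x| := by
    have : (1 : ℤ) ≤ M := by exact_mod_cast hM
    push_cast at hxM
    have h3 : (0 : ℤ) ≤ |R| := abs_nonneg _
    nlinarith
  have hdv : (M : ℤ) ∣ x - a := by
    refine dvd_trans ?_ hx
    push_cast
    exact dvd_mul_right _ _
  refine ⟨fun m n hmn => ?_, fun n => ?_⟩
  · exact (escape_mono f hR hR').injective (congrArg abs hmn)
  · have h1 := escape_iter f hR hR' n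
    have h2 : (0 : ℤ) ≤ n := by positivity
    have hM1 : (1 : ℤ) ≤ M := by exact_mod_cast hM
    have h3 : (M : ℤ) + 1 ≤ |(mp f)^[n] x| := by linarith
    refine ⟨by show 1 < |(mp f)^[n] x|; linarith, fun hpr => ?_⟩
    obtain ⟨p, hp, hpM, hpd⟩ := hc x hdv n
    have h4 : (p : ℤ).natAbs ∣ ((mp f)^[n] x).natAbs := Int.natAbs_dvd_natAbs.2 hpd
    rw [Int.natAbs_natCast] at h4
    have h5 : ((mp f)^[n] x).natAbs.Prime := Int.prime_iff_natAbs_prime.1 hpr
    have h6 : p = ((mp f)^[n] x).natAbs := (Nat.prime_dvd_prime_iff_eq hp h5).1 h4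
    have h7 : |(mp f)^[n] x| = (p : ℤ) := by rw [h6]; simp
    have h8 : (p : ℤ) ≤ M := by exact_mod_cast hpM
    linarith

end Pool.Agent.PFO
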