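import Mathlib

/-!
# MP_29b621_nt: primes in orbits of integer polynomials, definitions

For an integer polynomial `f` the map `z ↦ f(z)` of the integers is iterated;
`(fun z : ℤ => f.eval z)^[n] x` is `f^n(x)`.
-/

set_option autoImplicit false

open Polynomial

namespace Pool.Agent.PFO

/-- `0` is periodic for `f` modulo all large primes `q ≡ b (mod m)`, for some `m ≥ 1` and some `b`
coprime to `m`: each such prime divides one of the numbers `f^k(0)`, `k ≥ 1`. (For instance `f`
may permute the residues modulo all these primes.) -/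
def ZeroPeriodic (f : ℤ[X]) : Prop :=
  ∃ m b q0 : ℕ, 0 < m ∧ b.Coprime m ∧ ∀ q : ℕ, q.Prime → q ≡ b [MOD m] → q0 < q →
    ∃ k : ℕ, 0 < k ∧ (q : ℤ) ∣ (fun z : ℤ => f.eval z)^[k] 0

/-- The integer polynomials which are obtained from the polynomial `x` by finitely many of the
following steps: from `g` to `A g ^ d + B` with `A ≠ 0` and `d` odd; from `g` to `A D_n(g, a) + B`
with `A ≠ 0` and `n` prime to `6`, where `D_n(x, a)` is the Dickson polynomial of the first kind
(Mathlib's `dickson 1 a n`; `D_n(u + v, u v) = u ^ n + v ^ n`); from `E g` with `E ≠ 0` to `g`.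
So these are all the integer polynomials which are compositions of linear polynomials with
rational coefficients, powers `x ^ d` with `d` odd and Dickson polynomials of degree prime to
`6`. -/
inductive Composed : ℤ[X] → Prop
  | var : Composed X
  | power (A B : ℤ) (d : ℕ) (g : ℤ[X]) (hA : A ≠ 0) (hd : Odd d) (hg : Composed g) :
      Composed (C A * g ^ d + C B)
  | dickson (A B a : ℤ) (n : ℕ) (g : ℤ[X]) (hA : A ≠ 0) (hn : n.Coprime 6) (hg : Composed g) :
      Composed (C A * (Polynomial.dickson 1 a n).comp g + C B)
  | quotient (E : ℤ) (g : ℤ[X]) (hE : E ≠ 0) (hg : Composed (C E * g)) : Composed g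

/-- The integer `x` has at least `K` distinct prime divisors (this is true for `x = 0`, and it is
false for `K = 2` if `x` or `-x` is a prime number). -/
def ManyPrimes (K : ℕ) (x : ℤ) : Prop :=
  ∃ T : Finset ℕ, K ≤ T.card ∧ ∀ p ∈ T, p.Prime ∧ (p : ℤ) ∣ x

end Pool.Agent.PFO
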