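import Mathlib

/-!
# MP_29b621_nt: polynomials with many primes in the orbit of `0`, definition
-/

set_option autoImplicit false

open Polynomial

namespace Pool.Agent.PFO

/-- The primes that divide one of the numbers `f^k(0)`, `k ≥ 1`. -/
def OrbitPrimes (f : ℤ[X]) : Set ℕ :=
  {q | q.Prime ∧ ∃ k : ℕ, 0 < k ∧ (q : ℤ) ∣ (fun z : ℤ => f.eval z)^[k] 0}

/-- The sum of `1 / q` over the primes `q` that divide one of the numbers `f^k(0)`, `k ≥ 1`, is
infinite. -/
def Good (f : ℤ[X]) : Prop :=
  ¬ Summable (Set.indicator (OrbitPrimes f) fun q : ℕ => 1 / (q : ℝ))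

end Pool.Agent.PFO
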