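import Mathlib

/-!
# Dickson polynomials modulo primes
-/

set_option autoImplicit false

open Polynomial

namespace Pool.Agent.PFO

theorem dickson_eval {R : Type*} [CommRing R] (x y : R) :
    ∀ n, (dickson 1 (x * y) n).eval (x + y) = x ^ n + y ^ n
  | 0 => by
    simp only [pow_zero, dickson_zero]; norm_num
  | 1 => by simp only [eval_X, dickson_one, pow_one]
  | n + 2 => by
    simp only [eval_sub, eval_mul, dickson_eval x y, eval_X, dickson_add_two, eval_C]
    ring

/-- the element of the quadratic extension -/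
theorem exists_split {q : ℕ} [Fact q.Prime] {K : Type*} [Field K] [CharP K q] [IsAlgClosed K]
    (u a : ℤ) (ha : (a : K) ≠ 0) :
    ∃ s t : K, s + t = u ∧ s * t = a ∧ s ≠ 0 ∧ t ≠ 0 ∧ s ^ (q ^ 2 - 1) = 1 ∧
      t ^ (q ^ 2 - 1) = 1 := by
  have hq : q.Prime := Fact.out
  have hint : ∀ z : ℤ, (z : K) ^ q = z := fun z => by
    have h1 : ((z : ZMod q)) ^ q = z := ZMod.pow_card _
    have h2 := congrArg (ZMod.castHom (dvd_refl q) K) h1
    rw [map_pow, map_intCast] at h2
    exact h2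
  obtain ⟨s, hs⟩ := IsAlgClosed.exists_root (X ^ 2 - C (u : K) * X + C (a : K) : K[X]) (by
    have : (X ^ 2 - C (u : K) * X + C (a : K) : K[X]).degree = 2 := by compute_degree!
    rw [this]
    decide)
  have hs2 : s ^ 2 - u * s + a = 0 := by
    have := hs
    simp only [IsRoot.def, eval_add, eval_sub, eval_pow, eval_X, eval_mul, eval_C] at this
    exact this
  have hst : s * (u - s) = a := by linear_combination -hs2
  have hs0 : s ≠ 0 := fun h => ha (by rw [← hst, h, zero_mul])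
  have ht0 : (u : K) - s ≠ 0 := fun h => ha (by rw [← hst, h, mul_zero])
  have hfr : (s ^ q) ^ 2 - u * s ^ q + a = 0 := by
    have h1 : (s ^ 2 - u * s + a) ^ q = 0 := by rw [hs2, zero_pow hq.ne_zero]
    rw [add_pow_char, sub_pow_char, mul_pow, hint, hint] at h1
    rw [← h1]
    ring
  have hcase : s ^ q = s ∨ s ^ q = u - s := by
    have h1 : (s ^ q - s) * (s ^ q - (u - s)) = 0 := by
      linear_combination hfr - hs2
    rcases mul_eq_zero.1 h1 with h | h
    · exact Or.inl (sub_eq_zero.1 h)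
    · exact Or.inr (sub_eq_zero.1 h)
  have htq : (u - s : K) ^ q = u - s ^ q := by rw [sub_pow_char, hint]
  have hsq : s ^ (q ^ 2) = s := by
    rw [pow_two, pow_mul]
    rcases hcase with h | h
    · rw [h, h]
    · rw [h, htq, h]
      ring
  have htq2 : (u - s : K) ^ (q ^ 2) = u - s := by
    rw [pow_two, pow_mul, htq, sub_pow_char, hint, ← pow_mul, ← pow_two, hsq]
  have hpos : 0 < q ^ 2 := pow_pos hq.pos 2
  have e : q ^ 2 - 1 + 1 = q ^ 2 := by omega
  refine ⟨s, u - s, by ring, hst, hs0, ht0, ?_, ?_⟩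
  · refine mul_right_cancel₀ hs0 ?_
    rw [← pow_succ, e, hsq, one_mul]
  · refine mul_right_cancel₀ ht0 ?_
    rw [← pow_succ, e, htq2, one_mul]

theorem eq_of_pow {K : Type*} [Field K] {n m : ℕ} (hnm : n.Coprime m) {s t : K}
    (ht : t ≠ 0) (h1 : s ^ n = t ^ n) (h2 : s ^ m = 1) (h3 : t ^ m = 1) : s = t := by
  have h4 : (s / t) ^ n = 1 := by rw [div_pow, h1, div_self (pow_ne_zero _ ht)]
  have h5 : (s / t) ^ m = 1 := by rw [div_pow, h2, h3, div_one]
  have h6 : orderOf (s / t) = 1 :=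
    Nat.eq_one_of_dvd_coprimes hnm (orderOf_dvd_of_pow_eq_one h4) (orderOf_dvd_of_pow_eq_one h5)
  have h7 := orderOf_eq_one_iff.1 h6
  rwa [div_eq_one_iff_eq ht] at h7

/-- a Dickson polynomial of degree `n` prime to `q ^ 2 - 1` is injective modulo `q` -/
theorem dick_inj {q n : ℕ} (hq : q.Prime) (hn : n.Coprime (q ^ 2 - 1)) {a : ℤ}
    (ha : ¬ (q : ℤ) ∣ a) {u v : ℤ}
    (h : (q : ℤ) ∣ (dickson 1 a n).eval u - (dickson 1 a n).eval v) : (q : ℤ) ∣ u - v := by
  have : Fact q.Prime := ⟨hq⟩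
  let K := AlgebraicClosure (ZMod q)
  have hcast : ∀ z : ℤ, ((z : K)) = 0 ↔ (q : ℤ) ∣ z := fun z => CharP.intCast_eq_zero_iff K q z
  have ha' : (a : K) ≠ 0 := fun h0 => ha ((hcast a).1 h0)
  obtain ⟨s, s', hs, hss, hs0, hs0', hs1, hs1'⟩ := exists_split (q := q) (K := K) u a ha'
  obtain ⟨t, t', ht, htt, ht0, ht0', ht1, ht1'⟩ := exists_split (q := q) (K := K) v a ha'
  have hev : ∀ z : ℤ, ∀ x y : K, x + y = z → x * y = a →
      (((dickson 1 a n).eval z : ℤ) : K) = x ^ n + y ^ n := fun z x y h1 h2 => by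
    have h3 : (((dickson 1 a n).eval z : ℤ) : K) = (dickson 1 (a : K) n).eval (z : K) := by
      have h4 := Polynomial.eval_intCast_map (Int.castRingHom K) (dickson 1 a n) z
      rw [map_dickson] at h4
      exact h4.symm
    rw [h3, ← h1, ← h2, dickson_eval]
  have h1 : s ^ n + s' ^ n = t ^ n + t' ^ n := by
    rw [← hev u s s' hs hss, ← hev v t t' ht htt, ← sub_eq_zero, ← Int.cast_sub]
    exact (hcast _).2 h
  have hp1 : s ^ n * s' ^ n = (a : K) ^ n := by rw [← mul_pow, hss]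
  have hp2 : t ^ n * t' ^ n = (a : K) ^ n := by rw [← mul_pow, htt]
  have h2 : (s ^ n - t ^ n) * (s ^ n - t' ^ n) = 0 := by
    linear_combination (s ^ n) * h1 - hp1 + hp2
  have h3 : s = t ∨ s = t' := by
    rcases mul_eq_zero.1 h2 with h | h
    · exact Or.inl (eq_of_pow hn ht0 (sub_eq_zero.1 h) hs1 ht1)
    · exact Or.inr (eq_of_pow hn ht0' (sub_eq_zero.1 h) hs1 ht1')
  have h4 : (u : K) = v := by
    rcases h3 with h3 | h3
    · have h5 : s' = t' := by
        refine mul_left_cancel₀ hs0 ?_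
        rw [hss, h3, htt]
      rw [← hs, ← ht, h3, h5]
    · have h5 : s' = t := by
        refine mul_left_cancel₀ hs0 ?_
        rw [hss, h3, mul_comm, htt]
      rw [← hs, ← ht, h3, h5, add_comm]
  refine (hcast _).1 ?_
  rw [Int.cast_sub, h4, sub_self]

end Pool.Agent.PFO
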