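import Pool.Agent.Qnr.Ap

/-!
# The sum of the inverses of the primes in a residue class diverges; disjoint sets of primes
-/

set_option autoImplicit false

open Finset Filter Topology

namespace Pool.Agent.PFO

/-- primes `p = a` in `ZMod m` above `q0` with large sum of inverses -/
theorem div_ap (m : ℕ) [NeZero m] (a : ZMod m) (ha : IsUnit a) (q0 : ℕ) (B : ℝ) :
    ∃ S : Finset ℕ, (∀ p ∈ S, p.Prime ∧ (p : ZMod m) = a ∧ q0 < p) ∧ B ≤ ∑ p ∈ S, 1 / (p : ℝ) := by
  obtain ⟨K, hK2, Y0, hw⟩ := Pool.Agent.Qnr.window_ap m a ha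
  set P : ℕ → Prop := fun p : ℕ => p.Prime ∧ (p : ZMod m) = a with hP
  have hK0 : (0 : ℝ) < K := by exact_mod_cast (by omega : 0 < K)
  have hlK : 0 < Real.log K := Real.log_pos (by exact_mod_cast (by omega : 1 < K))
  set j0 := Y0 + q0 with hj0
  have hpow : ∀ j, j < K ^ j := fun j => Nat.lt_pow_self (by omega)
  set c : ℝ := 1 / ((j0 + 1) * (K * Real.log K)) with hc
  have hcpos : 0 < c := by positivity
  have key : ∀ J : ℕ, c * ∑ i ∈ range J, (1 / ((i : ℝ) + 1)) ≤
      ∑ p ∈ (Ioc (K ^ j0) (K ^ (j0 + J))).filter P, 1 / (p : ℝ) := by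
    intro J
    induction J with
    | zero => simp
    | succ J ih =>
      have hle : K ^ (j0 + J) ≤ K ^ (j0 + (J + 1)) := Nat.pow_le_pow_right (by omega) (by omega)
      have hsplit : ∑ p ∈ (Ioc (K ^ j0) (K ^ (j0 + (J + 1)))).filter P, 1 / (p : ℝ) =
          ∑ p ∈ (Ioc (K ^ j0) (K ^ (j0 + J))).filter P, 1 / (p : ℝ) +
            ∑ p ∈ (Ioc (K ^ (j0 + J)) (K ^ (j0 + (J + 1)))).filter P, 1 / (p : ℝ) := by
        rw [Finset.sum_filter, Finset.sum_filter, Finset.sum_filter,
          Finset.sum_Ioc_consecutive _ (Nat.pow_le_pow_right (by omega) (by omega)) hle]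
      rw [hsplit, Finset.sum_range_succ, mul_add]
      refine add_le_add ih ?_
      set Y := K ^ (j0 + (J + 1)) with hY
      have hYd : Y / K = K ^ (j0 + J) := by
        rw [hY, show j0 + (J + 1) = (j0 + J) + 1 by ring, pow_succ,
          Nat.mul_div_cancel _ (by omega)]
      have hY0 : Y0 ≤ Y := by
        have := hpow (j0 + (J + 1))
        omega
      have hYpos : (0 : ℝ) < Y := by
        have := hpow (j0 + (J + 1))
        have h2 : 0 < Y := by omega
        exact_mod_cast h2
      have h1 := hw Y hY0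
      rw [hYd] at h1
      have h2 : (((Ioc (K ^ (j0 + J)) Y).filter P).card : ℝ) * (1 / Y) ≤
          ∑ p ∈ (Ioc (K ^ (j0 + J)) Y).filter P, 1 / (p : ℝ) := by
        rw [← nsmul_eq_mul, ← Finset.sum_const]
        refine Finset.sum_le_sum fun p hp => ?_
        obtain ⟨hp1, hp2⟩ := Finset.mem_Ioc.1 (Finset.mem_filter.1 hp).1
        have hp0 : (0 : ℝ) < p := by exact_mod_cast (by omega : 0 < p)
        exact one_div_le_one_div_of_le hp0 (by exact_mod_cast hp2)
      have hlY : Real.log Y = (j0 + (J + 1)) * Real.log K := by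
        rw [hY]
        push_cast
        rw [Real.log_pow]
        push_cast
        ring
      refine le_trans ?_ h2
      have h3 : (Y : ℝ) / (K * Real.log Y) * (1 / Y) = 1 / (K * Real.log Y) := by
        field_simp
      have h4 : (Y : ℝ) / (K * Real.log Y) * (1 / Y) ≤
          (((Ioc (K ^ (j0 + J)) Y).filter P).card : ℝ) * (1 / Y) :=
        mul_le_mul_of_nonneg_right h1 (by positivity)
      rw [h3] at h4
      refine le_trans ?_ h4
      rw [hc, hlY, one_div_mul_one_div]
      refine one_div_le_one_div_of_le (by positivity) ?_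
      have h5 : (0 : ℝ) ≤ j0 := by positivity
      have h6 : (0 : ℝ) ≤ J := by positivity
      have h7 : ((j0 : ℝ) + (J + 1)) ≤ (j0 + 1) * (J + 1) := by nlinarith
      have h8 : 0 < K * Real.log K := by positivity
      calc K * (((j0 : ℝ) + (J + 1)) * Real.log K) = ((j0 : ℝ) + (J + 1)) * (K * Real.log K) := by ring
        _ ≤ (j0 + 1) * (J + 1) * (K * Real.log K) := mul_le_mul_of_nonneg_right h7 h8.le
        _ = (j0 + 1) * (K * Real.log K) * (J + 1) := by ring
  have hT := Real.tendsto_sum_range_one_div_nat_succ_atTop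
  obtain ⟨J, hJ⟩ := (hT.eventually_ge_atTop (B / c)).exists
  refine ⟨(Ioc (K ^ j0) (K ^ (j0 + J))).filter P, fun p hp => ?_, ?_⟩
  · obtain ⟨hp1, hp2⟩ := Finset.mem_filter.1 hp
    have h1 := (Finset.mem_Ioc.1 hp1).1
    have h2 := hpow j0
    exact ⟨hp2.1, hp2.2, by omega⟩
  · refine le_trans ?_ (key J)
    rw [div_le_iff₀ hcpos] at hJ
    linarith

/-- primes with small product of `1 - 1 / p`, i.e. few residues coprime to their product -/
theorem tot_ap (m : ℕ) [NeZero m] (a : ZMod m) (ha : IsUnit a) (q0 : ℕ) (δ : ℝ) (hδ : 0 < δ) :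
    ∃ S : Finset ℕ, (∀ p ∈ S, p.Prime ∧ (p : ZMod m) = a ∧ q0 < p) ∧
      (((∏ p ∈ S, p).totient : ℕ) : ℝ) ≤ δ * ((∏ p ∈ S, p : ℕ) : ℝ) := by
  obtain ⟨S, hS, hB⟩ := div_ap m a ha q0 (-Real.log δ)
  refine ⟨S, hS, ?_⟩
  have h1 := Nat.totient_eq_mul_prod_factors (∏ p ∈ S, p)
  rw [Nat.primeFactors_prod fun p hp => (hS p hp).1] at h1
  have h2 : (((∏ p ∈ S, p).totient : ℕ) : ℝ) =
      ((∏ p ∈ S, p : ℕ) : ℝ) * ∏ p ∈ S, (1 - ((p : ℝ))⁻¹) := by
    have h3 := congrArg (fun x : ℚ => (x : ℝ)) h1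
    push_cast at h3 ⊢
    exact h3
  rw [h2, mul_comm]
  refine mul_le_mul_of_nonneg_right ?_ (by positivity)
  calc ∏ p ∈ S, (1 - ((p : ℝ))⁻¹) ≤ ∏ p ∈ S, Real.exp (-(1 / (p : ℝ))) := by
        refine Finset.prod_le_prod (fun p hp => ?_) fun p hp => ?_
        · have : (1 : ℝ) ≤ p := by exact_mod_cast (hS p hp).1.one_lt.le
          rw [sub_nonneg]
          exact inv_le_one_of_one_le₀ this
        · rw [one_div]
          exact Real.one_sub_le_exp_neg _
    _ = Real.exp (-∑ p ∈ S, 1 / (p : ℝ)) := by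
        rw [← Real.exp_sum, Finset.sum_neg_distrib]
    _ ≤ Real.exp (Real.log δ) := Real.exp_le_exp.2 (by linarith)
    _ = δ := Real.exp_log hδ

/-- `K` disjoint such sets -/
theorem sets_ap (m : ℕ) [NeZero m] (a : ZMod m) (ha : IsUnit a) (q0 : ℕ) (δ : ℝ) (hδ : 0 < δ)
    (K : ℕ) : ∃ S : ℕ → Finset ℕ,
      (∀ j < K, (∀ p ∈ S j, p.Prime ∧ (p : ZMod m) = a ∧ q0 < p) ∧
        (((∏ p ∈ S j, p).totient : ℕ) : ℝ) ≤ δ * ((∏ p ∈ S j, p : ℕ) : ℝ)) ∧
      ∀ i < K, ∀ j < K, i ≠ j → Disjoint (S i) (S j) := by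
  classical
  induction K with
  | zero => exact ⟨fun _ => ∅, by simp, by simp⟩
  | succ K ih =>
    obtain ⟨S, hS, hd⟩ := ih
    obtain ⟨T, hT, hTt⟩ := tot_ap m a ha (q0 + ∑ j ∈ range K, ∑ p ∈ S j, p) δ hδ
    refine ⟨Function.update S K T, fun j hj => ?_, ?_⟩
    · rcases Nat.lt_or_ge j K with h | h
      · rw [Function.update_of_ne (by omega)]
        exact hS j h
      · have : j = K := by omega
        subst this
        rw [Function.update_self]
        exact ⟨fun p hp => ⟨(hT p hp).1, (hT p hp).2.1, by have := (hT p hp).2.2; omega⟩, hTt⟩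
    · have key : ∀ i < K, Disjoint (S i) T := by
        intro i hi
        rw [Finset.disjoint_left]
        intro p hp hpT
        have h1 := (hT p hpT).2.2
        have h2 : p ≤ ∑ p ∈ S i, p := Finset.single_le_sum (f := fun p => p) (fun _ _ => Nat.zero_le _) hp
        have h3 : ∑ p ∈ S i, p ≤ ∑ j ∈ range K, ∑ p ∈ S j, p :=
          Finset.single_le_sum (f := fun j => ∑ p ∈ S j, p) (fun _ _ => Nat.zero_le _)
            (Finset.mem_range.2 hi)
        omega
      intro i hi j hj hij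
      rcases Nat.lt_or_ge i K with h | h <;> rcases Nat.lt_or_ge j K with h' | h'
      · rw [Function.update_of_ne (by omega), Function.update_of_ne (by omega)]
        exact hd i h j h' hij
      · have : j = K := by omega
        subst this
        rw [Function.update_of_ne (by omega), Function.update_self]
        exact key i h
      · have : i = K := by omega
        subst this
        rw [Function.update_self, Function.update_of_ne (by omega)]
        exact (key j h').symm
      · omega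

end Pool.Agent.PFO
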