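import Pool.Agent.PFO.Sum

/-!
# The polynomials `(x - c) ^ d + c`
-/

set_option autoImplicit false

open Finset Polynomial

namespace Pool.Agent.PFO

/-! ### residue classes with a prescribed quadratic character -/

theorem jac_class {m q z : ℕ} (h : q ≡ z [MOD m]) : jacobiSym q m = jacobiSym z m :=
  jacobiSym.mod_left' (by exact_mod_cast h)

theorem jac_odd {m q : ℕ} (hm : Odd m) (hq : q % 4 = 3) (h : m ∣ q + 1) :
    jacobiSym m q = 1 := by
  have hqo : Odd q := Nat.odd_iff.2 (by omega)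
  have h1 : jacobiSym q m = jacobiSym (-1) m := by
    refine jacobiSym.mod_left' ?_
    rw [Int.emod_eq_emod_iff_emod_sub_eq_zero, sub_neg_eq_add]
    have h2 : (m : ℤ) ∣ (q : ℤ) + 1 := by exact_mod_cast h
    exact Int.emod_eq_zero_of_dvd h2
  have h3 : m % 4 = 1 ∨ m % 4 = 3 := by
    have := Nat.odd_iff.1 hm
    omega
  rcases h3 with h3 | h3
  · rw [jacobiSym.quadratic_reciprocity_one_mod_four h3 hqo, h1, jacobiSym.at_neg_one hm,
      ZMod.χ₄_nat_one_mod_four h3]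
  · rw [jacobiSym.quadratic_reciprocity_three_mod_four h3 hq, h1, jacobiSym.at_neg_one hm,
      ZMod.χ₄_nat_three_mod_four h3, neg_neg]

theorem jac_one {m q : ℕ} (hm : Odd m) (hq : q % 4 = 1) (h : q ≡ 1 [MOD m]) :
    jacobiSym m q = 1 := by
  rw [jacobiSym.quadratic_reciprocity_one_mod_four' hm hq, jac_class h, Nat.cast_one,
    jacobiSym.one_left]

theorem jac_two {q : ℕ} (hq : q % 8 = 3 ∨ q % 8 = 5) : jacobiSym 2 q = -1 := by
  have hqo : Odd q := Nat.odd_iff.2 (by omega)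
  rw [jacobiSym.at_two hqo, ZMod.χ₈_nat_mod_eight]
  rcases hq with hq | hq <;> rw [hq] <;> decide

theorem crt3 {N l : ℕ} (hN : Odd N) (hl : Odd l) (hc : N.Coprime l) (x y z : ℕ)
    (hx : x.Coprime 8) (hy : y.Coprime N) (hz : z.Coprime l) :
    ∃ b : ℕ, b.Coprime (8 * (N * l)) ∧ b ≡ x [MOD 8] ∧ b ≡ y [MOD N] ∧ b ≡ z [MOD l] := by
  obtain ⟨v, hv1, hv2⟩ := Nat.chineseRemainder hc y z
  have h8 : Nat.Coprime 8 (N * l) := by
    have h1 : Nat.Coprime (2 ^ 3) (N * l) :=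
      Nat.Coprime.pow_left 3 ((Nat.coprime_two_left).2 (hN.mul hl))
    exact h1
  obtain ⟨b, hb1, hb2⟩ := Nat.chineseRemainder h8 x v
  have h2 : b ≡ y [MOD N] := (hb2.of_dvd (dvd_mul_right N l)).trans hv1
  have h3 : b ≡ z [MOD l] := (hb2.of_dvd (dvd_mul_left l N)).trans hv2
  refine ⟨b, ?_, hb1, h2, h3⟩
  refine Nat.Coprime.mul_right ?_ (Nat.Coprime.mul_right ?_ ?_)
  · rw [Nat.Coprime, hb1.gcd_eq]; exact hx
  · rw [Nat.Coprime, h2.gcd_eq]; exact hy
  · rw [Nat.Coprime, h3.gcd_eq]; exact hz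

theorem pred_coprime {N : ℕ} (hN : 0 < N) : (N - 1).Coprime N := by
  have h2 : Nat.Coprime (N - 1) (N - 1 + 1) := by simp
  rwa [Nat.sub_add_cancel hN] at h2

theorem dvd_succ {N q : ℕ} (hN : 0 < N) (h : q ≡ N - 1 [MOD N]) : N ∣ q + 1 := by
  have h1 := h.add_right 1
  rw [Nat.sub_add_cancel hN] at h1
  exact Nat.modEq_zero_iff_dvd.1 (h1.trans (Nat.modEq_zero_iff_dvd.2 dvd_rfl))

/-- a number which is not a square modulo an odd prime -/
theorem exists_non {l : ℕ} [Fact l.Prime] (hl : Odd l) :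
    ∃ z : ℕ, z.Coprime l ∧ jacobiSym z l = -1 := by
  obtain ⟨a, ha⟩ := FiniteField.exists_nonsquare (F := ZMod l) (by
    rw [ZMod.ringChar_zmod_n]
    rintro rfl
    exact absurd hl (by decide))
  have hcast : (((a.val : ℕ) : ℤ) : ZMod l) = a := by
    rw [Int.cast_natCast, ZMod.natCast_val, ZMod.cast_id]
  have h1 : legendreSym l ((a.val : ℕ) : ℤ) = -1 := by
    rw [legendreSym.eq_neg_one_iff, hcast]
    exact ha
  refine ⟨a.val, ?_, ?_⟩
  · have ha0 : a ≠ 0 := by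
      rintro rfl
      exact ha (by simp)
    rw [Nat.coprime_comm, Nat.Prime.coprime_iff_not_dvd Fact.out]
    intro hd
    have h2 := Nat.le_of_dvd (Nat.pos_of_ne_zero ((ZMod.val_ne_zero a).2 ha0)) hd
    have h3 := ZMod.val_lt a
    omega
  · rw [← jacobiSym.legendreSym.to_jacobiSym]
    exact h1

/-- for a squarefree `a > 1`: a residue class with `q ≡ 3 (mod 4)` and `(a / q) = -1`, and one with
`q ≡ 5 (mod 8)` and `(a / q) = -1` -/
theorem classes {a : ℕ} (ha : Squarefree a) (h1 : 1 < a) :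
    (∃ M b : ℕ, 0 < M ∧ b.Coprime M ∧ ∀ q, q ≡ b [MOD M] → q % 4 = 3 ∧ jacobiSym a q = -1) ∧
    ∃ M b : ℕ, 0 < M ∧ b.Coprime M ∧ ∀ q, q ≡ b [MOD M] → q % 8 = 5 ∧ jacobiSym a q = -1 := by
  rcases Nat.even_or_odd a with hev | hod
  · obtain ⟨m, hm⟩ := hev.two_dvd
    have hmo : Odd m := by
      rw [← Nat.not_even_iff_odd]
      intro he
      obtain ⟨t, ht⟩ := he.two_dvd
      have h2 := ha 2 ⟨t, by rw [hm, ht]; ring⟩
      exact absurd (Nat.isUnit_iff.1 h2) (by decide)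
    have e : (a : ℤ) = 2 * (m : ℤ) := by rw [hm]; push_cast; ring
    constructor
    · obtain ⟨b, hb, b1, b2, -⟩ := crt3 (N := m) (l := 1) hmo odd_one (Nat.coprime_one_right m)
        3 (m - 1) 0 (by decide) (pred_coprime hmo.pos) (by decide)
      refine ⟨8 * (m * 1), b, by have := hmo.pos; positivity, hb, fun q hq => ?_⟩
      have hq8 : q % 8 = 3 := (hq.of_dvd (dvd_mul_right 8 _)).trans b1
      have hqm : q ≡ m - 1 [MOD m] :=
        (hq.of_dvd ((dvd_mul_right m 1).trans (dvd_mul_left _ 8))).trans b2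
      refine ⟨by omega, ?_⟩
      rw [e, jacobiSym.mul_left, jac_two (Or.inl hq8),
        jac_odd hmo (by omega) (dvd_succ hmo.pos hqm), mul_one]
    · obtain ⟨b, hb, b1, b2, -⟩ := crt3 (N := m) (l := 1) hmo odd_one (Nat.coprime_one_right m)
        5 1 0 (by decide) (Nat.coprime_one_left m) (by decide)
      refine ⟨8 * (m * 1), b, by have := hmo.pos; positivity, hb, fun q hq => ?_⟩
      have hq8 : q % 8 = 5 := (hq.of_dvd (dvd_mul_right 8 _)).trans b1
      have hqm : q ≡ 1 [MOD m] :=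
        (hq.of_dvd ((dvd_mul_right m 1).trans (dvd_mul_left _ 8))).trans b2
      refine ⟨hq8, ?_⟩
      rw [e, jacobiSym.mul_left, jac_two (Or.inr hq8), jac_one hmo (by omega) hqm, mul_one]
  · obtain ⟨l, hl, m, hm⟩ := Nat.exists_prime_and_dvd (show a ≠ 1 by omega)
    have : Fact l.Prime := ⟨hl⟩
    have hlo : Odd l := Odd.of_dvd_nat hod ⟨m, hm⟩
    have hmo : Odd m := Odd.of_dvd_nat hod ⟨l, by rw [hm, mul_comm]⟩
    have hml : m.Coprime l := by
      rw [Nat.coprime_comm, Nat.Prime.coprime_iff_not_dvd hl]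
      rintro ⟨t, ht⟩
      have h2 := ha l ⟨t, by rw [hm, ht]; ring⟩
      exact hl.ne_one (Nat.isUnit_iff.1 h2)
    have e : (a : ℤ) = (l : ℤ) * (m : ℤ) := by rw [hm]; push_cast; ring
    obtain ⟨z, hz, hzl⟩ := exists_non hlo
    constructor
    · obtain ⟨w, hw, hwl⟩ : ∃ w : ℕ, w.Coprime l ∧ ∀ q : ℕ, q % 4 = 3 → q ≡ w [MOD l] →
          jacobiSym l q = -1 := by
        have h3 : l % 4 = 1 ∨ l % 4 = 3 := by
          have := Nat.odd_iff.1 hlo
          omega
        rcases h3 with h3 | h3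
        · refine ⟨z, hz, fun q hq hql => ?_⟩
          rw [jacobiSym.quadratic_reciprocity_one_mod_four h3 (Nat.odd_iff.2 (by omega)),
            jac_class hql, hzl]
        · refine ⟨1, Nat.coprime_one_left l, fun q hq hql => ?_⟩
          rw [jacobiSym.quadratic_reciprocity_three_mod_four h3 hq, jac_class hql, Nat.cast_one,
            jacobiSym.one_left]
      obtain ⟨b, hb, b1, b2, b3⟩ := crt3 hmo hlo hml 3 (m - 1) w (by decide)
        (pred_coprime hmo.pos) hw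
      refine ⟨8 * (m * l), b, by have := hmo.pos; have := hl.pos; positivity, hb, fun q hq => ?_⟩
      have hq8 : q % 8 = 3 := (hq.of_dvd (dvd_mul_right 8 _)).trans b1
      have hqm : q ≡ m - 1 [MOD m] :=
        (hq.of_dvd ((dvd_mul_right m l).trans (dvd_mul_left _ 8))).trans b2
      have hql : q ≡ w [MOD l] :=
        (hq.of_dvd ((dvd_mul_left l m).trans (dvd_mul_left _ 8))).trans b3
      refine ⟨by omega, ?_⟩
      rw [e, jacobiSym.mul_left, hwl q (by omega) hql,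
        jac_odd hmo (by omega) (dvd_succ hmo.pos hqm), mul_one]
    · obtain ⟨b, hb, b1, b2, b3⟩ := crt3 hmo hlo hml 5 1 z (by decide)
        (Nat.coprime_one_left m) hz
      refine ⟨8 * (m * l), b, by have := hmo.pos; have := hl.pos; positivity, hb, fun q hq => ?_⟩
      have hq8 : q % 8 = 5 := (hq.of_dvd (dvd_mul_right 8 _)).trans b1
      have hqm : q ≡ 1 [MOD m] :=
        (hq.of_dvd ((dvd_mul_right m l).trans (dvd_mul_left _ 8))).trans b2
      have hql : q ≡ z [MOD l] :=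
        (hq.of_dvd ((dvd_mul_left l m).trans (dvd_mul_left _ 8))).trans b3
      refine ⟨hq8, ?_⟩
      rw [e, jacobiSym.mul_left, jac_one hmo (by omega) hqm,
        jacobiSym.quadratic_reciprocity_one_mod_four' hlo (by omega), jac_class hql, hzl, mul_one]

/-! ### the orbit of `0` -/

/-- if `c ^ w = -1` modulo `q` with `w` odd and prime to `d` then `0` is periodic modulo `q` -/
theorem zero_of_pow {q : ℕ} [Fact q.Prime] (hq2 : 2 < q) {c d w : ℕ} (hd : 0 < d) (hw : Odd w)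
    (hpow : (c : ZMod q) ^ w = -1) (hcd : d.Coprime w) :
    ∃ k : ℕ, 0 < k ∧
      (q : ℤ) ∣ (fun z : ℤ => ((X - C (c : ℤ)) ^ d + C (c : ℤ) : ℤ[X]).eval z)^[k] 0 := by
  have hneg : (-1 : ZMod q) ≠ 1 := by
    have : Fact (2 < q) := ⟨hq2⟩
    exact ZMod.neg_one_ne_one
  set r := orderOf ((c : ZMod q) ^ 2) with hr
  have hr1 : r ∣ w := by
    refine orderOf_dvd_of_pow_eq_one ?_
    rw [← pow_mul, mul_comm, pow_mul, hpow]
    norm_num
  have hro : Odd r := Odd.of_dvd_nat hw hr1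
  have hdr : d.Coprime r := Nat.Coprime.coprime_dvd_right hr1 hcd
  have hcr : (c : ZMod q) ^ r = -1 := by
    have h1 : ((c : ZMod q) ^ r) ^ 2 = 1 := by
      rw [← pow_mul, mul_comm, pow_mul, hr]
      exact pow_orderOf_eq_one _
    rw [sq] at h1
    rcases mul_self_eq_one_iff.1 h1 with h2 | h2
    · exfalso
      obtain ⟨s, hs⟩ := hr1
      rw [hs, pow_mul, h2, one_pow] at hpow
      exact hneg hpow.symm
    · exact h2
  refine ⟨r.totient, Nat.totient_pos.2 hro.pos, ?_⟩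
  set n := r.totient
  have hmod := Nat.ModEq.pow_totient hdr
  obtain ⟨t, ht⟩ : ∃ t, d ^ n = r * t + 1 := by
    have h1 : 1 ≤ d ^ n := Nat.one_le_pow _ _ hd
    obtain ⟨t, ht⟩ := (Nat.modEq_iff_dvd' h1).1 hmod.symm
    exact ⟨t, by omega⟩
  have hpoly : ((X - C (c : ℤ)) ^ d + C (c : ℤ) : ℤ[X]) =
      (X + C (-(c : ℤ))) ^ d - C (-(c : ℤ)) := by
    rw [map_neg, sub_neg_eq_add, ← sub_eq_add_neg]
  rw [hpoly, iter_shift, zero_add, sub_neg_eq_add, ← ZMod.intCast_zmod_eq_zero_iff_dvd]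
  push_cast
  have h1 : (-(c : ZMod q)) ^ d ^ n = (-1) ^ (d ^ n + t) * c := by
    rw [neg_pow, pow_add, ht, pow_succ (c : ZMod q), pow_mul (c : ZMod q), hcr]
    ring
  have h2 : Odd (d ^ n + t) := by
    rw [ht]
    obtain ⟨k, hk⟩ := hro
    refine ⟨k * t + t, ?_⟩
    rw [hk]
    ring
  rw [h1, h2.neg_one_pow]
  ring

theorem pow_of_jac {s q : ℕ} [Fact q.Prime] (h : jacobiSym s q = -1) :
    (s : ZMod q) ^ (q / 2) = -1 := by
  have h2 := legendreSym.eq_pow q (s : ℤ)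
  rw [jacobiSym.legendreSym.to_jacobiSym, h] at h2
  push_cast at h2
  exact h2.symm

/-- the squarefree part decides -/
theorem jac_sqf {s a b q : ℕ} [Fact q.Prime] (hs : b ^ 2 * a = s) (hb : 0 < b) (hbq : b < q) :
    jacobiSym s q = jacobiSym a q := by
  have hc : ((b : ℤ)).gcd q = 1 := by
    rw [Int.gcd_natCast_natCast]
    have h1 : Nat.Coprime q b := (Nat.Prime.coprime_iff_not_dvd Fact.out).2 fun h =>
      absurd (Nat.le_of_dvd hb h) (not_le.2 hbq)
    exact h1.symm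
  have e : (s : ℤ) = (b : ℤ) ^ 2 * (a : ℤ) := by rw [← hs]; push_cast; ring
  rw [e, jacobiSym.mul_left, jacobiSym.sq_one' hc, one_mul]

theorem fermat_zeroPeriodic (c i : ℕ) (hc : 0 < c) (h4 : ∀ t : ℕ, c ≠ t ^ 4) :
    ZeroPeriodic ((X - C (c : ℤ)) ^ (2 ^ i) + C (c : ℤ)) := by
  have hcop : ∀ w : ℕ, Odd w → (2 ^ i).Coprime w := fun w hw =>
    Nat.Coprime.pow_left i ((Nat.coprime_two_left).2 hw)
  have hpos : 0 < 2 ^ i := by positivity
  by_cases hsq : ∃ s : ℕ, c = s ^ 2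
  · obtain ⟨s, hs⟩ := hsq
    have hs0 : s ≠ 0 := by rintro rfl; simp at hs; omega
    obtain ⟨a, b, hab, ha⟩ := Nat.sq_mul_squarefree s
    have hb0 : 0 < b := Nat.pos_of_ne_zero fun h => hs0 (by rw [← hab, h]; ring)
    have ha0 : 0 < a := Nat.pos_of_ne_zero fun h => hs0 (by rw [← hab, h]; ring)
    have ha1 : 1 < a := by
      by_contra hlt
      have : a = 1 := by omega
      exact h4 b (by rw [hs, ← hab, this]; ring)
    obtain ⟨-, M, e, hM, he, hq⟩ := classes ha ha1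
    refine ⟨M, e, b + 2, hM, he, fun q hqp hqm hqb => ?_⟩
    have : Fact q.Prime := ⟨hqp⟩
    obtain ⟨hq8, hj⟩ := hq q hqm
    rw [← jac_sqf hab hb0 (by omega)] at hj
    have hp := pow_of_jac hj
    refine zero_of_pow (w := q / 4) (by omega) hpos (Nat.odd_iff.2 (by omega)) ?_
      (hcop _ (Nat.odd_iff.2 (by omega)))
    have h2 : 2 * (q / 4) = q / 2 := by omega
    rw [hs]
    push_cast
    rw [← pow_mul, h2, hp]
  · obtain ⟨a, b, hab, ha⟩ := Nat.sq_mul_squarefree c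
    have hb0 : 0 < b := Nat.pos_of_ne_zero fun h => by
      rw [h] at hab; simp at hab; omega
    have ha0 : 0 < a := Nat.pos_of_ne_zero fun h => by
      rw [h] at hab; simp at hab; omega
    have ha1 : 1 < a := by
      by_contra hlt
      have : a = 1 := by omega
      exact hsq ⟨b, by rw [← hab, this, mul_one]⟩
    obtain ⟨⟨M, e, hM, he, hq⟩, -⟩ := classes ha ha1
    refine ⟨M, e, b + 2, hM, he, fun q hqp hqm hqb => ?_⟩
    have : Fact q.Prime := ⟨hqp⟩
    obtain ⟨hq4, hj⟩ := hq q hqm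
    rw [← jac_sqf hab hb0 (by omega)] at hj
    exact zero_of_pow (w := q / 2) (by omega) hpos (Nat.odd_iff.2 (by omega)) (pow_of_jac hj)
      (hcop _ (Nat.odd_iff.2 (by omega)))

end Pool.Agent.PFO
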