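import Pool.Agent.PFO.Fer

/-!
# The polynomials `(x - c) ^ d + c`, all exponents `d`
-/

set_option autoImplicit false

open Finset Polynomial

namespace Pool.Agent.PFO

/-- the class of `b` modulo `8 a`, if `(a / b) = -1`, together with the class of `-1` modulo `D` -/
theorem class_add {a D b : ℕ} (h1 : 0 < a) (hD : Odd D) (hc : D.Coprime a) (hb : Odd b)
    (hj : jacobiSym a b = -1) :
    ∃ M e : ℕ, 0 < M ∧ e.Coprime M ∧ ∀ q, q ≡ e [MOD M] → q % 8 = b % 8 ∧ jacobiSym a q = -1 ∧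
      D ∣ q + 1 := by
  have hba : b.Coprime a := by
    by_contra hcon
    have h2 : jacobiSym a b = 0 := by
      refine jacobiSym.eq_zero_iff.2 ⟨hb.pos.ne', ?_⟩
      rw [Int.gcd_natCast_natCast, Nat.gcd_comm]
      exact hcon
    rw [h2] at hj
    exact absurd hj (by decide)
  have hD8 : Nat.Coprime 8 D := by
    have h2 : Nat.Coprime (2 ^ 3) D := Nat.Coprime.pow_left 3 ((Nat.coprime_two_left).2 hD)
    exact h2
  have hb8 : b.Coprime 8 := by
    have h2 : b.Coprime (2 ^ 3) := Nat.Coprime.pow_right 3 ((Nat.coprime_two_right).2 hb)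
    exact h2
  have hcop : Nat.Coprime (8 * a) D := Nat.Coprime.mul_left hD8 hc.symm
  obtain ⟨e, he1, he2⟩ := Nat.chineseRemainder hcop b (D - 1)
  refine ⟨8 * a * D, e, by have := hD.pos; positivity, ?_, fun q hq => ?_⟩
  · refine Nat.Coprime.mul_right ?_ ?_
    · rw [Nat.Coprime, he1.gcd_eq]
      exact Nat.Coprime.mul_right hb8 hba
    · rw [Nat.Coprime, he2.gcd_eq]
      exact pred_coprime hD.pos
  · have hq1 : q ≡ b [MOD 8 * a] := (hq.of_dvd (dvd_mul_right _ _)).trans he1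
    have hq8 : q % 8 = b % 8 := hq1.of_dvd (dvd_mul_right 8 a)
    have hqo : Odd q := by
      have := Nat.odd_iff.1 hb
      exact Nat.odd_iff.2 (by omega)
    refine ⟨hq8, ?_, dvd_succ hD.pos ((hq.of_dvd (dvd_mul_left _ _)).trans he2)⟩
    have hq4 : q ≡ b [MOD 4 * a] := hq1.of_dvd ⟨2, by ring⟩
    rw [jacobiSym.mod_right' a hqo, ← hj, jacobiSym.mod_right' a hb]
    have h5 : q % (4 * a) = b % (4 * a) := hq4
    rw [h5]

/-- the orders are prime to the exponent -/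
theorem cop_exp {d D w q : ℕ} (hw : Odd w) (hd : ∀ p : ℕ, p.Prime → p ∣ d → p = 2 ∨ p ∣ D)
    (hq : D ∣ q + 1) (hwq : w ∣ q - 1) (hq0 : 0 < q) : d.Coprime w := by
  refine Nat.Coprime.symm (Nat.coprime_of_dvd fun p hp hpw hpd => ?_)
  have hp2 : p ≠ 2 := by
    rintro rfl
    exact (Nat.not_even_iff_odd.2 hw) (even_iff_two_dvd.2 hpw)
  rcases hd p hp hpd with h | h
  · exact hp2 h
  · have h1 : p ∣ q + 1 := h.trans hq
    have h2 : p ∣ q - 1 := hpw.trans hwq
    have h3 : p ∣ (q + 1) - (q - 1) := Nat.dvd_sub h1 h2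
    have h4 : (q + 1) - (q - 1) = 2 := by omega
    rw [h4] at h3
    exact hp2 ((Nat.prime_dvd_prime_iff_eq hp Nat.prime_two).1 h3)

theorem power_zeroPeriodic (c d : ℕ) (hc : 0 < c) (hd : 0 < d) (h4 : ∀ t : ℕ, c ≠ t ^ 4)
    (hcd : ∀ p : ℕ, p.Prime → p ∣ c → p ∣ d → p = 2) :
    ZeroPeriodic ((X - C (c : ℤ)) ^ d + C (c : ℤ)) := by
  obtain ⟨k, D, hDo, hDd⟩ := Nat.exists_eq_two_pow_mul_odd hd.ne'
  have hdp : ∀ p : ℕ, p.Prime → p ∣ d → p = 2 ∨ p ∣ D := by
    intro p hp hpd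
    rw [hDd] at hpd
    rcases (Nat.Prime.dvd_mul hp).1 hpd with h | h
    · exact Or.inl ((Nat.prime_dvd_prime_iff_eq hp Nat.prime_two).1 (hp.dvd_of_dvd_pow h))
    · exact Or.inr h
  have hDc : D.Coprime c := by
    refine Nat.coprime_of_dvd fun p hp hpD hpc => ?_
    have h1 := hcd p hp hpc (hpD.trans ⟨2 ^ k, by rw [hDd]; ring⟩)
    rw [h1] at hpD
    exact (Nat.not_even_iff_odd.2 hDo) (even_iff_two_dvd.2 hpD)
  by_cases hsq : ∃ s : ℕ, c = s ^ 2
  · obtain ⟨s, hs⟩ := hsq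
    have hs0 : s ≠ 0 := by rintro rfl; simp at hs; omega
    obtain ⟨a, b, hab, ha⟩ := Nat.sq_mul_squarefree s
    have hb0 : 0 < b := Nat.pos_of_ne_zero fun h => hs0 (by rw [← hab, h]; ring)
    have ha0 : 0 < a := Nat.pos_of_ne_zero fun h => hs0 (by rw [← hab, h]; ring)
    have ha1 : 1 < a := by
      by_contra hlt
      have : a = 1 := by omega
      exact h4 b (by rw [hs, ← hab, this]; ring)
    have hDa : D.Coprime a := by
      refine Nat.Coprime.coprime_dvd_right ?_ hDc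
      rw [hs, ← hab]
      exact ⟨b ^ 4 * a, by ring⟩
    obtain ⟨-, M0, e0, -, -, hq0⟩ := classes ha ha1
    obtain ⟨h08, h0j⟩ := hq0 e0 rfl
    obtain ⟨M, e, hM, he, hq⟩ := class_add ha0 hDo hDa (Nat.odd_iff.2 (by omega)) h0j
    refine ⟨M, e, b + 2, hM, he, fun q hqp hqm hqb => ?_⟩
    have : Fact q.Prime := ⟨hqp⟩
    obtain ⟨hq8, hj, hqD⟩ := hq q hqm
    rw [h08] at hq8
    rw [← jac_sqf hab hb0 (by omega)] at hj
    have hp := pow_of_jac hj
    have hwo : Odd (q / 4) := Nat.odd_iff.2 (by omega)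
    refine zero_of_pow (w := q / 4) (by omega) hd hwo ?_
      (cop_exp hwo hdp hqD ⟨4, by omega⟩ hqp.pos)
    have h2 : 2 * (q / 4) = q / 2 := by omega
    rw [hs]
    push_cast
    rw [← pow_mul, h2, hp]
  · obtain ⟨a, b, hab, ha⟩ := Nat.sq_mul_squarefree c
    have hb0 : 0 < b := Nat.pos_of_ne_zero fun h => by
      rw [h] at hab; simp at hab; omega
    have ha0 : 0 < a := Nat.pos_of_ne_zero fun h => by
      rw [h] at hab; simp at hab; omega
    have ha1 : 1 < a := by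
      by_contra hlt
      have : a = 1 := by omega
      exact hsq ⟨b, by rw [← hab, this, mul_one]⟩
    have hDa : D.Coprime a := by
      refine Nat.Coprime.coprime_dvd_right ?_ hDc
      rw [← hab]
      exact ⟨b ^ 2, by ring⟩
    obtain ⟨⟨M0, e0, -, -, hq0⟩, -⟩ := classes ha ha1
    obtain ⟨h04, h0j⟩ := hq0 e0 rfl
    obtain ⟨M, e, hM, he, hq⟩ := class_add ha0 hDo hDa (Nat.odd_iff.2 (by omega)) h0j
    refine ⟨M, e, b + 2, hM, he, fun q hqp hqm hqb => ?_⟩
    have : Fact q.Prime := ⟨hqp⟩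
    obtain ⟨hq8, hj, hqD⟩ := hq q hqm
    rw [← jac_sqf hab hb0 (by omega)] at hj
    have hwo : Odd (q / 2) := Nat.odd_iff.2 (by omega)
    exact zero_of_pow (w := q / 2) (by omega) hd hwo (pow_of_jac hj)
      (cop_exp hwo hdp hqD ⟨2, by omega⟩ hqp.pos)

end Pool.Agent.PFO
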