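import Pool.Agent.PFO.Core

/-!
# Orbits of integer polynomials without primes: growth, primitive primes, escape
-/

set_option autoImplicit false

open Polynomial Finset

namespace Pool.Agent.PFO

/-- the orbit of `0` grows: `|a (k + 1)| ≥ |a k| ^ 2 - 1` -/
theorem step (f : ℤ[X]) (h1 : f.coeff 1 = 0) (h0 : (f.eval 0).natAbs = 1)
    (hinj : Function.Injective fun n => (mp f)^[n] (0 : ℤ)) {k : ℕ} (hk : 0 < k) :
    ((mp f)^[k] 0).natAbs ^ 2 ≤ ((mp f)^[k + 1] 0).natAbs + 1 := by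
  have h2 : (mp f)^[k + 1] (0 : ℤ) ≠ (mp f)^[1] (0 : ℤ) := fun h => by
    have := hinj h
    omega
  rw [Function.iterate_succ_apply'] at h2 ⊢
  rw [Function.iterate_one] at h2
  set x := (mp f)^[k] (0 : ℤ)
  obtain ⟨g, hg⟩ := sq_dvd f h1 x
  have hg0 : g ≠ 0 := by
    rintro rfl
    rw [mul_zero, sub_eq_zero] at hg
    exact h2 hg
  have h3 : (f.eval x - f.eval 0).natAbs = x.natAbs ^ 2 * g.natAbs := by
    rw [hg, Int.natAbs_mul, Int.natAbs_pow]
  have h4 : 1 ≤ g.natAbs := Int.natAbs_pos.2 hg0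
  have h5 : (f.eval x - f.eval 0).natAbs ≤ (f.eval x).natAbs + (f.eval 0).natAbs :=
    Int.natAbs_sub_le _ _
  rw [h3, h0] at h5
  have h6 : x.natAbs ^ 2 * 1 ≤ x.natAbs ^ 2 * g.natAbs := Nat.mul_le_mul_left _ h4
  show x.natAbs ^ 2 ≤ (f.eval x).natAbs + 1
  omega

theorem ne_zero_iter (f : ℤ[X]) (hinj : Function.Injective fun n => (mp f)^[n] (0 : ℤ)) {k : ℕ}
    (hk : 0 < k) : (mp f)^[k] (0 : ℤ) ≠ 0 := fun h => by
  have : k = 0 := hinj (by simpa using h)
  omega

/-- the product of the terms before is smaller -/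
theorem prod_lt (f : ℤ[X]) (h1 : f.coeff 1 = 0) (h0 : (f.eval 0).natAbs = 1)
    (hinj : Function.Injective fun n => (mp f)^[n] (0 : ℤ)) (k : ℕ) :
    ∏ i ∈ Ico 1 (k + 3), ((mp f)^[i] 0).natAbs < ((mp f)^[k + 3] 0).natAbs := by
  have hb1 : ((mp f)^[1] (0 : ℤ)).natAbs = 1 := by rw [Function.iterate_one]; exact h0
  induction k with
  | zero =>
    have e : Ico 1 (0 + 3) = {1, 2} := by decide
    rw [e, Finset.prod_pair (by decide), hb1, one_mul, zero_add]
    have hs := step f h1 h0 hinj (k := 2) (by decide)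
    have hp2 : 0 < ((mp f)^[2] (0 : ℤ)).natAbs :=
      Int.natAbs_pos.2 (ne_zero_iter f hinj (by decide))
    have hp3 : 0 < ((mp f)^[3] (0 : ℤ)).natAbs :=
      Int.natAbs_pos.2 (ne_zero_iter f hinj (by decide))
    rcases Nat.lt_or_ge ((mp f)^[2] (0 : ℤ)).natAbs 2 with hlt | hge
    · have h2 : ((mp f)^[2] (0 : ℤ)).natAbs = 1 := by omega
      rw [h2]
      by_contra hcon
      have h3 : ((mp f)^[3] (0 : ℤ)).natAbs = 1 := by omega
      have n12 : (mp f)^[1] (0 : ℤ) ≠ (mp f)^[2] (0 : ℤ) := fun h => by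
        have := hinj h
        omega
      have n13 : (mp f)^[1] (0 : ℤ) ≠ (mp f)^[3] (0 : ℤ) := fun h => by
        have := hinj h
        omega
      have n23 : (mp f)^[2] (0 : ℤ) ≠ (mp f)^[3] (0 : ℤ) := fun h => by
        have := hinj h
        omega
      omega
    · have h3 : ((mp f)^[2] (0 : ℤ)).natAbs ^ 2 ≤ ((mp f)^[3] (0 : ℤ)).natAbs + 1 := hs
      nlinarith
  | succ k ih =>
    rw [show k + 1 + 3 = (k + 3) + 1 by ring, Finset.prod_Ico_succ_top (by omega)]
    have hs := step f h1 h0 hinj (k := k + 3) (by omega)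
    have hpos : 0 < ∏ i ∈ Ico 1 (k + 3), ((mp f)^[i] (0 : ℤ)).natAbs :=
      Finset.prod_pos fun i hi => Int.natAbs_pos.2 (ne_zero_iter f hinj (by
        have := (Finset.mem_Ico.1 hi).1
        omega))
    set P := ∏ i ∈ Ico 1 (k + 3), ((mp f)^[i] (0 : ℤ)).natAbs
    set b := ((mp f)^[k + 3] (0 : ℤ)).natAbs
    set c := ((mp f)^[k + 3 + 1] (0 : ℤ)).natAbs
    have h2 : P * b ≤ (b - 1) * b := Nat.mul_le_mul_right _ (by omega)
    obtain ⟨t, ht⟩ : ∃ t, b = t + 2 := ⟨b - 2, by omega⟩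
    rw [ht] at h2 hs ⊢
    have e : t + 2 - 1 = t + 1 := by omega
    rw [e] at h2
    nlinarith

/-- primitive prime divisors: for every `k ≥ 3` there is a prime for which `0` has exact period
`k` -/
theorem primitive (f : ℤ[X]) (h1 : f.coeff 1 = 0) (h0 : (f.eval 0).natAbs = 1)
    (hinj : Function.Injective fun n => (mp f)^[n] (0 : ℤ)) (k : ℕ) (hk : 3 ≤ k) :
    ∃ p : ℕ, p.Prime ∧ (p : ℤ) ∣ (mp f)^[k] 0 ∧
      ∀ i, 0 < i → i < k → ¬ (p : ℤ) ∣ (mp f)^[i] 0 := by
  by_contra hcon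
  push Not at hcon
  have h2 := dvd_prod f h1 (k := k) (by omega) fun p hp hpk => by
    obtain ⟨i, hi, hik, h⟩ := hcon p hp hpk
    exact ⟨i, hi, hik, h⟩
  obtain ⟨k', rfl⟩ : ∃ k', k = k' + 3 := ⟨k - 3, by omega⟩
  have h3 := prod_lt f h1 h0 hinj k'
  have hpos : 0 < ∏ i ∈ Ico 1 (k' + 3), ((mp f)^[i] (0 : ℤ)).natAbs :=
    Finset.prod_pos fun i hi => Int.natAbs_pos.2 (ne_zero_iter f hinj (by
      have := (Finset.mem_Ico.1 hi).1
      omega))
  exact absurd (Nat.le_of_dvd hpos h2) (not_le.2 h3)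

/-! ### escape -/

theorem big_one : ∀ (n : ℕ) (p : ℤ[X]), p.natDegree = n → p ≠ 0 →
    ∃ R : ℤ, ∀ x, R ≤ |x| → 1 ≤ |p.eval x| := by
  intro n
  induction n with
  | zero =>
    intro p hp h0
    rw [Polynomial.natDegree_eq_zero] at hp
    obtain ⟨c, rfl⟩ := hp
    refine ⟨0, fun x _ => ?_⟩
    rw [eval_C]
    exact Int.one_le_abs fun h => h0 (by rw [h, map_zero])
  | succ n ih =>
    intro p hp h0
    have hd : p.divX.natDegree = n := by
      rw [natDegree_divX_eq_natDegree_tsub_one, hp]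
      rfl
    have hne : p.divX ≠ 0 := by
      intro h
      have h2 := divX_mul_X_add p
      rw [h, zero_mul, zero_add] at h2
      rw [← h2, natDegree_C] at hp
      omega
    obtain ⟨R, hR⟩ := ih p.divX hd hne
    refine ⟨max R (|p.coeff 0| + 1), fun x hx => ?_⟩
    have h1 := hR x (le_trans (le_max_left _ _) hx)
    have h2 := le_trans (le_max_right _ _) hx
    have e : p.eval x = p.divX.eval x * x + p.coeff 0 := by
      conv_lhs => rw [← divX_mul_X_add p]
      simp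
    rw [e]
    have h3 : |p.divX.eval x * x| ≤ |p.divX.eval x * x + p.coeff 0| + |p.coeff 0| := by
      have := abs_sub_abs_le_abs_sub (p.divX.eval x * x) (-(p.coeff 0))
      rw [abs_neg, sub_neg_eq_add] at this
      linarith
    rw [abs_mul] at h3
    have h4 : |x| ≤ |p.divX.eval x| * |x| := by
      have := mul_le_mul_of_nonneg_right h1 (abs_nonneg x)
      linarith
    linarith

theorem escape (f : ℤ[X]) (hd : 2 ≤ f.natDegree) :
    ∃ R : ℤ, ∀ x, R ≤ |x| → |x| + 1 ≤ |f.eval x| := by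
  have hne : f.divX.divX ≠ 0 := by
    intro h
    have h2 := divX_mul_X_add f.divX
    rw [h, zero_mul, zero_add] at h2
    have h3 : f.divX.natDegree = f.natDegree - 1 := natDegree_divX_eq_natDegree_tsub_one
    rw [← h2, natDegree_C] at h3
    omega
  obtain ⟨R, hR⟩ := big_one _ f.divX.divX rfl hne
  refine ⟨max R (|f.divX.coeff 0| + |f.coeff 0| + 2), fun x hx => ?_⟩
  have h1 := hR x (le_trans (le_max_left _ _) hx)
  have h2 := le_trans (le_max_right _ _) hx
  have e : f.eval x = (f.divX.divX.eval x * x + f.divX.coeff 0) * x + f.coeff 0 := by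
    conv_lhs => rw [← divX_mul_X_add f, ← divX_mul_X_add f.divX]
    simp
  rw [e]
  set u := f.divX.divX.eval x
  set c1 := f.divX.coeff 0
  set c0 := f.coeff 0
  have h3 : |(u * x + c1) * x| ≤ |(u * x + c1) * x + c0| + |c0| := by
    have := abs_sub_abs_le_abs_sub ((u * x + c1) * x) (-c0)
    rw [abs_neg, sub_neg_eq_add] at this
    linarith
  have h4 : |u * x| ≤ |u * x + c1| + |c1| := by
    have := abs_sub_abs_le_abs_sub (u * x) (-c1)
    rw [abs_neg, sub_neg_eq_add] at this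
    linarith
  rw [abs_mul] at h3 h4
  have h5 : |x| ≤ |u| * |x| := by
    have := mul_le_mul_of_nonneg_right h1 (abs_nonneg x)
    linarith
  have h6 : |c0| + 2 ≤ |u * x + c1| := by linarith
  have h7 : (|c0| + 2) * |x| ≤ |u * x + c1| * |x| := mul_le_mul_of_nonneg_right h6 (abs_nonneg x)
  have h8 : 0 ≤ |c0| := abs_nonneg _
  have h9 : 0 ≤ |c1| := abs_nonneg _
  nlinarith

theorem escape_iter (f : ℤ[X]) {R : ℤ} (hR : ∀ x, R ≤ |x| → |x| + 1 ≤ |f.eval x|) {x : ℤ}
    (hx : R ≤ |x|) (n : ℕ) : |x| + n ≤ |(mp f)^[n] x| := by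
  induction n with
  | zero => simp
  | succ n ih =>
    rw [Function.iterate_succ_apply']
    have h1 : R ≤ |(mp f)^[n] x| := by
      have : (0 : ℤ) ≤ n := by positivity
      linarith
    have h2 := hR _ h1
    push_cast
    show |x| + (n + 1) ≤ |f.eval ((mp f)^[n] x)|
    linarith

theorem escape_mono (f : ℤ[X]) {R : ℤ} (hR : ∀ x, R ≤ |x| → |x| + 1 ≤ |f.eval x|) {x : ℤ}
    (hx : R ≤ |x|) : StrictMono fun n => |(mp f)^[n] x| := by
  refine strictMono_nat_of_lt_succ fun n => ?_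
  have h0 := escape_iter f hR hx n
  have h1 : R ≤ |(mp f)^[n] x| := by
    have : (0 : ℤ) ≤ n := by positivity
    linarith
  have h2 := hR _ h1
  rw [Function.iterate_succ_apply']
  show |(mp f)^[n] x| < |f.eval ((mp f)^[n] x)|
  linarith

end Pool.Agent.PFO
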