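import Pool.Agent.PFO.Count
import Pool.Agent.PFO.Defs
import Pool.Agent.PFO.Dick

/-!
# Orbits of permutation polynomials: for almost all starting points almost all terms have many
prime divisors
-/

set_option autoImplicit false

open Finset Polynomial

namespace Pool.Agent.PFO

/-- `f` permutes the residues modulo all large primes `q ≡ b (mod m)`, for some `b` coprime to
`m`. -/
def Permutes (f : ℤ[X]) : Prop :=
  ∃ m b q0 : ℕ, 0 < m ∧ b.Coprime m ∧ ∀ q : ℕ, q.Prime → q ≡ b [MOD m] → q0 < q →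
    ∀ x y : ℤ, (q : ℤ) ∣ f.eval x - f.eval y → (q : ℤ) ∣ x - y

theorem not_prime {x : ℤ} (h : ManyPrimes 2 x) : ¬ Prime x := by
  intro hx
  obtain ⟨T, hT, hp⟩ := h
  have h2 : x.natAbs.Prime := Int.prime_iff_natAbs_prime.1 hx
  have h3 : T ⊆ {x.natAbs} := fun p hpT => by
    have h4 := (hp p hpT).2
    have h5 : p ∣ x.natAbs := by
      have := Int.natAbs_dvd_natAbs.2 h4
      rwa [Int.natAbs_natCast] at this
    exact Finset.mem_singleton.2 ((Nat.prime_dvd_prime_iff_eq (hp p hpT).1 h2).1 h5)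
  have h4 := Finset.card_le_card h3
  rw [Finset.card_singleton] at h4
  omega

/-- the induced map on residues -/
noncomputable def red (f : ℤ[X]) (M : ℕ) : ZMod M → ZMod M :=
  fun x => (f.map (Int.castRingHom (ZMod M))).eval x

theorem red_cast (f : ℤ[X]) (M : ℕ) (x : ℤ) : red f M (x : ZMod M) = ((f.eval x : ℤ) : ZMod M) := by
  unfold red
  exact Polynomial.eval_intCast_map (Int.castRingHom (ZMod M)) f x

theorem red_iter (f : ℤ[X]) (M n : ℕ) (x : ℤ) :
    (red f M)^[n] (x : ZMod M) = (((mp f)^[n] x : ℤ) : ZMod M) := by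
  induction n with
  | zero => rfl
  | succ n ih => rw [Function.iterate_succ_apply', Function.iterate_succ_apply', ih, red_cast]

theorem red_inj (f : ℤ[X]) (U : Finset ℕ) (hU : ∀ p ∈ U, p.Prime)
    (hf : ∀ p ∈ U, ∀ x y : ℤ, (p : ℤ) ∣ f.eval x - f.eval y → (p : ℤ) ∣ x - y) :
    Function.Injective (red f (∏ p ∈ U, p)) := by
  intro x y hxy
  obtain ⟨X', rfl⟩ := ZMod.intCast_surjective x
  obtain ⟨Y', rfl⟩ := ZMod.intCast_surjective y
  rw [red_cast, red_cast, ZMod.intCast_eq_intCast_iff_dvd_sub] at hxy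
  rw [ZMod.intCast_eq_intCast_iff_dvd_sub]
  have h1 : ∏ p ∈ U, p ∣ (Y' - X').natAbs := by
    refine Finset.prod_primes_dvd _ (fun p hp => (hU p hp).prime) fun p hp => ?_
    have h2 : (p : ℤ) ∣ f.eval Y' - f.eval X' :=
      (Int.natCast_dvd_natCast.2 (Finset.dvd_prod_of_mem (fun p => p) hp)).trans hxy
    exact Int.natCast_dvd.1 (hf p hp _ _ h2)
  exact Int.natCast_dvd.2 h1

theorem Permutes.zeroPeriodic {f : ℤ[X]} (hf : Permutes f) : ZeroPeriodic f := by
  obtain ⟨m, b, q0, hm, hb, h⟩ := hf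
  refine ⟨m, b, q0, hm, hb, fun q hq hqm hq0 => ?_⟩
  have : NeZero q := ⟨hq.ne_zero⟩
  have hg : Function.Injective (red f q) := by
    have h1 := red_inj f {q} (fun p hp => by rw [Finset.mem_singleton.1 hp]; exact hq)
      (fun p hp => by rw [Finset.mem_singleton.1 hp]; exact h q hq hqm hq0)
    rwa [Finset.prod_singleton] at h1
  obtain ⟨L, hL, hper⟩ := exists_period hg
  refine ⟨L, hL, ?_⟩
  have h2 := hper ((0 : ℤ) : ZMod q) 0
  rw [zero_add, red_iter, Function.iterate_zero, id, Int.cast_zero] at h2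
  exact (ZMod.intCast_zmod_eq_zero_iff_dvd _ q).1 h2

/-- a common return time of `0` -/
theorem common_return (f : ℤ[X]) (U : Finset ℕ)
    (h : ∀ p ∈ U, ∃ k : ℕ, 0 < k ∧ (p : ℤ) ∣ (mp f)^[k] 0) :
    ∃ k : ℕ, 0 < k ∧ ∀ t : ℕ, ∀ p ∈ U, (p : ℤ) ∣ (mp f)^[k * t] 0 := by
  classical
  choose! k hk hd using h
  refine ⟨∏ p ∈ U, k p, Finset.prod_pos hk, fun t p hp => ?_⟩
  obtain ⟨c, hc⟩ := Finset.dvd_prod_of_mem k hp
  rw [hc, mul_assoc]
  exact dvd_mul_index f (hd p hp) _

/-- eventual periodicity -/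
theorem eventual {M : ℕ} [NeZero M] (g : ZMod M → ZMod M) :
    ∃ p0 L : ℕ, 0 < L ∧ ∀ x n, g^[n + p0 + L] x = g^[n + p0] x := by
  obtain ⟨i, j, hij, h⟩ := Finite.exists_ne_map_eq_of_infinite fun n : ℕ => g^[n]
  have key : ∀ i j : ℕ, i < j → g^[i] = g^[j] →
      ∃ p0 L : ℕ, 0 < L ∧ ∀ x n, g^[n + p0 + L] x = g^[n + p0] x := by
    intro i j hij h
    refine ⟨i, j - i, by omega, fun x n => ?_⟩
    rw [show n + i + (j - i) = n + j by omega, Function.iterate_add_apply,
      Function.iterate_add_apply, h]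
  rcases Nat.lt_or_ge i j with h1 | h1
  · exact key i j h1 h
  · exact key j i (lt_of_le_of_ne h1 (Ne.symm hij)) h.symm

/-- the residues `x` modulo `M` with `x - c` coprime to `a` -/
theorem card_shift_le {M a : ℕ} [NeZero M] (ha : 0 < a) (c : ZMod M) :
    (univ.filter fun x : ZMod M => a.Coprime (x - c).val).card ≤ a.totient * (M / a + 1) := by
  classical
  refine le_trans ?_ (card_coprime_le (M := M) ha)
  refine Finset.card_le_card_of_injOn (fun x => x - c) (fun x hx => ?_) fun x _ y _ h =>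
    sub_left_injective h
  have hx2 := (Finset.mem_filter.1 (Finset.mem_coe.1 hx)).2
  exact Finset.mem_coe.2 (Finset.mem_filter.2 ⟨Finset.mem_univ _, hx2⟩)

/-- a prime divisor `p` of `M` divides the representative of the class of `z` iff it divides
`z` -/
theorem dvd_val {M p : ℕ} [NeZero M] (hp : p ∣ M) (z : ℤ) :
    p ∣ ((z : ZMod M)).val ↔ (p : ℤ) ∣ z := by
  have h4 : (p : ℤ) ∣ (M : ℤ) := Int.natCast_dvd_natCast.2 hp
  have h5 : ((((z : ZMod M)).val : ℤ)) = z % (M : ℤ) := ZMod.val_intCast _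
  rw [← Int.natCast_dvd_natCast, h5]
  exact (Int.dvd_iff_dvd_of_dvd_sub (h4.trans (Int.dvd_self_sub_emod))).symm

/-- the residue classes of starting points -/
theorem almost_all (f : ℤ[X]) (hf : ZeroPeriodic f) (K : ℕ) (ε : ℝ) (hε : 0 < ε) :
    ∃ (M : ℕ) (R : Finset (ZMod M)) (N0 : ℕ), 0 < M ∧ (1 - ε) * M ≤ (R.card : ℝ) ∧
      ∀ x : ℤ, (x : ZMod M) ∈ R → ∀ N : ℕ, N0 ≤ N →
        ((Set.ncard {n | n < N ∧ ¬ ManyPrimes K ((fun z : ℤ => f.eval z)^[n] x)} : ℕ) : ℝ) ≤
          ε * N := by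
  classical
  obtain ⟨m, b, q0, hm, hb, hq⟩ := hf
  have : NeZero m := ⟨hm.ne'⟩
  have hunit : IsUnit (b : ZMod m) := (ZMod.isUnit_iff_coprime b m).2 hb
  set δ : ℝ := (ε / 2) ^ 2 / (4 * (K + 1)) with hδ
  have hδpos : 0 < δ := by positivity
  obtain ⟨S, hS, hd⟩ := sets_ap m (b : ZMod m) hunit q0 δ hδpos K
  set U : Finset ℕ := (range K).biUnion S with hU
  have hmem : ∀ p ∈ U, ∃ j < K, p ∈ S j := by
    intro p hp
    obtain ⟨j, hj, h⟩ := Finset.mem_biUnion.1 hp
    exact ⟨j, Finset.mem_range.1 hj, h⟩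
  have hUp : ∀ p ∈ U, p.Prime := fun p hp => by
    obtain ⟨j, hj, h⟩ := hmem p hp
    exact ((hS j hj).1 p h).1
  have hUf : ∀ p ∈ U, ∃ k : ℕ, 0 < k ∧ (p : ℤ) ∣ (mp f)^[k] 0 := fun p hp => by
    obtain ⟨j, hj, h⟩ := hmem p hp
    obtain ⟨h1, h2, h3⟩ := (hS j hj).1 p h
    exact hq p h1 ((ZMod.natCast_eq_natCast_iff p b m).1 h2) h3
  obtain ⟨k, hk, hret⟩ := common_return f U hUf
  set M := ∏ p ∈ U, p with hM
  have hMpos : 0 < M := Finset.prod_pos fun p hp => (hUp p hp).pos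
  have : NeZero M := ⟨hMpos.ne'⟩
  obtain ⟨p0, L, hL, hper⟩ := eventual (red f M)
  have hdvd : ∀ j < K, (∏ p ∈ S j, p) ∣ M := fun j hj =>
    Finset.prod_dvd_prod_of_subset _ _ _ (Finset.subset_biUnion_of_mem S (Finset.mem_range.2 hj))
  have hpos : ∀ j < K, 0 < ∏ p ∈ S j, p := fun j hj =>
    Finset.prod_pos fun p hp => ((hS j hj).1 p hp).1.pos
  have hSU : ∀ j < K, ∀ p ∈ S j, p ∈ U := fun j hj p hp =>
    Finset.mem_biUnion.2 ⟨j, Finset.mem_range.2 hj, hp⟩
  have hpS : ∀ j < K, ∀ p : ℕ, p.Prime → p ∣ ∏ p ∈ S j, p → p ∈ S j := by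
    intro j hj p hp hp1
    obtain ⟨q, hqS, hpq⟩ := (hp.prime.dvd_finsetProd_iff _).1 hp1
    have := (Nat.prime_dvd_prime_iff_eq hp ((hS j hj).1 q hqS).1).1 hpq
    rwa [this]
  let bad : ZMod M → ℕ → Prop := fun x n => ∃ j < K, (∏ p ∈ S j, p).Coprime ((red f M)^[n] x).val
  have hbad : ∀ n, ((Set.ncard {x | bad x n} : ℕ) : ℝ) ≤ (ε / 2) ^ 2 / 2 * M := by
    intro n
    -- a point whose `n`-th iterate is divisible by all the primes
    set c : ℤ := (mp f)^[k * n - n] 0 with hc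
    have hkn : n ≤ k * n := Nat.le_mul_of_pos_left _ hk
    have hcn : ∀ p ∈ U, (p : ℤ) ∣ (mp f)^[n] c := fun p hp => by
      rw [hc, iter_add, Nat.add_sub_cancel' hkn]
      exact hret n p hp
    have h1 : {x | bad x n} ⊆ (((range K).biUnion fun j => univ.filter fun x : ZMod M =>
        (∏ p ∈ S j, p).Coprime (x - (c : ZMod M)).val : Finset (ZMod M)) : Set (ZMod M)) := by
      rintro x ⟨j, hj, h⟩
      refine Finset.mem_coe.2 (Finset.mem_biUnion.2 ⟨j, Finset.mem_range.2 hj, ?_⟩)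
      refine Finset.mem_filter.2 ⟨Finset.mem_univ _, ?_⟩
      by_contra hcon
      obtain ⟨p, hp, hp1, hp2⟩ := Nat.Prime.not_coprime_iff_dvd.1 hcon
      have hpj := hpS j hj p hp hp1
      obtain ⟨z, rfl⟩ := ZMod.intCast_surjective x
      rw [red_iter] at h
      have hpM : p ∣ M := hp1.trans (hdvd j hj)
      rw [← Int.cast_sub, dvd_val hpM] at hp2
      have h3 := hp2.trans (sub_dvd f n z c)
      have h4 : (p : ℤ) ∣ (mp f)^[n] z := by
        have := dvd_add h3 (hcn p (hSU j hj p hpj))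
        rwa [sub_add_cancel] at this
      have h5 := (dvd_val hpM ((mp f)^[n] z)).2 h4
      exact Nat.Prime.not_coprime_iff_dvd.2 ⟨p, hp, hp1, h5⟩ h
    have h2 := Set.ncard_le_ncard h1 (Finset.finite_toSet _)
    rw [Set.ncard_coe_finset] at h2
    have h3 : ((Set.ncard {x | bad x n} : ℕ) : ℝ) ≤ ∑ j ∈ range K, (2 * δ * M) := by
      have h2' : ((Set.ncard {x | bad x n} : ℕ) : ℝ) ≤ ((∑ j ∈ range K, (univ.filter
          fun x : ZMod M => (∏ p ∈ S j, p).Coprime (x - (c : ZMod M)).val).card : ℕ) : ℝ) :=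
        Nat.cast_le.2 (h2.trans Finset.card_biUnion_le)
      refine h2'.trans ?_
      rw [Nat.cast_sum]
      refine Finset.sum_le_sum fun j hj => ?_
      have hj' := Finset.mem_range.1 hj
      have h4 := card_shift_le (M := M) (hpos j hj') (c : ZMod M)
      have h5 : ((((∏ p ∈ S j, p).totient * (M / (∏ p ∈ S j, p) + 1) : ℕ)) : ℝ) ≤ 2 * δ * M := by
        obtain ⟨c, hc⟩ := hdvd j hj'
        have hc0 : 0 < c := by
          rcases Nat.eq_zero_or_pos c with h | h
          · rw [h, mul_zero] at hc; omega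
          · exact h
        have h6 : M / (∏ p ∈ S j, p) = c := by
          rw [hc]; exact Nat.mul_div_cancel_left _ (hpos j hj')
        rw [h6]
        have h7 := (hS j hj').2
        have h8 : ((c + 1 : ℕ) : ℝ) ≤ 2 * c := by
          have : c + 1 ≤ 2 * c := by omega
          exact_mod_cast this
        have hMc : (M : ℝ) = ((∏ p ∈ S j, p : ℕ) : ℝ) * c := by
          rw [← Nat.cast_mul, ← hc]
        push_cast at h7 h8 hMc ⊢
        rw [hMc]
        have h9 : (0 : ℝ) ≤ (c : ℝ) := by positivity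
        calc (((∏ p ∈ S j, p).totient : ℕ) : ℝ) * ((c : ℝ) + 1)
            ≤ (δ * ∏ p ∈ S j, (p : ℝ)) * (2 * c) :=
              mul_le_mul h7 h8 (by positivity) (by positivity)
          _ = 2 * δ * ((∏ p ∈ S j, (p : ℝ)) * c) := by ring
      refine le_trans ?_ h5
      exact_mod_cast h4
    refine h3.trans ?_
    rw [Finset.sum_const, Finset.card_range, nsmul_eq_mul]
    have h4 : (K : ℝ) * (2 * δ * M) = (K / (K + 1)) * ((ε / 2) ^ 2 / 2 * M) := by
      rw [hδ]
      field_simp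
      ring
    rw [h4]
    have h5 : (K : ℝ) / (K + 1) ≤ 1 := by
      rw [div_le_one (by positivity)]
      linarith
    calc (K : ℝ) / (K + 1) * ((ε / 2) ^ 2 / 2 * M) ≤ 1 * ((ε / 2) ^ 2 / 2 * M) :=
          mul_le_mul_of_nonneg_right h5 (by positivity)
      _ = _ := one_mul _
  have hperb : ∀ x n, bad x (n + L + p0) ↔ bad x (n + p0) := fun x n => by
    show (∃ j < K, (∏ p ∈ S j, p).Coprime ((red f M)^[n + L + p0] x).val) ↔ _
    rw [show n + L + p0 = n + p0 + L by ring, hper]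
  obtain ⟨R, hR, hRN⟩ := average (fun x n => bad x (n + p0)) hL hperb (half_pos hε)
    fun n => hbad (n + p0)
  refine ⟨M, R, max L ⌈2 * p0 / ε⌉₊, hMpos, le_trans ?_ hR, fun x hx N hN => ?_⟩
  · have : (0 : ℝ) ≤ M := by positivity
    nlinarith
  have h0 := hRN _ hx N (le_trans (le_max_left _ _) hN)
  have hN2 : 2 * (p0 : ℝ) / ε ≤ N :=
    (Nat.le_ceil _).trans (by exact_mod_cast le_trans (le_max_right _ _) hN)
  rw [div_le_iff₀ hε] at hN2
  have hsub : {n | n < N ∧ ¬ ManyPrimes K ((fun z : ℤ => f.eval z)^[n] x)} ⊆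
      (range p0 : Finset ℕ) ∪ (fun n => n + p0) '' {n | n < N ∧ bad (x : ZMod M) (n + p0)} := by
    rintro n ⟨hn, hmp⟩
    rcases Nat.lt_or_ge n p0 with hlt | hge
    · exact Or.inl (Finset.mem_coe.2 (Finset.mem_range.2 hlt))
    refine Or.inr ⟨n - p0, ⟨by omega, ?_⟩, Nat.sub_add_cancel hge⟩
    rw [Nat.sub_add_cancel hge]
    by_contra hnb
    apply hmp
    have h1 : ∀ j < K, ∃ p ∈ S j, (p : ℤ) ∣ (mp f)^[n] x := by
      intro j hj
      have h2 : ¬ (∏ p ∈ S j, p).Coprime ((red f M)^[n] (x : ZMod M)).val := fun h =>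
        hnb ⟨j, hj, h⟩
      obtain ⟨p, hp, hp1, hp2⟩ := Nat.Prime.not_coprime_iff_dvd.1 h2
      have h3 : p ∈ S j := hpS j hj p hp hp1
      rw [red_iter, dvd_val (hp1.trans (hdvd j hj))] at hp2
      exact ⟨p, h3, hp2⟩
    choose! q hqS hqd using h1
    refine ⟨(range K).image q, ?_, fun p hp => ?_⟩
    · rw [Finset.card_image_of_injOn, Finset.card_range]
      intro i hi j hj hij
      by_contra hne
      have hi' := Finset.mem_range.1 (Finset.mem_coe.1 hi)
      have hj' := Finset.mem_range.1 (Finset.mem_coe.1 hj)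
      have h2 := Finset.disjoint_left.1 (hd i hi' j hj' hne) (hqS i hi')
      rw [hij] at h2
      exact h2 (hqS j hj')
    · obtain ⟨j, hj, rfl⟩ := Finset.mem_image.1 hp
      have hj' := Finset.mem_range.1 hj
      exact ⟨((hS j hj').1 _ (hqS j hj')).1, hqd j hj'⟩
  have hfin : {n | n < N ∧ bad (x : ZMod M) (n + p0)}.Finite :=
    (Set.finite_lt_nat N).subset fun n hn => hn.1
  have h1 := Set.ncard_le_ncard hsub ((Finset.finite_toSet _).union (hfin.image _))
  have h2 := h1.trans (Set.ncard_union_le _ _)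
  rw [Set.ncard_coe_finset, Finset.card_range] at h2
  have h3 := h2.trans (Nat.add_le_add_left (Set.ncard_image_le hfin) p0)
  have h4 : ((Set.ncard {n | n < N ∧ ¬ ManyPrimes K ((fun z : ℤ => f.eval z)^[n] x)} : ℕ) : ℝ) ≤
      p0 + ((Set.ncard {n | n < N ∧ bad (x : ZMod M) (n + p0)} : ℕ) : ℝ) := by
    exact_mod_cast h3
  linarith

/-! ### compositions of linear polynomials, `x ^ d` and Dickson polynomials -/

theorem pow_inj {q d : ℕ} (hq : q.Prime) (hd0 : 0 < d) (hd : Nat.Coprime (q - 1) d) {u v : ℤ}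
    (h : (q : ℤ) ∣ u ^ d - v ^ d) : (q : ℤ) ∣ u - v := by
  have : Fact q.Prime := ⟨hq⟩
  have h1 : ((u : ZMod q)) ^ d = (v : ZMod q) ^ d := by
    have h2 := (ZMod.intCast_zmod_eq_zero_iff_dvd _ q).2 h
    push_cast at h2
    exact sub_eq_zero.1 h2
  have h3 : ((u - v : ℤ) : ZMod q) = 0 := by
    push_cast
    rw [sub_eq_zero]
    by_cases hv : (v : ZMod q) = 0
    · rw [hv, zero_pow hd0.ne'] at h1
      rw [hv]
      exact (pow_eq_zero_iff hd0.ne').1 h1
    · have h4 : ((u : ZMod q) / v) ^ d = 1 := by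
        rw [div_pow, h1, div_self (pow_ne_zero _ hv)]
      have hne : (u : ZMod q) / v ≠ 0 := by
        intro h0
        rw [h0, zero_pow hd0.ne'] at h4
        exact zero_ne_one h4
      have h5 : ((u : ZMod q) / v) ^ (q - 1) = 1 := ZMod.pow_card_sub_one_eq_one hne
      have h6 : ((u : ZMod q) / v) = 1 := by
        have h7 := orderOf_dvd_of_pow_eq_one h4
        have h8 := orderOf_dvd_of_pow_eq_one h5
        have h9 : orderOf ((u : ZMod q) / v) = 1 := Nat.eq_one_of_dvd_coprimes hd h8 h7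
        exact orderOf_eq_one_iff.1 h9
      rwa [div_eq_one_iff_eq hv] at h6
  exact (ZMod.intCast_zmod_eq_zero_iff_dvd _ q).1 h3

theorem modEq_coprime {q d : ℕ} (hq : q.Prime) (h2 : q ≡ 2 [MOD d]) : Nat.Coprime (q - 1) d := by
  have h3 : q - 1 ≡ 1 [MOD d] := by
    have e : q = (q - 1) + 1 := by have := hq.pos; omega
    rw [e] at h2
    exact Nat.ModEq.add_right_cancel' 1 h2
  have h4 := h3.gcd_eq
  rw [Nat.gcd_one_left] at h4
  exact h4

theorem modEq_coprime_sq {q n : ℕ} (hq : q.Prime) (hn : n.Coprime 6) (h2 : q ≡ 2 [MOD n]) :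
    Nat.Coprime n (q ^ 2 - 1) := by
  have h3 : q ^ 2 - 1 ≡ 3 [MOD n] := by
    have h4 := h2.pow 2
    have e : q ^ 2 = (q ^ 2 - 1) + 1 := by have := pow_pos hq.pos 2; omega
    rw [e] at h4
    exact Nat.ModEq.add_right_cancel' 1 h4
  have h5 : Nat.Coprime n 3 := Nat.Coprime.coprime_dvd_right (by decide) hn
  have h4 := h3.gcd_eq
  rw [Nat.coprime_comm] at h5
  rw [h5] at h4
  rw [Nat.coprime_comm]
  exact h4

theorem composed_inj {f : ℤ[X]} (hf : Composed f) :
    ∃ D q0 : ℕ, Odd D ∧ ∀ q : ℕ, q.Prime → q ≡ 2 [MOD D] → q0 < q →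
      ∀ x y : ℤ, (q : ℤ) ∣ f.eval x - f.eval y → (q : ℤ) ∣ x - y := by
  induction hf with
  | var =>
    refine ⟨1, 0, odd_one, fun q _ _ _ x y h => ?_⟩
    rw [eval_X, eval_X] at h
    exact h
  | power A B d g hA hd hg ih =>
    obtain ⟨D, q0, hD, hq⟩ := ih
    refine ⟨d * D, q0 + A.natAbs + 1, hd.mul hD, fun q hqp hqm hq0 x y h => ?_⟩
    refine hq q hqp (hqm.of_dvd (dvd_mul_left _ _)) (by omega) x y ?_
    simp only [eval_add, eval_mul, eval_pow, eval_C] at h
    have h1 : (q : ℤ) ∣ A * (g.eval x ^ d - g.eval y ^ d) := by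
      have e : A * (g.eval x ^ d - g.eval y ^ d) =
          A * g.eval x ^ d + B - (A * g.eval y ^ d + B) := by ring
      rw [e]
      exact h
    refine pow_inj hqp hd.pos (modEq_coprime hqp (hqm.of_dvd (dvd_mul_right _ _))) ?_
    rcases (Nat.prime_iff_prime_int.1 hqp).dvd_or_dvd h1 with h2 | h2
    · have h3 : q ∣ A.natAbs := Int.natCast_dvd.1 h2
      have h4 := Nat.le_of_dvd (Int.natAbs_pos.2 hA) h3
      omega
    · exact h2
  | dickson A B a n g hA hn hg ih =>
    obtain ⟨D, q0, hD, hq⟩ := ih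
    have hn2 : Odd n := by
      have h5 : Nat.Coprime n 2 := Nat.Coprime.coprime_dvd_right (by decide) hn
      exact Nat.coprime_two_right.1 h5
    refine ⟨n * D, q0 + A.natAbs + a.natAbs + 1, hn2.mul hD, fun q hqp hqm hq0 x y h => ?_⟩
    refine hq q hqp (hqm.of_dvd (dvd_mul_left _ _)) (by omega) x y ?_
    simp only [eval_add, eval_mul, eval_comp, eval_C] at h
    have h1 : (q : ℤ) ∣ A * ((Polynomial.dickson 1 a n).eval (g.eval x) -
        (Polynomial.dickson 1 a n).eval (g.eval y)) := by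
      have e : A * ((Polynomial.dickson 1 a n).eval (g.eval x) -
          (Polynomial.dickson 1 a n).eval (g.eval y)) =
          A * (Polynomial.dickson 1 a n).eval (g.eval x) + B -
          (A * (Polynomial.dickson 1 a n).eval (g.eval y) + B) := by ring
      rw [e]
      exact h
    have h2 : (q : ℤ) ∣ (Polynomial.dickson 1 a n).eval (g.eval x) -
        (Polynomial.dickson 1 a n).eval (g.eval y) := by
      rcases (Nat.prime_iff_prime_int.1 hqp).dvd_or_dvd h1 with h2 | h2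
      · have h3 : q ∣ A.natAbs := Int.natCast_dvd.1 h2
        have h4 := Nat.le_of_dvd (Int.natAbs_pos.2 hA) h3
        omega
      · exact h2
    rcases eq_or_ne a 0 with ha | ha
    · have h3 : ∀ z : ℤ, (Polynomial.dickson 1 a n).eval z = z ^ n := fun z => by
        have h4 := dickson_eval z 0 n
        rw [mul_zero, add_zero, zero_pow hn2.pos.ne', add_zero] at h4
        rw [ha, h4]
      rw [h3, h3] at h2
      exact pow_inj hqp hn2.pos (modEq_coprime hqp (hqm.of_dvd (dvd_mul_right _ _))) h2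
    · refine dick_inj hqp (modEq_coprime_sq hqp hn (hqm.of_dvd (dvd_mul_right _ _))) ?_ h2
      intro h3
      have h4 := Nat.le_of_dvd (Int.natAbs_pos.2 ha) (Int.natCast_dvd.1 h3)
      omega
  | quotient E g hE hg ih =>
    obtain ⟨D, q0, hD, hq⟩ := ih
    refine ⟨D, q0, hD, fun q hqp hqm hq0 x y h => hq q hqp hqm hq0 x y ?_⟩
    simp only [eval_mul, eval_C]
    rw [← mul_sub]
    exact h.mul_left E

/-! ### `(x + a) ^ d - a` -/

theorem iter_shift (a : ℤ) (d n : ℕ) (x : ℤ) :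
    (fun z : ℤ => ((X + C a) ^ d - C a : ℤ[X]).eval z)^[n] x = (x + a) ^ d ^ n - a := by
  induction n with
  | zero => simp
  | succ n ih =>
    rw [Function.iterate_succ_apply', ih]
    simp only [eval_sub, eval_pow, eval_add, eval_X, eval_C]
    rw [sub_add_cancel, ← pow_mul, pow_succ]

theorem shift_zeroPeriodic (a d : ℕ) (ha : 0 < a) (hd : 0 < d) :
    ZeroPeriodic ((X + C (a : ℤ)) ^ d - C (a : ℤ)) := by
  refine ⟨4 * a * d, 4 * a * d - 1, a, by positivity, ?_, fun q hq hqm hqa => ?_⟩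
  · have h1 : 0 < 4 * a * d := by positivity
    have h2 : (4 * a * d - 1) + 1 = 4 * a * d := by omega
    have h3 : Nat.Coprime (4 * a * d - 1) ((4 * a * d - 1) + 1) := by simp
    rwa [h2] at h3
  have : Fact q.Prime := ⟨hq⟩
  have hm : 0 < a * d := by positivity
  -- `q + 1` is a multiple of `4 a d`
  have h1 : 4 * a * d ∣ q + 1 := by
    have h2 := hqm.add_right 1
    have h3 : 4 * a * d - 1 + 1 = 4 * a * d := by
      have : 0 < 4 * a * d := by positivity
      omega
    rw [h3] at h2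
    exact (Nat.modEq_zero_iff_dvd.1 (h2.trans (Nat.modEq_zero_iff_dvd.2 dvd_rfl)))
  obtain ⟨t, ht⟩ := h1
  have ht0 : 0 < t := by
    rcases Nat.eq_zero_or_pos t with h | h
    · rw [h, mul_zero] at ht; omega
    · exact h
  have hq' : q = 4 * (a * d * t) - 1 := by
    have : 4 * a * d * t = 4 * (a * d * t) := by ring
    omega
  set s := a * d * t with hs
  have hs0 : 0 < s := by positivity
  have hhalf : q / 2 = 2 * s - 1 := by omega
  have hodd : q % 2 = 1 := by omega
  -- `a` is a square modulo `q`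
  have hleg : legendreSym q a = 1 := by
    rw [jacobiSym.legendreSym.to_jacobiSym]
    have h2 : jacobiSym a q = jacobiSym a (q % (4 * (a : ℤ).natAbs)) :=
      jacobiSym.mod_right a (Nat.odd_iff.2 hodd)
    rw [Int.natAbs_natCast] at h2
    have h3 : q % (4 * a) = 4 * a - 1 := by
      have h4 : q = (4 * a - 1) + 4 * a * (d * t - 1) := by
        have h5 : 0 < d * t := by positivity
        obtain ⟨w, hw⟩ : ∃ w, d * t = w + 1 := ⟨d * t - 1, by omega⟩
        have h6 : 4 * s = 4 * a * (w + 1) := by rw [hs, ← hw]; ring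
        rw [hw, Nat.add_sub_cancel]
        have h7 : 4 * a * (w + 1) = 4 * a * w + 4 * a := by ring
        omega
      rw [h4, Nat.add_mul_mod_self_left, Nat.mod_eq_of_lt (by omega)]
    rw [h2, h3]
    have hc : (4 * a - 1).Coprime 2 := by
      rw [Nat.coprime_two_right, Nat.odd_iff]
      omega
    have h5 : jacobiSym (((4 * a : ℕ)) : ℤ) (4 * a - 1) = 1 := by
      rw [jacobiSym.mod_left]
      have h6 : (((4 * a : ℕ)) : ℤ) % ((4 * a - 1 : ℕ) : ℤ) = 1 % ((4 * a - 1 : ℕ) : ℤ) := by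
        have h7 : (((4 * a : ℕ)) : ℤ) = ((4 * a - 1 : ℕ) : ℤ) + 1 := by
          have : 4 * a = (4 * a - 1) + 1 := by omega
          exact_mod_cast this
        rw [h7, Int.add_comm, Int.add_emod_right]
      rw [h6, ← jacobiSym.mod_left, jacobiSym.one_left]
    have h8 : ((4 * a : ℕ) : ℤ) = (2 : ℤ) ^ 2 * (a : ℤ) := by push_cast; ring
    rw [h8, jacobiSym.mul_left, jacobiSym.pow_left] at h5
    have h9 : jacobiSym 2 (4 * a - 1) ^ 2 = 1 := by
      refine jacobiSym.sq_one ?_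
      rw [Int.gcd_comm]
      exact_mod_cast hc
    rw [h9, one_mul] at h5
    exact h5
  have hpow : ((a : ZMod q)) ^ (q / 2) = 1 := by
    have h2 := legendreSym.eq_pow q (a : ℤ)
    rw [hleg] at h2
    push_cast at h2
    exact h2.symm
  have ho : orderOf (a : ZMod q) ∣ q / 2 := orderOf_dvd_of_pow_eq_one hpow
  have hcop : d.Coprime (q / 2) := by
    rw [hhalf]
    have h2 : 2 * s - 1 + 1 = d * (2 * (a * t)) := by
      rw [Nat.sub_add_cancel (by omega), hs]
      ring
    have h3 : (2 * s - 1).Coprime (2 * s - 1 + 1) := by simp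
    rw [h2] at h3
    exact (Nat.Coprime.coprime_mul_right_right h3).symm
  have hcop2 : d.Coprime (orderOf (a : ZMod q)) := Nat.Coprime.coprime_dvd_right ho hcop
  have hopos : 0 < orderOf (a : ZMod q) := Nat.pos_of_dvd_of_pos ho (by omega)
  refine ⟨(orderOf (a : ZMod q)).totient, Nat.totient_pos.2 hopos, ?_⟩
  rw [iter_shift, zero_add]
  have h2 := Nat.ModEq.pow_totient hcop2
  have h3 : (a : ZMod q) ^ (d ^ (orderOf (a : ZMod q)).totient) = (a : ZMod q) ^ 1 := by
    rw [← pow_mod_orderOf (a : ZMod q) (d ^ (orderOf (a : ZMod q)).totient),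
      ← pow_mod_orderOf (a : ZMod q) 1, h2]
  rw [← ZMod.intCast_zmod_eq_zero_iff_dvd]
  push_cast
  rw [h3, pow_one, sub_self]

theorem composed_permutes {f : ℤ[X]} (hf : Composed f) : Permutes f := by
  obtain ⟨D, q0, hD, h⟩ := composed_inj hf
  exact ⟨D, 2, q0, hD.pos, (Nat.coprime_two_left).2 hD, h⟩

end Pool.Agent.PFO
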