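import Pool.Agent.PFO.Cheb
import Pool.Agent.PFO.DefsG

/-!
# Almost all starting points, for polynomials with many primes in the orbit of `0`
-/

set_option autoImplicit false

open Finset Polynomial

namespace Pool.Agent.PFO

/-- finite sets of large elements with a large sum of the reciprocals -/
theorem div_of {P : Set ℕ} (h : ¬ Summable (Set.indicator P fun q : ℕ => 1 / (q : ℝ))) (q0 : ℕ)
    (B : ℝ) : ∃ S : Finset ℕ, (∀ p ∈ S, p ∈ P ∧ q0 < p) ∧ B ≤ ∑ p ∈ S, 1 / (p : ℝ) := by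
  classical
  by_contra hcon
  push Not at hcon
  apply h
  have hnn : ∀ n : ℕ, 0 ≤ Set.indicator P (fun q : ℕ => 1 / (q : ℝ)) n := fun n =>
    Set.indicator_nonneg (fun q _ => by positivity) n
  refine summable_of_sum_le (c := ∑ n ∈ range (q0 + 1),
    Set.indicator P (fun q : ℕ => 1 / (q : ℝ)) n + B) hnn fun T => ?_
  rw [← Finset.sum_filter_add_sum_filter_not T (fun n => n ≤ q0)]
  refine add_le_add ?_ ?_
  · refine Finset.sum_le_sum_of_subset_of_nonneg (fun n hn => ?_) fun n _ _ => hnn n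
    have := (Finset.mem_filter.1 hn).2
    exact Finset.mem_range.2 (by omega)
  · have h1 := hcon ((T.filter fun n => ¬ n ≤ q0).filter fun n => n ∈ P) (fun p hp => by
      obtain ⟨h2, h3⟩ := Finset.mem_filter.1 hp
      exact ⟨h3, not_le.1 (Finset.mem_filter.1 h2).2⟩)
    refine le_trans (le_of_eq ?_) h1.le
    rw [Finset.sum_filter (s := T.filter fun n => ¬ n ≤ q0)]
    refine Finset.sum_congr rfl fun n _ => ?_
    rw [Set.indicator_apply]

/-- primes with small product of `1 - 1 / p`, i.e. few residues coprime to their product -/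
theorem tot_of {P : Set ℕ} (hP : ∀ p ∈ P, p.Prime)
    (hd : ∀ (q0 : ℕ) (B : ℝ), ∃ S : Finset ℕ, (∀ p ∈ S, p ∈ P ∧ q0 < p) ∧ B ≤ ∑ p ∈ S, 1 / (p : ℝ))
    (q0 : ℕ) (δ : ℝ) (hδ : 0 < δ) :
    ∃ S : Finset ℕ, (∀ p ∈ S, p ∈ P ∧ q0 < p) ∧
      (((∏ p ∈ S, p).totient : ℕ) : ℝ) ≤ δ * ((∏ p ∈ S, p : ℕ) : ℝ) := by
  obtain ⟨S, hS, hB⟩ := hd q0 (-Real.log δ)
  refine ⟨S, hS, ?_⟩
  have h1 := Nat.totient_eq_mul_prod_factors (∏ p ∈ S, p)
  rw [Nat.primeFactors_prod fun p hp => hP p (hS p hp).1] at h1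
  have h2 : (((∏ p ∈ S, p).totient : ℕ) : ℝ) =
      ((∏ p ∈ S, p : ℕ) : ℝ) * ∏ p ∈ S, (1 - ((p : ℝ))⁻¹) := by
    have h3 := congrArg (fun x : ℚ => (x : ℝ)) h1
    push_cast at h3 ⊢
    exact h3
  rw [h2, mul_comm]
  refine mul_le_mul_of_nonneg_right ?_ (by positivity)
  calc ∏ p ∈ S, (1 - ((p : ℝ))⁻¹) ≤ ∏ p ∈ S, Real.exp (-(1 / (p : ℝ))) := by
        refine Finset.prod_le_prod (fun p hp => ?_) fun p hp => ?_
        · have : (1 : ℝ) ≤ p := by exact_mod_cast (hP p (hS p hp).1).one_lt.le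
          rw [sub_nonneg]
          exact inv_le_one_of_one_le₀ this
        · rw [one_div]
          exact Real.one_sub_le_exp_neg _
    _ = Real.exp (-∑ p ∈ S, 1 / (p : ℝ)) := by
        rw [← Real.exp_sum, Finset.sum_neg_distrib]
    _ ≤ Real.exp (Real.log δ) := Real.exp_le_exp.2 (by linarith)
    _ = δ := Real.exp_log hδ

/-- `K` disjoint such sets -/
theorem sets_of {P : Set ℕ} (hP : ∀ p ∈ P, p.Prime)
    (hdv : ∀ (q0 : ℕ) (B : ℝ), ∃ S : Finset ℕ, (∀ p ∈ S, p ∈ P ∧ q0 < p) ∧ B ≤ ∑ p ∈ S, 1 / (p : ℝ))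
    (q0 : ℕ) (δ : ℝ) (hδ : 0 < δ) (K : ℕ) : ∃ S : ℕ → Finset ℕ,
      (∀ j < K, (∀ p ∈ S j, p ∈ P ∧ q0 < p) ∧
        (((∏ p ∈ S j, p).totient : ℕ) : ℝ) ≤ δ * ((∏ p ∈ S j, p : ℕ) : ℝ)) ∧
      ∀ i < K, ∀ j < K, i ≠ j → Disjoint (S i) (S j) := by
  classical
  induction K with
  | zero => exact ⟨fun _ => ∅, by simp, by simp⟩
  | succ K ih =>
    obtain ⟨S, hS, hd⟩ := ih
    obtain ⟨T, hT, hTt⟩ := tot_of hP hdv (q0 + ∑ j ∈ range K, ∑ p ∈ S j, p) δ hδ
    refine ⟨Function.update S K T, fun j hj => ?_, ?_⟩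
    · rcases Nat.lt_or_ge j K with h | h
      · rw [Function.update_of_ne (by omega)]
        exact hS j h
      · have : j = K := by omega
        subst this
        rw [Function.update_self]
        exact ⟨fun p hp => ⟨(hT p hp).1, by have := (hT p hp).2; omega⟩, hTt⟩
    · have key : ∀ i < K, Disjoint (S i) T := by
        intro i hi
        rw [Finset.disjoint_left]
        intro p hp hpT
        have h1 := (hT p hpT).2
        have h2 : p ≤ ∑ p ∈ S i, p := Finset.single_le_sum (f := fun p => p) (fun _ _ => Nat.zero_le _) hp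
        have h3 : ∑ p ∈ S i, p ≤ ∑ j ∈ range K, ∑ p ∈ S j, p :=
          Finset.single_le_sum (f := fun j => ∑ p ∈ S j, p) (fun _ _ => Nat.zero_le _)
            (Finset.mem_range.2 hi)
        omega
      intro i hi j hj hij
      rcases Nat.lt_or_ge i K with h | h <;> rcases Nat.lt_or_ge j K with h' | h'
      · rw [Function.update_of_ne (by omega), Function.update_of_ne (by omega)]
        exact hd i h j h' hij
      · have : j = K := by omega
        subst this
        rw [Function.update_of_ne (by omega), Function.update_self]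
        exact key i h
      · have : i = K := by omega
        subst this
        rw [Function.update_self, Function.update_of_ne (by omega)]
        exact (key j h').symm
      · omega


/-- a residue class of primes suffices -/
theorem ZeroPeriodic.good {f : ℤ[X]} (hf : ZeroPeriodic f) : Good f := by
  classical
  intro hs
  obtain ⟨m, b, q0, hm, hb, hq⟩ := hf
  have : NeZero m := ⟨hm.ne'⟩
  have hunit : IsUnit (b : ZMod m) := (ZMod.isUnit_iff_coprime b m).2 hb
  obtain ⟨S, hS, hB⟩ := div_ap m (b : ZMod m) hunit q0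
    (∑' n, Set.indicator (OrbitPrimes f) (fun q : ℕ => 1 / (q : ℝ)) n + 1)
  have h1 := hs.sum_le_tsum S fun n _ => Set.indicator_nonneg (fun q _ => by positivity) n
  have h2 : ∑ n ∈ S, Set.indicator (OrbitPrimes f) (fun q : ℕ => 1 / (q : ℝ)) n =
      ∑ p ∈ S, 1 / (p : ℝ) := by
    refine Finset.sum_congr rfl fun p hp => ?_
    obtain ⟨h3, h4, h5⟩ := hS p hp
    exact Set.indicator_of_mem
      (show p ∈ OrbitPrimes f from ⟨h3, hq p h3 ((ZMod.natCast_eq_natCast_iff p b m).1 h4) h5⟩) _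
  rw [h2] at h1
  linarith

/-- the residue classes of starting points -/
theorem almost_all_good (f : ℤ[X]) (hf : Good f) (K : ℕ) (ε : ℝ) (hε : 0 < ε) :
    ∃ (M : ℕ) (R : Finset (ZMod M)) (N0 : ℕ), 0 < M ∧ (1 - ε) * M ≤ (R.card : ℝ) ∧
      ∀ x : ℤ, (x : ZMod M) ∈ R → ∀ N : ℕ, N0 ≤ N →
        ((Set.ncard {n | n < N ∧ ¬ ManyPrimes K ((fun z : ℤ => f.eval z)^[n] x)} : ℕ) : ℝ) ≤
          ε * N := by
  classical
  set δ : ℝ := (ε / 2) ^ 2 / (4 * (K + 1)) with hδ
  have hδpos : 0 < δ := by positivity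
  obtain ⟨S, hS, hd⟩ := sets_of (P := OrbitPrimes f) (fun p hp => hp.1) (div_of hf) 0 δ hδpos K
  set U : Finset ℕ := (range K).biUnion S with hU
  have hmem : ∀ p ∈ U, ∃ j < K, p ∈ S j := by
    intro p hp
    obtain ⟨j, hj, h⟩ := Finset.mem_biUnion.1 hp
    exact ⟨j, Finset.mem_range.1 hj, h⟩
  have hUp : ∀ p ∈ U, p.Prime := fun p hp => by
    obtain ⟨j, hj, h⟩ := hmem p hp
    exact ((hS j hj).1 p h).1.1
  have hUf : ∀ p ∈ U, ∃ k : ℕ, 0 < k ∧ (p : ℤ) ∣ (mp f)^[k] 0 := fun p hp => by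
    obtain ⟨j, hj, h⟩ := hmem p hp
    exact ((hS j hj).1 p h).1.2
  obtain ⟨k, hk, hret⟩ := common_return f U hUf
  set M := ∏ p ∈ U, p with hM
  have hMpos : 0 < M := Finset.prod_pos fun p hp => (hUp p hp).pos
  have : NeZero M := ⟨hMpos.ne'⟩
  obtain ⟨p0, L, hL, hper⟩ := eventual (red f M)
  have hdvd : ∀ j < K, (∏ p ∈ S j, p) ∣ M := fun j hj =>
    Finset.prod_dvd_prod_of_subset _ _ _ (Finset.subset_biUnion_of_mem S (Finset.mem_range.2 hj))
  have hpos : ∀ j < K, 0 < ∏ p ∈ S j, p := fun j hj =>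
    Finset.prod_pos fun p hp => ((hS j hj).1 p hp).1.1.pos
  have hSU : ∀ j < K, ∀ p ∈ S j, p ∈ U := fun j hj p hp =>
    Finset.mem_biUnion.2 ⟨j, Finset.mem_range.2 hj, hp⟩
  have hpS : ∀ j < K, ∀ p : ℕ, p.Prime → p ∣ ∏ p ∈ S j, p → p ∈ S j := by
    intro j hj p hp hp1
    obtain ⟨q, hqS, hpq⟩ := (hp.prime.dvd_finsetProd_iff _).1 hp1
    have := (Nat.prime_dvd_prime_iff_eq hp ((hS j hj).1 q hqS).1.1).1 hpq
    rwa [this]
  let bad : ZMod M → ℕ → Prop := fun x n => ∃ j < K, (∏ p ∈ S j, p).Coprime ((red f M)^[n] x).val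
  have hbad : ∀ n, ((Set.ncard {x | bad x n} : ℕ) : ℝ) ≤ (ε / 2) ^ 2 / 2 * M := by
    intro n
    -- a point whose `n`-th iterate is divisible by all the primes
    set c : ℤ := (mp f)^[k * n - n] 0 with hc
    have hkn : n ≤ k * n := Nat.le_mul_of_pos_left _ hk
    have hcn : ∀ p ∈ U, (p : ℤ) ∣ (mp f)^[n] c := fun p hp => by
      rw [hc, iter_add, Nat.add_sub_cancel' hkn]
      exact hret n p hp
    have h1 : {x | bad x n} ⊆ (((range K).biUnion fun j => univ.filter fun x : ZMod M =>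
        (∏ p ∈ S j, p).Coprime (x - (c : ZMod M)).val : Finset (ZMod M)) : Set (ZMod M)) := by
      rintro x ⟨j, hj, h⟩
      refine Finset.mem_coe.2 (Finset.mem_biUnion.2 ⟨j, Finset.mem_range.2 hj, ?_⟩)
      refine Finset.mem_filter.2 ⟨Finset.mem_univ _, ?_⟩
      by_contra hcon
      obtain ⟨p, hp, hp1, hp2⟩ := Nat.Prime.not_coprime_iff_dvd.1 hcon
      have hpj := hpS j hj p hp hp1
      obtain ⟨z, rfl⟩ := ZMod.intCast_surjective x
      rw [red_iter] at h
      have hpM : p ∣ M := hp1.trans (hdvd j hj)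
      rw [← Int.cast_sub, dvd_val hpM] at hp2
      have h3 := hp2.trans (sub_dvd f n z c)
      have h4 : (p : ℤ) ∣ (mp f)^[n] z := by
        have := dvd_add h3 (hcn p (hSU j hj p hpj))
        rwa [sub_add_cancel] at this
      have h5 := (dvd_val hpM ((mp f)^[n] z)).2 h4
      exact Nat.Prime.not_coprime_iff_dvd.2 ⟨p, hp, hp1, h5⟩ h
    have h2 := Set.ncard_le_ncard h1 (Finset.finite_toSet _)
    rw [Set.ncard_coe_finset] at h2
    have h3 : ((Set.ncard {x | bad x n} : ℕ) : ℝ) ≤ ∑ j ∈ range K, (2 * δ * M) := by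
      have h2' : ((Set.ncard {x | bad x n} : ℕ) : ℝ) ≤ ((∑ j ∈ range K, (univ.filter
          fun x : ZMod M => (∏ p ∈ S j, p).Coprime (x - (c : ZMod M)).val).card : ℕ) : ℝ) :=
        Nat.cast_le.2 (h2.trans Finset.card_biUnion_le)
      refine h2'.trans ?_
      rw [Nat.cast_sum]
      refine Finset.sum_le_sum fun j hj => ?_
      have hj' := Finset.mem_range.1 hj
      have h4 := card_shift_le (M := M) (hpos j hj') (c : ZMod M)
      have h5 : ((((∏ p ∈ S j, p).totient * (M / (∏ p ∈ S j, p) + 1) : ℕ)) : ℝ) ≤ 2 * δ * M := by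
        obtain ⟨c, hc⟩ := hdvd j hj'
        have hc0 : 0 < c := by
          rcases Nat.eq_zero_or_pos c with h | h
          · rw [h, mul_zero] at hc; omega
          · exact h
        have h6 : M / (∏ p ∈ S j, p) = c := by
          rw [hc]; exact Nat.mul_div_cancel_left _ (hpos j hj')
        rw [h6]
        have h7 := (hS j hj').2
        have h8 : ((c + 1 : ℕ) : ℝ) ≤ 2 * c := by
          have : c + 1 ≤ 2 * c := by omega
          exact_mod_cast this
        have hMc : (M : ℝ) = ((∏ p ∈ S j, p : ℕ) : ℝ) * c := by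
          rw [← Nat.cast_mul, ← hc]
        push_cast at h7 h8 hMc ⊢
        rw [hMc]
        have h9 : (0 : ℝ) ≤ (c : ℝ) := by positivity
        calc (((∏ p ∈ S j, p).totient : ℕ) : ℝ) * ((c : ℝ) + 1)
            ≤ (δ * ∏ p ∈ S j, (p : ℝ)) * (2 * c) :=
              mul_le_mul h7 h8 (by positivity) (by positivity)
          _ = 2 * δ * ((∏ p ∈ S j, (p : ℝ)) * c) := by ring
      refine le_trans ?_ h5
      exact_mod_cast h4
    refine h3.trans ?_
    rw [Finset.sum_const, Finset.card_range, nsmul_eq_mul]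
    have h4 : (K : ℝ) * (2 * δ * M) = (K / (K + 1)) * ((ε / 2) ^ 2 / 2 * M) := by
      rw [hδ]
      field_simp
      ring
    rw [h4]
    have h5 : (K : ℝ) / (K + 1) ≤ 1 := by
      rw [div_le_one (by positivity)]
      linarith
    calc (K : ℝ) / (K + 1) * ((ε / 2) ^ 2 / 2 * M) ≤ 1 * ((ε / 2) ^ 2 / 2 * M) :=
          mul_le_mul_of_nonneg_right h5 (by positivity)
      _ = _ := one_mul _
  have hperb : ∀ x n, bad x (n + L + p0) ↔ bad x (n + p0) := fun x n => by
    show (∃ j < K, (∏ p ∈ S j, p).Coprime ((red f M)^[n + L + p0] x).val) ↔ _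
    rw [show n + L + p0 = n + p0 + L by ring, hper]
  obtain ⟨R, hR, hRN⟩ := average (fun x n => bad x (n + p0)) hL hperb (half_pos hε)
    fun n => hbad (n + p0)
  refine ⟨M, R, max L ⌈2 * p0 / ε⌉₊, hMpos, le_trans ?_ hR, fun x hx N hN => ?_⟩
  · have : (0 : ℝ) ≤ M := by positivity
    nlinarith
  have h0 := hRN _ hx N (le_trans (le_max_left _ _) hN)
  have hN2 : 2 * (p0 : ℝ) / ε ≤ N :=
    (Nat.le_ceil _).trans (by exact_mod_cast le_trans (le_max_right _ _) hN)
  rw [div_le_iff₀ hε] at hN2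
  have hsub : {n | n < N ∧ ¬ ManyPrimes K ((fun z : ℤ => f.eval z)^[n] x)} ⊆
      (range p0 : Finset ℕ) ∪ (fun n => n + p0) '' {n | n < N ∧ bad (x : ZMod M) (n + p0)} := by
    rintro n ⟨hn, hmp⟩
    rcases Nat.lt_or_ge n p0 with hlt | hge
    · exact Or.inl (Finset.mem_coe.2 (Finset.mem_range.2 hlt))
    refine Or.inr ⟨n - p0, ⟨by omega, ?_⟩, Nat.sub_add_cancel hge⟩
    rw [Nat.sub_add_cancel hge]
    by_contra hnb
    apply hmp
    have h1 : ∀ j < K, ∃ p ∈ S j, (p : ℤ) ∣ (mp f)^[n] x := by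
      intro j hj
      have h2 : ¬ (∏ p ∈ S j, p).Coprime ((red f M)^[n] (x : ZMod M)).val := fun h =>
        hnb ⟨j, hj, h⟩
      obtain ⟨p, hp, hp1, hp2⟩ := Nat.Prime.not_coprime_iff_dvd.1 h2
      have h3 : p ∈ S j := hpS j hj p hp hp1
      rw [red_iter, dvd_val (hp1.trans (hdvd j hj))] at hp2
      exact ⟨p, h3, hp2⟩
    choose! q hqS hqd using h1
    refine ⟨(range K).image q, ?_, fun p hp => ?_⟩
    · rw [Finset.card_image_of_injOn, Finset.card_range]
      intro i hi j hj hij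
      by_contra hne
      have hi' := Finset.mem_range.1 (Finset.mem_coe.1 hi)
      have hj' := Finset.mem_range.1 (Finset.mem_coe.1 hj)
      have h2 := Finset.disjoint_left.1 (hd i hi' j hj' hne) (hqS i hi')
      rw [hij] at h2
      exact h2 (hqS j hj')
    · obtain ⟨j, hj, rfl⟩ := Finset.mem_image.1 hp
      have hj' := Finset.mem_range.1 hj
      exact ⟨((hS j hj').1 _ (hqS j hj')).1.1, hqd j hj'⟩
  have hfin : {n | n < N ∧ bad (x : ZMod M) (n + p0)}.Finite :=
    (Set.finite_lt_nat N).subset fun n hn => hn.1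
  have h1 := Set.ncard_le_ncard hsub ((Finset.finite_toSet _).union (hfin.image _))
  have h2 := h1.trans (Set.ncard_union_le _ _)
  rw [Set.ncard_coe_finset, Finset.card_range] at h2
  have h3 := h2.trans (Nat.add_le_add_left (Set.ncard_image_le hfin) p0)
  have h4 : ((Set.ncard {n | n < N ∧ ¬ ManyPrimes K ((fun z : ℤ => f.eval z)^[n] x)} : ℕ) : ℝ) ≤
      p0 + ((Set.ncard {n | n < N ∧ bad (x : ZMod M) (n + p0)} : ℕ) : ℝ) := by
    exact_mod_cast h3
  linarith

end Pool.Agent.PFO
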