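import Pool.Agent.PFO.Div
import Pool.Agent.PFO.Cover
import Pool.Agent.PFO.Defs

/-!
# The orbit of `0` and the orbits of the multiples of `M`
-/

set_option autoImplicit false

open Polynomial Finset

namespace Pool.Agent.PFO

/-- only finitely many terms of a wandering orbit are small -/
theorem large_eventually {g : ℕ → ℤ} (hg : Function.Injective g) (B : ℤ) :
    ∃ n0 : ℕ, ∀ n, n0 ≤ n → B < |g n| := by
  have hfin : {n : ℕ | |g n| ≤ B}.Finite := by
    have h1 : (Set.Icc (-B) B).Finite := Set.finite_Icc _ _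
    refine (h1.preimage hg.injOn).subset fun n hn => ?_
    exact Set.mem_Icc.2 (abs_le.1 hn)
  obtain ⟨b, hb⟩ := hfin.bddAbove
  refine ⟨b + 1, fun n hn => ?_⟩
  by_contra hcon
  have := hb (show n ∈ {n : ℕ | |g n| ≤ B} from not_lt.1 hcon)
  omega

/-- primes in the orbit of `0` occur only at prime times, from some point on -/
theorem zero_orbit (f : ℤ[X]) (hd : 2 ≤ f.natDegree)
    (hinj : Function.Injective fun n : ℕ => (mp f)^[n] (0 : ℤ)) :
    ∃ N1 : ℕ, ∀ n : ℕ, N1 ≤ n → Prime ((mp f)^[n] (0 : ℤ)) → n.Prime := by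
  obtain ⟨R, hR⟩ := escape f hd
  obtain ⟨n0, hn0⟩ := large_eventually hinj (max R 1)
  set n1 := n0 + 2 with hn1
  refine ⟨n1 ^ 2, fun n hn hp => ?_⟩
  by_contra hcon
  have hn4 : 2 ^ 2 ≤ n := le_trans (Nat.pow_le_pow_left (by omega) 2) hn
  have hv := Nat.minFac_sq_le_self (show 0 < n by omega) hcon
  have hvd := Nat.minFac_dvd n
  have hv2 : 2 ≤ n.minFac := (Nat.minFac_prime (by omega)).two_le
  obtain ⟨u, hu⟩ := hvd
  set v := n.minFac
  have huv : v ≤ u := by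
    by_contra hlt
    have h1 : v * u < v * v := Nat.mul_lt_mul_of_pos_left (not_le.1 hlt) (by omega)
    have h2 : v ^ 2 = v * v := sq v
    omega
  have hun : u < n := by
    have h1 : 2 * u ≤ v * u := Nat.mul_le_mul_right u hv2
    have h2 : 0 < u := by omega
    omega
  have hu1 : n1 ≤ u := by
    by_contra hlt
    have h1 : v * u ≤ u * u := Nat.mul_le_mul_right u huv
    have h2 : u * u < n1 * n1 := Nat.mul_self_lt_mul_self (not_le.1 hlt)
    have h3 : n1 ^ 2 = n1 * n1 := sq n1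
    omega
  have hdv : (mp f)^[u] (0 : ℤ) ∣ (mp f)^[n] 0 := by
    have h1 := dvd_mul_index f (dvd_refl ((mp f)^[u] (0 : ℤ))) v
    have e : u * v = n := by rw [mul_comm]; exact hu.symm
    rwa [e] at h1
  have hbu := hn0 u (by omega)
  have hR0 : R ≤ |(mp f)^[u] (0 : ℤ)| := ((le_max_left R 1).trans_lt hbu).le
  have h1u : 1 < |(mp f)^[u] (0 : ℤ)| := (le_max_right R 1).trans_lt hbu
  have hlt : |(mp f)^[u] (0 : ℤ)| < |(mp f)^[n] 0| := by
    have h1 := escape_iter f hR hR0 (n - u)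
    rw [iter_add, Nat.sub_add_cancel hun.le] at h1
    have h2 : 0 < n - u := by omega
    have h3 : (0 : ℤ) < ((n - u : ℕ) : ℤ) := by exact_mod_cast h2
    linarith
  have h5 := Int.prime_iff_natAbs_prime.1 hp
  have h6 : ((mp f)^[u] (0 : ℤ)).natAbs ∣ ((mp f)^[n] (0 : ℤ)).natAbs :=
    Int.natAbs_dvd_natAbs.2 hdv
  rcases (Nat.dvd_prime h5).1 h6 with h7 | h7
  · have : |(mp f)^[u] (0 : ℤ)| = 1 := by
      rw [Int.abs_eq_natAbs, h7]; rfl
    omega
  · rw [Int.abs_eq_natAbs, Int.abs_eq_natAbs, h7] at hlt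
    exact lt_irrefl _ hlt

theorem lin_approx (f : ℤ[X]) (y : ℤ) : y ^ 2 ∣ f.eval y - (f.coeff 0 + f.coeff 1 * y) := by
  have e : f = f.divX.divX * X ^ 2 + C (f.coeff 1) * X + C (f.coeff 0) := by
    conv_lhs => rw [← divX_mul_X_add f, ← divX_mul_X_add f.divX]
    have : f.divX.coeff 0 = f.coeff 1 := by rw [coeff_divX]
    rw [this]
    ring
  have e2 : f.eval y = f.divX.divX.eval y * y ^ 2 + f.coeff 1 * y + f.coeff 0 := by
    conv_lhs => rw [e]
    simp
  refine ⟨f.divX.divX.eval y, ?_⟩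
  rw [e2]
  ring

theorem iter_lin (f : ℤ[X]) (m : ℕ) :
    (f.coeff 0) ^ 2 ∣ (mp f)^[m] 0 - f.coeff 0 * ∑ i ∈ range m, (f.coeff 1) ^ i := by
  induction m with
  | zero => simp
  | succ m ih =>
    have hc : f.coeff 0 ∣ (mp f)^[m] 0 := by
      have h1 := (dvd_pow_self (f.coeff 0) two_ne_zero).trans ih
      have h2 := dvd_add h1 (dvd_mul_right (f.coeff 0) (∑ i ∈ range m, (f.coeff 1) ^ i))
      rwa [sub_add_cancel] at h2
    have h1 := (pow_dvd_pow_of_dvd hc 2).trans (lin_approx f ((mp f)^[m] 0))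
    have h2 := ih.mul_left (f.coeff 1)
    have h3 := dvd_add h1 h2
    rw [Function.iterate_succ_apply', geom_sum_succ]
    have e : f.eval ((mp f)^[m] 0) - (f.coeff 0 + f.coeff 1 * (mp f)^[m] 0) +
        f.coeff 1 * ((mp f)^[m] 0 - f.coeff 0 * ∑ i ∈ range m, (f.coeff 1) ^ i) =
        (mp f) ((mp f)^[m] 0) -
          f.coeff 0 * (f.coeff 1 * ∑ i ∈ range m, (f.coeff 1) ^ i + 1) := by
      show _ = f.eval ((mp f)^[m] 0) - _
      ring
    rwa [e] at h3

theorem geom_not_dvd {p l : ℕ} (hp : p.Prime) (hl : l.Prime) (hpl : p < l) (a : ℤ) :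
    ¬ (p : ℤ) ∣ ∑ i ∈ range l, a ^ i := by
  intro h
  have : Fact p.Prime := ⟨hp⟩
  have h1 : ∑ i ∈ range l, (a : ZMod p) ^ i = 0 := by
    have h2 := (ZMod.intCast_zmod_eq_zero_iff_dvd _ p).2 h
    push_cast at h2
    exact h2
  have h2 : (a : ZMod p) ^ l = 1 := by
    have h3 := geom_sum_mul (a : ZMod p) l
    rw [h1, zero_mul] at h3
    exact (sub_eq_zero.1 h3.symm)
  have hne : (a : ZMod p) ≠ 0 := by
    intro h0
    rw [h0, zero_pow hl.ne_zero] at h2
    exact zero_ne_one h2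
  have h3 : (a : ZMod p) ^ (p - 1) = 1 := ZMod.pow_card_sub_one_eq_one hne
  have hcop : Nat.Coprime l (p - 1) := by
    rw [Nat.Prime.coprime_iff_not_dvd hl]
    intro hd
    have := Nat.le_of_dvd (by have := hp.two_le; omega) hd
    omega
  have h4 : orderOf (a : ZMod p) = 1 :=
    Nat.eq_one_of_dvd_coprimes hcop (orderOf_dvd_of_pow_eq_one h2) (orderOf_dvd_of_pow_eq_one h3)
  rw [orderOf_eq_one_iff.1 h4] at h1
  simp only [one_pow, Finset.sum_const, Finset.card_range, nsmul_eq_mul, mul_one] at h1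
  have h5 : p ∣ l := (ZMod.natCast_eq_zero_iff l p).1 h1
  have h6 := (Nat.prime_dvd_prime_iff_eq hp hl).1 h5
  omega

/-- a new prime divisor of `a l`, for large primes `l` -/
theorem new_prime (f : ℤ[X]) {l : ℕ} (hl : l.Prime) (hcl : (f.eval 0).natAbs < l)
    (hc0 : f.eval 0 ≠ 0) (hbig : |f.eval 0| < |(mp f)^[l] 0|) :
    ∃ q : ℕ, q.Prime ∧ (q : ℤ) ∣ (mp f)^[l] 0 ∧ ¬ (q : ℤ) ∣ f.eval 0 := by
  by_contra hcon
  push Not at hcon
  have hce : f.coeff 0 = f.eval 0 := coeff_zero_eq_eval_zero f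
  obtain ⟨t, ht⟩ := iter_lin f l
  rw [hce] at ht
  have ha : (mp f)^[l] 0 = f.eval 0 * (∑ i ∈ range l, (f.coeff 1) ^ i + f.eval 0 * t) := by
    linear_combination ht
  have hdvd : ((mp f)^[l] (0 : ℤ)).natAbs ∣ (f.eval 0).natAbs := by
    rw [Nat.dvd_iff_prime_pow_dvd_dvd]
    intro p e hp hpe
    rcases Nat.eq_zero_or_pos e with rfl | hepos
    · simp
    have h2 : ((p : ℤ)) ^ e ∣ (mp f)^[l] 0 := by
      rw [← Int.natAbs_dvd_natAbs, Int.natAbs_pow, Int.natAbs_natCast]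
      exact hpe
    have h3 : (p : ℤ) ∣ (mp f)^[l] 0 := (dvd_pow_self _ (by omega)).trans h2
    have h4 := hcon p hp h3
    have h5 : ¬ (p : ℤ) ∣ (∑ i ∈ range l, (f.coeff 1) ^ i + f.eval 0 * t) := by
      intro h6
      have h7 := dvd_sub h6 (h4.mul_right t)
      rw [add_sub_cancel_right] at h7
      refine geom_not_dvd hp hl ?_ _ h7
      exact lt_of_le_of_lt (Nat.le_of_dvd (Int.natAbs_pos.2 hc0) (Int.natCast_dvd.1 h4)) hcl
    rw [ha] at h2
    have h6 := (Nat.prime_iff_prime_int.1 hp).pow_dvd_of_dvd_mul_right e h5 h2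
    rw [← Int.natAbs_dvd_natAbs, Int.natAbs_pow, Int.natAbs_natCast] at h6
    exact h6
  have h1 := Nat.le_of_dvd (Int.natAbs_pos.2 hc0) hdvd
  rw [Int.abs_eq_natAbs, Int.abs_eq_natAbs] at hbig
  omega

/-- primes of exact period `l`, `l` prime -/
theorem prime_periods (f : ℤ[X])
    (hinj : Function.Injective fun n : ℕ => (mp f)^[n] (0 : ℤ)) :
    ∃ (q0 : ℕ) (q : ℕ → ℕ),
      (∀ l : ℕ, l.Prime → q0 < l → (q l).Prime ∧ ((q l : ℕ) : ℤ) ∣ (mp f)^[l] 0) ∧
      ∀ l l' : ℕ, l.Prime → l'.Prime → q0 < l → q0 < l' → q l = q l' → l = l' := by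
  have hc0 : f.eval 0 ≠ 0 := fun h => by
    have h1 := ne_zero_iter f hinj one_pos
    rw [Function.iterate_one] at h1
    exact h1 h
  obtain ⟨n0, hn0⟩ := large_eventually hinj |f.eval 0|
  have h1 : ∀ l : ℕ, l.Prime → n0 + (f.eval 0).natAbs < l → ∃ q : ℕ, q.Prime ∧
      (q : ℤ) ∣ (mp f)^[l] 0 ∧ ¬ (q : ℤ) ∣ f.eval 0 := fun l hlp hl =>
    new_prime f hlp (by omega) hc0 (hn0 l (by omega))
  choose! q hqp hqd hqn using h1
  refine ⟨n0 + (f.eval 0).natAbs, q, fun l hlp hl => ⟨hqp l hlp hl, hqd l hlp hl⟩,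
    fun l l' hl hl' h h' heq => ?_⟩
  classical
  have hP : ∃ i, 0 < i ∧ ((q l : ℕ) : ℤ) ∣ (mp f)^[i] 0 := ⟨l, hl.pos, hqd l hl h⟩
  set r := Nat.find hP with hrdef
  obtain ⟨hr, hpr⟩ := Nat.find_spec hP
  have hmin : ∀ i, 0 < i → i < r → ¬ ((q l : ℕ) : ℤ) ∣ (mp f)^[i] 0 := fun i hi hir hh =>
    Nat.find_min hP hir ⟨hi, hh⟩
  have e1 := period_dvd f hr hpr hmin (hqd l hl h)
  have e2 := period_dvd f hr hpr hmin (by rw [heq]; exact hqd l' hl' h')
  have hr1 : r ≠ 1 := by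
    intro hr1
    rw [← hrdef, hr1, Function.iterate_one] at hpr
    exact hqn l hl h hpr
  have e3 := ((Nat.dvd_prime hl).1 e1).resolve_left hr1
  have e4 := ((Nat.dvd_prime hl').1 e2).resolve_left hr1
  exact e3.symm.trans e4

/-- for the integers congruent modulo `M` to a term of the orbit of `0` almost all terms have many
prime divisors -/
theorem multiples (f : ℤ[X]) (hd2 : 2 ≤ f.natDegree)
    (hinj : Function.Injective fun n : ℕ => (mp f)^[n] (0 : ℤ)) (K : ℕ) (ε : ℝ) (hε : 0 < ε) :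
    ∃ M N0 : ℕ, 0 < M ∧ ∀ (x : ℤ) (j : ℕ), (M : ℤ) ∣ x - (mp f)^[j] 0 →
      ((M : ℤ) ≤ |x| → Function.Injective fun n : ℕ => (mp f)^[n] x) ∧ ∀ N : ℕ, N0 ≤ N →
      ((Set.ncard {n : ℕ | n < N ∧ ¬ ManyPrimes K ((mp f)^[n] x)} : ℕ) : ℝ) ≤ ε * N := by
  classical
  obtain ⟨R, hR⟩ := escape f hd2
  obtain ⟨q0, q, hq, hqinj⟩ := prime_periods f hinj
  set δ : ℝ := ε / (2 * (K + 1)) with hδ
  have hδpos : 0 < δ := by positivity
  obtain ⟨S, hS, hd⟩ := sets_ap 1 (1 : ZMod 1) isUnit_one q0 δ hδpos K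
  set U : Finset ℕ := (range K).biUnion S with hU
  have hmem : ∀ p ∈ U, ∃ j < K, p ∈ S j := by
    intro p hp
    obtain ⟨j, hj, h⟩ := Finset.mem_biUnion.1 hp
    exact ⟨j, Finset.mem_range.1 hj, h⟩
  have hUq : ∀ l ∈ U, q0 < l := fun l hl => by
    obtain ⟨j, hj, h⟩ := hmem l hl
    exact ((hS j hj).1 l h).2.2
  have hUp : ∀ l ∈ U, l.Prime := fun l hl => by
    obtain ⟨j, hj, h⟩ := hmem l hl
    exact ((hS j hj).1 l h).1
  have hMpos : 0 < ∏ l ∈ U, q l := Finset.prod_pos fun l hl => (hq l (hUp l hl) (hUq l hl)).1.pos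
  refine ⟨(∏ l ∈ U, q l) * (R.natAbs + 1), ∏ l ∈ U, l, by positivity,
    fun x t hx => ⟨fun hxM => ?_, fun N hN => ?_⟩⟩
  · have h1 : R ≤ |x| := by
      have h2 : R ≤ R.natAbs := Int.le_natAbs
      have h3 : R.natAbs + 1 ≤ (∏ l ∈ U, q l) * (R.natAbs + 1) := Nat.le_mul_of_pos_left _ hMpos
      have h4 : ((R.natAbs + 1 : ℕ) : ℤ) ≤ (((∏ l ∈ U, q l) * (R.natAbs + 1) : ℕ) : ℤ) :=
        Nat.cast_le.2 h3
      have h5 := h4.trans hxM
      rw [Nat.cast_succ] at h5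
      linarith
    exact fun m n hmn => (escape_mono f hR h1).injective (congrArg abs hmn)
  replace hx : ((∏ l ∈ U, q l : ℕ) : ℤ) ∣ x - (mp f)^[t] 0 :=
    (Int.natCast_dvd_natCast.2 (dvd_mul_right _ _)).trans hx
  have hSU : ∀ j < K, ∀ l ∈ S j, l ∈ U := fun j hj l hl =>
    Finset.mem_biUnion.2 ⟨j, Finset.mem_range.2 hj, hl⟩
  have hUpos : ∀ l ∈ U, 0 < l := fun l hl => by have := hUq l hl; omega
  have hPpos : ∀ j < K, 0 < ∏ l ∈ S j, l := fun j hj =>
    Finset.prod_pos fun l hl => hUpos l (hSU j hj l hl)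
  have hPN : ∀ j < K, ∏ l ∈ S j, l ≤ N := fun j hj => by
    refine le_trans (Nat.le_of_dvd (Finset.prod_pos hUpos) ?_) hN
    exact Finset.prod_dvd_prod_of_subset _ _ _ (Finset.subset_biUnion_of_mem S (Finset.mem_range.2 hj))
  -- times divisible by a prime of each set are good
  have hsub : ∀ n ∈ {n : ℕ | n < N ∧ ¬ ManyPrimes K ((mp f)^[n] x)},
      n + t ∈ (((range K).biUnion fun j => (Ico t (t + N)).filter (∏ l ∈ S j, l).Coprime :
        Finset ℕ) : Set ℕ) := by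
    rintro n ⟨hn, hmp⟩
    by_contra hcon
    apply hmp
    have h1 : ∀ j < K, ∃ l ∈ S j, l ∣ n + t := by
      intro j hj
      by_contra hno
      push Not at hno
      refine hcon (Finset.mem_coe.2 (Finset.mem_biUnion.2 ⟨j, Finset.mem_range.2 hj,
        Finset.mem_filter.2 ⟨Finset.mem_Ico.2 ⟨by omega, by omega⟩, ?_⟩⟩))
      exact Nat.Coprime.prod_left fun l hl =>
        ((Nat.Prime.coprime_iff_not_dvd ((hS j hj).1 l hl).1).2 (hno l hl))
    choose! l hlS hln using h1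
    refine ⟨(range K).image fun j => q (l j), ?_, fun p hp => ?_⟩
    · rw [Finset.card_image_of_injOn, Finset.card_range]
      intro i hi j hj hij
      by_contra hne
      have hi' := Finset.mem_range.1 (Finset.mem_coe.1 hi)
      have hj' := Finset.mem_range.1 (Finset.mem_coe.1 hj)
      have h2 := hqinj (l i) (l j) ((hS i hi').1 _ (hlS i hi')).1 ((hS j hj').1 _ (hlS j hj')).1
        ((hS i hi').1 _ (hlS i hi')).2.2 ((hS j hj').1 _ (hlS j hj')).2.2 hij
      have h3 := Finset.disjoint_left.1 (hd i hi' j hj' hne) (hlS i hi')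
      rw [h2] at h3
      exact h3 (hlS j hj')
    · obtain ⟨j, hj, rfl⟩ := Finset.mem_image.1 hp
      have hj' := Finset.mem_range.1 hj
      have hlU := hSU j hj' _ (hlS j hj')
      obtain ⟨hqp, hqd⟩ := hq (l j) (hUp _ hlU) (hUq _ hlU)
      refine ⟨hqp, ?_⟩
      obtain ⟨c, hc⟩ := hln j hj'
      have h2 := dvd_mul_index f hqd c
      rw [← hc] at h2
      have h3 : ((q (l j) : ℕ) : ℤ) ∣ x - (mp f)^[t] 0 := (Int.natCast_dvd_natCast.2
        (Finset.dvd_prod_of_mem q hlU)).trans hx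
      have h4 := sub_dvd f n x ((mp f)^[t] 0)
      rw [iter_add] at h4
      have h5 := dvd_add (h3.trans h4) h2
      rwa [sub_add_cancel] at h5
  have h1 := Set.ncard_le_ncard_of_injOn (fun n => n + t) hsub
    (fun a _ b _ h => Nat.add_right_cancel h) (Finset.finite_toSet _)
  rw [Set.ncard_coe_finset] at h1
  have h2 : ((Set.ncard {n : ℕ | n < N ∧ ¬ ManyPrimes K ((mp f)^[n] x)} : ℕ) : ℝ) ≤
      ((∑ j ∈ range K, ((Ico t (t + N)).filter (∏ l ∈ S j, l).Coprime).card : ℕ) : ℝ) :=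
    Nat.cast_le.2 (h1.trans Finset.card_biUnion_le)
  refine h2.trans ?_
  rw [Nat.cast_sum]
  have hNr : (0 : ℝ) ≤ N := by positivity
  calc ∑ j ∈ range K, ((((Ico t (t + N)).filter (∏ l ∈ S j, l).Coprime).card : ℕ) : ℝ)
      ≤ ∑ _j ∈ range K, 2 * δ * N := by
        refine Finset.sum_le_sum fun j hj => ?_
        have hj' := Finset.mem_range.1 hj
        have h3 := Nat.Ico_filter_coprime_le (a := ∏ l ∈ S j, l) t N (hPpos j hj').ne'
        have h4 : ((((Ico t (t + N)).filter (∏ l ∈ S j, l).Coprime).card : ℕ) : ℝ) ≤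
            (((∏ l ∈ S j, l).totient : ℕ) : ℝ) * ((N / (∏ l ∈ S j, l) + 1 : ℕ) : ℝ) := by
          exact_mod_cast h3
        refine h4.trans ?_
        have h5 := (hS j hj').2
        have hPr : (0 : ℝ) < ((∏ l ∈ S j, l : ℕ) : ℝ) := by exact_mod_cast hPpos j hj'
        have h6 : ((N / (∏ l ∈ S j, l) + 1 : ℕ) : ℝ) ≤ 2 * (N / ((∏ l ∈ S j, l : ℕ) : ℝ)) := by
          have h7 : (1 : ℝ) ≤ N / ((∏ l ∈ S j, l : ℕ) : ℝ) := by
            rw [one_le_div hPr]
            exact_mod_cast hPN j hj'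
          have h8 : ((N / (∏ l ∈ S j, l) : ℕ) : ℝ) ≤ N / ((∏ l ∈ S j, l : ℕ) : ℝ) :=
            Nat.cast_div_le
          push_cast at h7 h8 ⊢
          linarith
        calc (((∏ l ∈ S j, l).totient : ℕ) : ℝ) * ((N / (∏ l ∈ S j, l) + 1 : ℕ) : ℝ)
            ≤ (δ * ((∏ l ∈ S j, l : ℕ) : ℝ)) * (2 * (N / ((∏ l ∈ S j, l : ℕ) : ℝ))) :=
              mul_le_mul h5 h6 (by positivity) (by positivity)
          _ = 2 * δ * N := by field_simp
    _ = (K / (K + 1)) * (ε * N) := by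
        rw [Finset.sum_const, Finset.card_range, nsmul_eq_mul, hδ]
        field_simp
    _ ≤ 1 * (ε * N) := by
        refine mul_le_mul_of_nonneg_right ?_ (by positivity)
        rw [div_le_one (by positivity)]
        linarith
    _ = ε * N := one_mul _

end Pool.Agent.PFO
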